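import Pool.Agent.MP_abb977_al.H94.Met

/-! Coprime automorphisms of non abelian metacyclic groups of prime power order. -/

namespace Pool.Agent.MP_abb977_al.H94

open Subgroup

variable {p : ℕ} {K : Type} [Group K]

theorem nz {a c : K} (h : (zpowers a).Normal) (hc : c ∈ zpowers a) : (zpowers c).Normal :=
  normal_zp fun g => by
    obtain ⟨i, rfl⟩ := hc
    obtain ⟨j, hj⟩ := h.conj_mem a (mem_zpowers a) g
    exact ⟨j, by simp only [← conj_zpow, ← show a ^ j = _ from hj, ← zpow_mul, mul_comm]⟩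

theorem mk_zp {c : K} {E : Subgroup K} [E.Normal] (h : E ≤ zpowers c) {x : K} :
    (x : K ⧸ E) ∈ zpowers (c : K ⧸ E) ↔ x ∈ zpowers c := by
  refine ⟨fun ⟨i, hi⟩ => ?_, fun ⟨i, hi⟩ => ⟨i, hi ▸ rfl⟩⟩
  simpa using mul_mem (zpow_mem (mem_zpowers c) i) (h (QuotientGroup.eq.1 (hi.trans rfl)))

theorem fix2 [Finite K] {α : K →* K} (h : Function.Injective α) {v : K} (v2 : v ^ 2 = 1)
    (e : α v ∈ zpowers v) : α v = v := by
  obtain ⟨s, hs⟩ := nat_pow e
  rcases Nat.even_or_odd' s with ⟨k, rfl | rfl⟩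
  · rw [pow_mul, v2, one_pow] at hs
    rw [hs, h (hs.trans α.map_one.symm)]
  · rw [hs, pow_succ, pow_mul, v2, one_pow, one_mul]

variable [hp : Fact p.Prime] [Finite K]

omit [Finite K] in
theorem fixc {α : K →* K} {c z : K} {m t j : ℕ} (ht : ¬p ∣ t) (per : α^[t] c = c)
    (hj : c ^ p ^ j = 1) (e : α c = c ^ m) (z1 : z ≠ 1) (zp : z ^ p = 1) (hk : z ^ m = z) :
    α c = c := by
  obtain ⟨k, rfl⟩ := mod_one z1 zp hk
  have : ∀ n, α^[n] c = c ^ (p * k + 1) ^ n := fun n => by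
    induction n with
    | zero => simp
    | succ n ih => rw [Function.iterate_succ_apply', ih, map_pow, e, ← pow_mul, ← pow_succ']
  have h1 := (this t).symm.trans per
  rw [fix_iff, Nat.cast_pow] at h1
  rw [e, fix_iff]
  exact zm_one (orderOf_dvd_of_pow_eq_one hj) ⟨k, by push_cast; ring⟩ ht h1

theorem met3 {α : K →* K} (h : Co p α) {a b : K} (nA : (zpowers a).Normal) (g : G2 a b)
    (nab : ¬Commute a b) (ne : ∃ x, α x ≠ x) :
    (∃ u s, (∀ x, Commute u x) ∧ u ^ p = 1 ∧ α u = u ^ (s : ℕ) ∧ u ^ s ≠ u) ∨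
      ∃ u : K, (∀ x, Commute u x) ∧ (zpowers u).index ≤ p ^ 2 := by
  obtain ⟨c, hc⟩ : ∃ c, c = b * a * b⁻¹ * a⁻¹ := ⟨_, rfl⟩
  have ca : c ∈ zpowers a :=
    hc ▸ mul_mem (nA.conj_mem a (mem_zpowers a) b) (inv_mem (mem_zpowers a))
  have c1 : ∀ (E : Subgroup K) [E.Normal], Commute (a : K ⧸ E) b ↔ c ∈ E := fun E _ => by
    rw [← QuotientGroup.eq_one_iff, hc, Commute.symm_iff, ← commutatorElement_eq_one_iff_commute]
    rfl
  have nD := nz nA ca
  have cm := (g.map _ (QuotientGroup.mk'_surjective (zpowers c))).comm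
    ((c1 _).2 (mem_zpowers c))
  have der : ∀ x y, x * y * x⁻¹ * y⁻¹ ∈ zpowers c := fun x y =>
    (QuotientGroup.eq_one_iff _).1 (commutatorElement_eq_one_iff_commute.2 (cm x y))
  obtain ⟨m, hm⟩ := nat_pow (u := c) (x := α c) (by simpa [hc] using hc ▸ der (α b) (α a))
  have c0 : c ≠ 1 := fun e =>
    nab (commutatorElement_eq_one_iff_commute.1 (hc.symm.trans e)).symm
  obtain ⟨i, i1, ip⟩ := exists_ord h.pg (x := c) (j := 0) (by simpa)
  rw [pow_zero, pow_one] at i1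
  rw [zero_add, pow_one] at ip
  by_cases k : (c ^ p ^ i) ^ m = c ^ p ^ i
  swap
  · exact Or.inl ⟨_, m, fun x => (mul_inv_eq_iff_eq_mul.1 (cen_p h.pg ip
      ((nz nA (pow_mem ca _)).conj_mem _ (mem_zpowers _) x))).symm, ip, by
        rw [map_pow, hm, pow_right_comm], k⟩
  obtain ⟨t, ht, per⟩ := h.per
  obtain ⟨j, hj⟩ := h.pg c
  have αc := fixc ht (per c) hj hm i1 ip k
  have fix : ∀ w ∈ zpowers c, α w = w := by
    rintro _ ⟨i, rfl⟩
    simp [αc]
  have nE := nz nA (pow_mem ca p)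
  have le : zpowers (c ^ p) ≤ zpowers c := zpowers_le.2 (pow_mem (mem_zpowers c) p)
  have hE : zpowers (c ^ p) ≤ (zpowers (c ^ p)).comap α := fun w hw =>
    mem_comap.2 (by rwa [fix w (le hw)])
  have cE : c ∉ zpowers (c ^ p) := fun e =>
    c0 (orderOf_eq_one_iff.1 (((Nat.Coprime.symm (mem_zpowers_pow_iff.1 e)).pow_right
      j).eq_one_of_dvd (orderOf_dvd_of_pow_eq_one hj)))
  have cp : (c : K ⧸ zpowers (c ^ p)) ^ p = 1 := (QuotientGroup.eq_one_iff _).2 (mem_zpowers _)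
  have h' := h.quot _ hE
  have cc : ∀ x, Commute (c : K ⧸ zpowers (c ^ p)) x := fun x => by
    obtain ⟨x, rfl⟩ := QuotientGroup.mk_surjective x
    exact (mul_inv_eq_iff_eq_mul.1 (cen_p h'.pg cp
      ((mk_zp le).2 (nD.conj_mem _ (mem_zpowers c) x)))).symm
  obtain k | ⟨rfl, a2, k⟩ := met2 h' (g.map _ (QuotientGroup.mk'_surjective _)) cc cp
    (mt (QuotientGroup.eq_one_iff _).1 cE) (fun x y => by
      obtain ⟨x, rfl⟩ := QuotientGroup.mk_surjective x
      obtain ⟨y, rfl⟩ := QuotientGroup.mk_surjective y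
      exact (mk_zp le).2 (der x y)) (mt (c1 _).1 cE) (by
        obtain ⟨i, rfl⟩ := ca
        exact ⟨i, rfl⟩) (congrArg _ αc)
  · obtain ⟨x, hx⟩ := ne
    have := nD.conj_mem _ ((mk_zp le (x := α x / x)).1 (k x)) x⁻¹
    have e0 : α x = x * (x⁻¹ * (α x / x) * x⁻¹⁻¹) := by simp [div_eq_mul_inv, mul_assoc]
    rw [h.triv e0 (fix _ this), mul_one] at e0
    exact absurd e0 hx
  replace a2 : (a : K ⧸ zpowers c) ^ 2 = 1 :=
    (QuotientGroup.eq_one_iff _).2 ((mk_zp le (x := a ^ 2)).1 a2)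
  have hD : zpowers c ≤ (zpowers c).comap α := fun w hw => mem_comap.2 (by rwa [fix w hw])
  have k2 : ∀ x : K, (x : K ⧸ zpowers c) ^ 2 = 1 → (α x : K ⧸ zpowers c) ∈ zpowers ↑x →
      x ∈ zpowers c := fun x x2 e => (mk_zp le).1 (k x ((mk_zp le (x := α x / x)).2
        (QuotientGroup.eq_iff_div_mem.1 (fix2 (h.quot _ hD).inj x2 e))))
  have b2 : (b : K ⧸ zpowers c) ^ 2 = 1 := by
    by_contra b2
    obtain ⟨j, j1, jp⟩ := exists_ord (h.quot _ hD).pg (x := (b : K ⧸ zpowers c) ^ 2) (j := 0)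
      (by simpa)
    rw [pow_zero, pow_one] at j1
    refine j1 ((QuotientGroup.eq_one_iff ((b ^ 2) ^ 2 ^ j)).2 (k2 _ jp ?_))
    obtain ⟨r, s, e⟩ := g (α b)
    refine ⟨s, ?_⟩
    simp only [map_pow, e, QuotientGroup.mk_pow, QuotientGroup.mk_mul, QuotientGroup.mk_zpow]
    rw [(cm _ _).mul_pow, ← zpow_natCast (_ ^ r), ← zpow_mul, mul_comm r, zpow_mul, zpow_natCast, a2]
    simp only [← zpow_natCast, ← zpow_mul, one_zpow, one_mul, mul_comm s, mul_assoc]
  refine Or.inr ⟨c, ?_, ?_⟩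
  · obtain ⟨r, s, e⟩ := g (α a)
    have h1 : Commute c a := comm_zp (Commute.refl a) ca
    by_cases hs : ((2 : ℕ) : ℤ) ∣ s
    · obtain ⟨s, rfl⟩ := hs
      refine absurd ((c1 _).1 (comm_zp (cc b) ((mk_zp le).2 (k2 a a2 ⟨r, ?_⟩)))) cE
      simp [e, zpow_mul, b2]
    · refine g.cen h1 (comm_zp ?_ (mem_zp h.pg b hs)).symm
      have := h1.map α
      rw [αc, e] at this
      simpa using ((h1.zpow_right r).inv_right.mul_right this).symm
  · let _ : CommGroup (K ⧸ zpowers c) := { (inferInstance : Group _) with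
      mul_comm := fun x y => cm x y }
    refine (card_two (g.map _ (QuotientGroup.mk'_surjective (zpowers c)))).trans ?_
    rw [sq]
    exact Nat.mul_le_mul (orderOf_le_of_pow_eq_one two_pos a2) (orderOf_le_of_pow_eq_one two_pos b2)

end Pool.Agent.MP_abb977_al.H94
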