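import Pool.Agent.MP_abb977_al.H94.Vis
import Pool.Agent.MP_abb977_al.H94.Met3

/-! Groups of prime power order with cyclic centre of index the square of the prime. -/

namespace Pool.Agent.MP_abb977_al.H94

open Subgroup

variable {G : Type} [Group G] {p : ℕ} {z u : G} {P : Subgroup G}

theorem conj_it (n : G) (t : ℕ) (v : G) :
    (MulAut.conj n).toMonoidHom^[t] v = n ^ t * v * (n ^ t)⁻¹ := by
  induction t with
  | zero => simp
  | succ t ih =>
    rw [Function.iterate_succ_apply', ih, pow_succ']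
    simp [mul_assoc]

theorem mem_zp_sub {a b : P} : a ∈ zpowers b ↔ a.1 ∈ zpowers b.1 :=
  ⟨fun ⟨i, h⟩ => ⟨i, congrArg Subtype.val h⟩, fun ⟨i, h⟩ => ⟨i, Subtype.ext h⟩⟩

theorem cen_iff {x : P} : P ≤ centralizer {x.1} ↔ ∀ y, Commute x y :=
  ⟨fun h y => Subtype.ext (mem_centralizer_singleton_iff.1 (h y.2)).symm,
    fun h y hy => mem_centralizer_singleton_iff.2 (congrArg Subtype.val (h ⟨y, hy⟩)).symm⟩

theorem cen_zp {x y : G} (h : P ≤ centralizer {x}) (hy : y ∈ zpowers x) : P ≤ centralizer {y} :=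
  fun _ hg => mem_centralizer_singleton_iff.2
    (comm_zp (mem_centralizer_singleton_iff.1 (h hg) : Commute _ x).symm hy).symm

theorem cen_conj {n x : G} (hn : n ∈ normalizer (P : Set G)) (h : P ≤ centralizer {x}) :
    P ≤ centralizer {n * x * n⁻¹} := fun g hg => mem_cen.2 (by
  have := mem_cen.1 (h (norm_mem (inv_mem hn) hg))
  calc _ = n * (n⁻¹ * g * n⁻¹⁻¹ * x * (n⁻¹ * g * n⁻¹⁻¹)⁻¹) * n⁻¹ := by group
    _ = _ := by rw [this])

instance nsub (z : G) : ((zpowers z).subgroupOf (centralizer {z})).Normal :=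
  ⟨fun a ha g => by
    rw [mem_subgroupOf] at ha ⊢
    simpa [← (comm_zp (mem_centralizer_singleton_iff.1 g.2 : Commute _ z).symm ha).eq] using ha⟩

/-- the centraliser modulo the element -/
abbrev Bar (z : G) := centralizer {z} ⧸ (zpowers z).subgroupOf (centralizer {z})

/-- the projection -/
abbrev ph (z : G) : centralizer {z} →* Bar z := QuotientGroup.mk' _

theorem ph_eq {x y : centralizer {z}} : ph z x = ph z y ↔ x.1 * y.1⁻¹ ∈ zpowers z := by
  rw [← div_eq_mul_inv]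
  exact QuotientGroup.eq_iff_div_mem

/-- the inverse image -/
def lf (T : Subgroup (Bar z)) : Subgroup G := (T.comap (ph z)).map (centralizer {z}).subtype

theorem mem_lf {T : Subgroup (Bar z)} {x : centralizer {z}} : x.1 ∈ lf T ↔ ph z x ∈ T :=
  mem_map_iff_mem (subtype_injective _)

theorem zp_le (z : G) : zpowers z ≤ centralizer {z} := zpowers_le.2 (mem_cen.2 (by group))

theorem card_lf (T : Subgroup (Bar z)) : Nat.card (lf T) = Nat.card T * orderOf z := by
  rw [lf, card_subtype, card_map (ph z), map_comap_eq_self_of_surjective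
    (QuotientGroup.mk'_surjective _), inf_eq_right.2 (ker_le_comap _ _), QuotientGroup.ker_mk',
    Nat.card_congr (subgroupOfEquivOfLe (zp_le z)).toEquiv, Nat.card_zpowers]

theorem exists_lf (h1 : z ∈ P) (h2 : P ≤ centralizer {z}) : ∃ A : Subgroup (Bar z), lf A = P :=
  ⟨(P.subgroupOf _).map (ph z), by
    rw [lf, comap_map_eq_self (by
      rw [QuotientGroup.ker_mk']
      exact fun x hx => zpowers_le.2 h1 hx), map_subgroupOf_eq_of_le h2]⟩

theorem lf_cen {n w : centralizer {z}} :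
    w.1 ∈ lf (centralizer {ph z n}) ↔ n.1 * w * n.1⁻¹ * w.1⁻¹ ∈ zpowers z := by
  rw [mem_lf, mem_centralizer_singleton_iff, eq_comm, ← map_mul, ← map_mul, ph_eq]
  simp [mul_assoc]

theorem lf_norm [Finite G] {A : Subgroup (Bar z)} {n : centralizer {z}} :
    ph z n ∈ normalizer (A : Set (Bar z)) ↔ n.1 ∈ normalizer (lf A : Set G) := by
  refine ⟨fun h => mem_norm ?_, fun h => mem_norm fun a ha => ?_⟩
  · rintro _ ⟨a, ha, rfl⟩
    exact (mem_lf (x := n * a * n⁻¹)).2 (norm_mem h ha)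
  · obtain ⟨a, rfl⟩ := QuotientGroup.mk'_surjective _ a
    exact (mem_lf (x := n * a * n⁻¹)).1 (norm_mem h (mem_lf.2 ha))

variable [hp : Fact p.Prime]

theorem ctriv {n v d : G} {t : ℕ} (ht : ¬p ∣ t) (pd : pe p d) (h : n ^ t * v * (n ^ t)⁻¹ = v)
    (e : n * v * n⁻¹ = v * d) (hd : n * d * n⁻¹ = d) : d = 1 :=
  let ⟨j, hj⟩ := pd
  (pow_eq_one_iff_of_coprime ((hp.out.coprime_iff_not_dvd.2 ht).symm.pow_right j)).1
    ⟨unip ((conj_it n t v).trans h) e hd, hj⟩

theorem rg_bar (zp : z ^ p = 1) : rg p (⊤ : Subgroup (Bar z)) = rg p (centralizer {z}) := by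
  have co : ∀ {m}, ¬p ∣ m → m.Coprime p := fun h => (hp.out.coprime_iff_not_dvd.2 h).symm
  have kill : ∀ w ∈ zpowers z, w ^ p = 1 := fun w hw =>
    orderOf_dvd_iff_pow_eq_one.1 ((orderOf_dvd_of_mem_zpowers hw).trans
      (orderOf_dvd_of_pow_eq_one zp))
  refine (Set.ncard_congr (fun y hy => ph z ⟨y, hy.1⟩) (fun y hy => And.intro (mem_top _)
    fun k => hy.2 (k.trans ((orderOf_map_dvd _ _).trans (orderOf_mk _ _).dvd))) 
    (fun y y' hy hy' e => ?_) fun b hb => ?_).symm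
  · have h1 := ph_eq.1 e
    have h2 := comm_zp (mem_centralizer_singleton_iff.1 hy'.1 : Commute _ z).symm h1
    have h3 : (y * y'⁻¹) ^ (orderOf y * orderOf y') = 1 := by
      have := h2.mul_pow (orderOf y * orderOf y')
      simp only [inv_mul_cancel_right] at this
      rw [pow_mul, pow_orderOf_eq_one, one_pow, mul_comm (orderOf y), pow_mul y',
        pow_orderOf_eq_one, one_pow, mul_one, mul_comm] at this
      exact this.symm
    exact mul_inv_eq_one.1 ((pow_eq_one_iff_of_coprime ((co hy.2).mul_left (co hy'.2))).1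
      ⟨h3, kill _ h1⟩)
  · obtain ⟨y, rfl⟩ := QuotientGroup.mk'_surjective _ b
    obtain ⟨k, e1, d, rfl⟩ : ∃ k, k ≡ 1 [MOD orderOf (ph z y)] ∧ p ∣ k :=
      let ⟨k, e1, e2⟩ := Nat.chineseRemainder (co hb.2) 1 0
      ⟨k, e1, Nat.modEq_zero_iff_dvd.1 e2⟩
    refine ⟨(y ^ (p * d) :), ⟨(y ^ (p * d)).2, fun k => hb.2 (k.trans
      (orderOf_dvd_of_pow_eq_one ?_))⟩, ?_⟩
    · have := kill _ (mem_subgroupOf.1 ((QuotientGroup.eq_one_iff (y ^ orderOf (ph z y))).1
        (pow_orderOf_eq_one (ph z y))))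
      rw [coe_pow, pow_right_comm, pow_mul, ← coe_pow, this, one_pow]
    · exact (pow_eq_pow_iff_modEq.2 e1).trans (pow_one _)

variable [Finite G]

theorem dd_type (pK : IsPGroup p G) (hu : ∀ x, Commute u x) (hi : (zpowers u).index ≤ p ^ 2)
    {a b : G} (nab : ¬Commute a b) : center G = zpowers u ∧ (zpowers u).index = p ^ 2 ∧
      (∀ x, x ^ p ∈ zpowers u) ∧ ∃ z ∈ zpowers u, z ≠ 1 ∧ z ^ p = 1 ∧
        ∀ x y, x * y * x⁻¹ * y⁻¹ ∈ zpowers z := by
  have nc : ¬IsCyclic (G ⧸ center G) := fun _ =>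
    nab ((isMulCommutative_of_isCyclic_quotient_center_self G).is_comm.comm a b)
  have le : zpowers u ≤ center G := zpowers_le.2 (mem_center_iff.2 fun g => (hu g).symm)
  obtain ⟨k, hk⟩ := (pK.to_quotient (center G)).exists_card_eq
  have k2 : p ^ 2 ≤ (center G).index := by
    rw [index, hk]
    exact Nat.pow_le_pow_right hp.out.pos (not_lt.1 fun c => nc (isCyclic_of_card_dvd_prime
      (p := p) (hk ▸ (pow_dvd_pow p (Nat.le_of_lt_succ c)).trans (pow_one p).dvd)))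
  have e : zpowers u = center G := eq_of_le_of_card_ge le (Nat.le_of_mul_le_mul_right (by
    calc _ ≤ _ := Nat.mul_le_mul_left _ (hi.trans k2)
      _ = _ := by rw [card_mul_index, card_mul_index]) (Nat.pos_of_ne_zero index_ne_zero_of_finite))
  rw [e] at hi ⊢
  have c2 : Nat.card (G ⧸ center G) = p ^ 2 := le_antisymm hi k2
  have cm : ∀ x y, x * y * x⁻¹ * y⁻¹ ∈ center G := fun x y => (QuotientGroup.eq_one_iff _).1
    (commutatorElement_eq_one_iff_mul_comm.2
      ((IsPGroup.isMulCommutative_of_card_eq_prime_sq c2).is_comm.comm (x : G ⧸ center G) y))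
  have pw : ∀ x, x ^ p ∈ center G := fun x => by
    obtain ⟨i, hi, h⟩ := (Nat.dvd_prime_pow hp.out).1
      (c2 ▸ orderOf_dvd_natCard (x : G ⧸ center G))
    refine (QuotientGroup.eq_one_iff _).1 (orderOf_dvd_iff_pow_eq_one.1 (h ▸ (pow_dvd_pow p
      (not_lt.1 fun c => nc (isCyclic_of_orderOf_eq_card (x : G ⧸ center G) ?_))).trans (pow_one p).dvd))
    rw [h, c2, le_antisymm hi c]
  obtain ⟨z, hz, z1, zp⟩ := exists_p pK (S := center G) fun k => nab
    (commutatorElement_eq_one_iff_commute.1 (mem_bot.1 (k ▸ cm a b)))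
  refine ⟨rfl, c2, pw, z, hz, z1, zp, fun x y => cyc_uniq (e ▸ hz) (e ▸ cm x y) zp z1
    (unip (α := (MulAut.conj x).toMonoidHom) (v := y) ?_ ?_ ?_)⟩
  · rw [conj_it, ← mem_center_iff.1 (pw x), mul_inv_cancel_right]
  · rw [mem_center_iff.1 (cm x y)]
    simp
  · exact mul_inv_eq_iff_eq_mul.2 (mem_center_iff.1 (cm x y) x)

/-- cyclic centre generated by `u` of index `p ^ 2`, with `z` of order `p` in it -/
structure DD (p : ℕ) (P : Subgroup G) (u z : G) : Prop where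
  mem : u ∈ P
  cen : ∀ x ∈ P, P ≤ centralizer {x} ↔ x ∈ zpowers u
  card : Nat.card P = orderOf u * p ^ 2
  pw : ∀ x ∈ P, x ^ p ∈ zpowers u
  zu : z ∈ zpowers u
  z1 : z ≠ 1
  zp : z ^ p = 1
  com : ∀ x ∈ P, ∀ y ∈ P, x * y * x⁻¹ * y⁻¹ ∈ zpowers z

theorem DD.of (pP : IsPGroup p P) {u : P} (hu : ∀ x, Commute u x)
    (hi : (zpowers u).index ≤ p ^ 2) {a b : P} (nab : ¬Commute a b) : ∃ z, DD p P u z := by
  obtain ⟨h1, h2, h3, z, h4, h5, h6, h7⟩ := dd_type pP hu hi nab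
  refine ⟨z, u.2, fun x hx => ?_, ?_, fun x hx => mem_zp_sub.1 (h3 ⟨x, hx⟩), mem_zp_sub.1 h4,
    fun e => h5 (Subtype.ext e), congrArg Subtype.val h6,
    fun x hx y hy => mem_zp_sub.1 (h7 ⟨x, hx⟩ ⟨y, hy⟩)⟩
  · rw [cen_iff (x := ⟨x, hx⟩), ← mem_zp_sub (a := ⟨x, hx⟩), ← h1, mem_center_iff]
    exact forall_congr' fun y => eq_comm
  · rw [← h2, orderOf_coe, ← Nat.card_zpowers, card_mul_index]

end Pool.Agent.MP_abb977_al.H94
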