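import Mathlib

/-! Coprime action on abelian groups of rank at most two. -/

namespace Pool.Agent.MP_abb977_al.H94

open Subgroup

variable {p : ℕ}

section Gen

variable {K L : Type} [Group K] [Group L]

theorem unip {α : K →* K} {t : ℕ} {v d : K} (ht : α^[t] v = v) (h : α v = v * d) (hd : α d = d) :
    d ^ t = 1 := by
  have : ∀ k, α^[k] v = v * d ^ k := fun k => by
    induction k with
    | zero => simp
    | succ k ih =>
      rw [Function.iterate_succ_apply', ih, map_mul, map_pow, h, hd, mul_assoc, pow_succ']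
  rw [this] at ht
  exact mul_eq_left.1 ht

theorem fix_iff (u : K) (s : ℕ) : u ^ s = u ↔ (s : ZMod (orderOf u)) = 1 := by
  conv_lhs => rhs; rw [← pow_one u]
  rw [pow_eq_pow_iff_modEq, ← ZMod.natCast_eq_natCast_iff, Nat.cast_one]

theorem conj_iter {y u : K} {s : ℕ} (h : y * u * y⁻¹ = u ^ s) (k : ℕ) :
    y ^ k * u * (y ^ k)⁻¹ = u ^ s ^ k := by
  induction k with
  | zero => simp
  | succ k ih =>
    calc _ = y ^ k * (y * u * y⁻¹) * (y ^ k)⁻¹ := by group
      _ = _ := by rw [h, ← conj_pow, ih, ← pow_mul, pow_succ]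

theorem card_map (f : K →* L) (S : Subgroup K) :
    Nat.card S = Nat.card (S.map f) * Nat.card (S ⊓ f.ker : Subgroup K) := by
  rw [← relIndex_ker, ← inf_relIndex_left, relIndex,
    ← Nat.card_congr (subgroupOfEquivOfLe inf_le_left).toEquiv, index_mul_card]

theorem card_rel {A S : Subgroup K} (h : A ≤ S) : A.relIndex S * Nat.card A = Nat.card S := by
  rw [relIndex, ← Nat.card_congr (subgroupOfEquivOfLe h).toEquiv, index_mul_card]

theorem nat_pow [Finite K] {u x : K} (h : x ∈ zpowers u) : ∃ s : ℕ, x = u ^ s :=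
  let ⟨s, hs⟩ := mem_powers_iff_mem_zpowers.2 h
  ⟨s, hs.symm⟩

theorem exists_ord (pK : IsPGroup p K) {x : K} {j : ℕ} (hx : x ^ p ^ j ≠ 1) :
    ∃ i, (x ^ p ^ i) ^ p ^ j ≠ 1 ∧ (x ^ p ^ i) ^ p ^ (j + 1) = 1 := by
  classical
  have ex : ∃ i, (x ^ p ^ i) ^ p ^ (j + 1) = 1 :=
    let ⟨k, hk⟩ := pK x
    ⟨k, by rw [hk, one_pow]⟩
  refine ⟨Nat.find ex, ?_, Nat.find_spec ex⟩
  rcases h : Nat.find ex with _ | i
  · simpa
  · have := Nat.find_min ex (m := i) (by omega)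
    rwa [← pow_mul, ← pow_add, add_right_comm, add_assoc, pow_add, pow_mul]

theorem exists_p (pK : IsPGroup p K) {S : Subgroup K} (h : S ≠ ⊥) :
    ∃ u ∈ S, u ≠ 1 ∧ u ^ p = 1 := by
  obtain ⟨⟨x, hx⟩, x1⟩ := ne_bot_iff_exists_ne_one.1 h
  obtain ⟨i, h1, h2⟩ := exists_ord pK (x := x) (j := 0) (by simpa using x1)
  exact ⟨_, pow_mem hx _, by simpa using h1, by simpa using h2⟩

variable [hp : Fact p.Prime]

theorem zp_eq [Finite K] {S : Subgroup K} (h : Nat.card S ≤ p) {u : K} (hu : u ∈ S) (u1 : u ≠ 1)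
    (up : u ^ p = 1) : zpowers u = S :=
  eq_of_le_of_card_ge (zpowers_le.2 hu) (by rwa [Nat.card_zpowers, orderOf_eq_prime up u1])

theorem zm_one {o j t : ℕ} (ho : o ∣ p ^ j) {s : ZMod o} (h : (p : ZMod o) ∣ s - 1) (ht : ¬p ∣ t)
    (e : s ^ t = 1) : s = 1 := by
  have h2 := dvd_sub_pow_of_dvd_sub h j
  rw [pow_succ, ← Nat.cast_pow, (ZMod.natCast_eq_zero_iff _ _).2 ho, zero_mul, zero_dvd_iff,
    one_pow, sub_eq_zero] at h2
  exact (pow_eq_one_iff_of_coprime ((hp.out.coprime_iff_not_dvd.2 ht).symm.pow_right j)).1 ⟨e, h2⟩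

/-- an endomorphism of order prime to `p` of a `p`-group -/
structure Co (p : ℕ) (α : K →* K) : Prop where
  pg : IsPGroup p K
  per : ∃ t, ¬p ∣ t ∧ ∀ x, α^[t] x = x

theorem Co.triv {α : K →* K} (h : Co p α) {v d : K} (e : α v = v * d) (hd : α d = d) : d = 1 := by
  obtain ⟨t, ht, k⟩ := h.per
  obtain ⟨j, hj⟩ := h.pg d
  exact (pow_eq_one_iff_of_coprime ((hp.out.coprime_iff_not_dvd.2 ht).symm.pow_right j)).1
    ⟨unip (k v) e hd, hj⟩

omit hp in
theorem Co.inj {α : K →* K} (h : Co p α) : Function.Injective α := by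
  obtain ⟨_ | t, ht, k⟩ := h.per
  · exact absurd (dvd_zero p) ht
  · exact Function.LeftInverse.injective (g := α^[t]) k

omit hp in
theorem Co.quot {α : K →* K} (h : Co p α) (D : Subgroup K) [D.Normal] (hD : D ≤ D.comap α) :
    Co p (QuotientGroup.map D D α hD) := by
  obtain ⟨t, ht, k⟩ := h.per
  refine ⟨h.pg.to_quotient D, t, ht, fun x => ?_⟩
  obtain ⟨x, rfl⟩ := QuotientGroup.mk_surjective x
  rw [← Function.Semiconj.iterate_right (f := QuotientGroup.mk) (ga := α) (fun _ => rfl) t x, k]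

end Gen

variable {B : Type} [CommGroup B] {α : B →* B} [hp : Fact p.Prime]

/-- elements killed by `j` -/
abbrev Om (B : Type) [CommGroup B] (j : ℕ) : Subgroup B := (powMonoidHom j : B →* B).ker

/-- the map `x ↦ α x / x` -/
abbrev dl (α : B →* B) : B →* B := α / MonoidHom.id B

omit hp in
theorem mem_Om {j : ℕ} {x : B} : x ∈ Om B j ↔ x ^ j = 1 := Iff.rfl

omit hp in
theorem mem_fx {x : B} : x ∈ (dl α).ker ↔ α x = x := div_eq_one

omit hp in
theorem dl_map {x : B} (h : x ∈ (dl α).range) : α x ∈ (dl α).range := by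
  obtain ⟨y, rfl⟩ := h
  exact ⟨α y, by simp⟩

theorem Co.omega (h : Co p α) (S : Subgroup B) (hS : ∀ x ∈ S, α x ∈ S)
    (k : ∀ x ∈ S, x ^ p = 1 → α x = x) {x : B} (hx : x ∈ S) : α x = x := by
  obtain ⟨j, hj⟩ := h.pg x
  induction j generalizing x with
  | zero => simp_all
  | succ j ih =>
    have e := ih (pow_mem hx p) (by rwa [← pow_mul, ← pow_succ'])
    have := h.triv (v := x) (d := α x / x) (by simp) (k _ (div_mem (hS x hx) hx)
      (by rw [div_pow, ← map_pow, e, div_self']))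
    exact div_eq_one.1 this

theorem Co.disj (h : Co p α) : Disjoint (dl α).ker (dl α).range :=
  disjoint_def.2 fun {_} hx ⟨y, hy⟩ =>
    h.triv (v := y) (by rw [← hy]; simp) (mem_fx.1 hx)

variable [Finite B]

omit hp in
theorem om_le (S : Subgroup B) (j : ℕ) :
    Nat.card (S ⊓ Om B (p ^ j) : Subgroup B) ≤ Nat.card (S ⊓ Om B p : Subgroup B) ^ j := by
  induction j with
  | zero =>
    rw [pow_zero, pow_zero, card_le_one_iff_eq_bot, eq_bot_iff]
    exact fun x hx => by simpa using mem_Om.1 hx.2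
  | succ j ih =>
    rw [card_map (powMonoidHom (p ^ j) : B →* B), pow_succ' (Nat.card _)]
    refine Nat.mul_le_mul (card_le_of_le ?_) ((card_le_of_le ?_).trans ih)
    · rintro _ ⟨x, hx, rfl⟩
      exact ⟨pow_mem hx.1 _, (pow_mul x _ _).symm.trans hx.2⟩
    · exact inf_le_inf_right _ inf_le_left

theorem split (pB : IsPGroup p B) (r : Nat.card (Om B p) ≤ p ^ 2) {C D : Subgroup B}
    (h : Disjoint C D) (hD : D ≠ ⊥) : Nat.card (C ⊓ Om B p : Subgroup B) ≤ p := by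
  obtain ⟨u, hu, u1, up⟩ := exists_p pB hD
  have h1 := mul_injective_of_disjoint (H₁ := C ⊓ Om B p) (H₂ := zpowers u)
    (h.mono inf_le_left (zpowers_le.2 hu))
  have h2 := Nat.card_le_card_of_injective (β := Om B p)
    (fun g : (C ⊓ Om B p : Subgroup B) × zpowers u =>
      ⟨g.1 * g.2, mul_mem g.1.2.2 (zpowers_le.2 (mem_Om.2 up) g.2.2)⟩)
    fun _ _ e => h1 (congrArg Subtype.val e)
  rw [Nat.card_prod, Nat.card_zpowers, orderOf_eq_prime up u1] at h2
  exact Nat.le_of_mul_le_mul_right (h2.trans (r.trans_eq (sq p))) hp.out.pos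

omit hp in
theorem card_le_pow {C : Subgroup B} (h : Nat.card (C ⊓ Om B p : Subgroup B) ≤ p) {j : ℕ}
    (e : ∀ x ∈ C, x ^ p ^ j = 1) : Nat.card C ≤ p ^ j := by
  have := om_le (p := p) C j
  rw [inf_eq_left.2 e] at this
  exact this.trans (Nat.pow_le_pow_left h j)

theorem cyc (pB : IsPGroup p B) {C : Subgroup B} (h : Nat.card (C ⊓ Om B p : Subgroup B) ≤ p) :
    ∃ c, zpowers c = C := by
  obtain ⟨n, hn⟩ := (pB.to_subgroup C).exists_card_eq
  obtain ⟨j, -, hj⟩ := (Nat.dvd_prime_pow hp.out).1 (hn ▸ Group.exponent_dvd_nat_card (G := C))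
  refine (Subgroup.isCyclic_iff_exists_zpowers_eq_top C).1 (IsCyclic.of_exponent_eq_card
    (le_antisymm (Nat.le_of_dvd Nat.card_pos Group.exponent_dvd_nat_card) ?_))
  rw [hj]
  exact card_le_pow h fun x hx =>
    congrArg Subtype.val (hj ▸ Monoid.pow_exponent_eq_one (⟨x, hx⟩ : C))

/-- an eigenvector with non-trivial eigenvalue -/
def Eig (p : ℕ) {K : Type} [Group K] (α : K →* K) : Prop :=
  ∃ u s, u ^ p = 1 ∧ α u = u ^ (s : ℕ) ∧ u ^ s ≠ u

theorem Co.eig (h : Co p α) (r : Nat.card (Om B p) ≤ p ^ 2) (ne : (dl α).range ≠ ⊥)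
    {L : Subgroup B} (L1 : L ≠ ⊥) (Lp : Nat.card L ≤ p) (hL : ∀ x ∈ L, α x ∈ L) : Eig p α := by
  obtain ⟨l, hl, l1, lp⟩ := exists_p h.pg L1
  obtain ⟨s, hs⟩ := nat_pow (zp_eq Lp hl l1 lp ▸ hL l hl)
  by_cases e : l ^ s = l
  · obtain ⟨u, hu, u1, up⟩ := exists_p h.pg ne
    have k := split h.pg r h.disj.symm
      (ne_bot_iff_exists_ne_one.2 ⟨⟨l, mem_fx.2 (hs.trans e)⟩, by simpa⟩)
    obtain ⟨s, hs⟩ := nat_pow (u := u) (x := α u) (by
      rw [zp_eq k ⟨hu, up⟩ u1 up]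
      exact ⟨dl_map hu, mem_Om.2 (by rw [← map_pow, up, map_one])⟩)
    exact ⟨u, s, up, hs, fun e => u1 (disjoint_def.1 h.disj (mem_fx.2 (hs.trans e)) hu)⟩
  · exact ⟨l, s, lp, hs, e⟩

theorem Co.homo (h : Co p α) (r : Nat.card (Om B p) ≤ p ^ 2) (ne : (dl α).range ≠ ⊥)
    (k : ¬Eig p α) : ∃ a, Nat.card B = (p ^ a) ^ 2 ∧ ∀ x : B, x ^ p ^ a = 1 := by
  classical
  have ex : ∃ a, ∀ x : B, x ^ p ^ a = 1 :=
    let ⟨n, hn⟩ := h.pg.exists_card_eq
    ⟨n, fun x => hn ▸ pow_card_eq_one'⟩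
  have key : ∀ j ≤ Nat.find ex, Nat.card (Om B (p ^ j)) = (p ^ j) ^ 2 := fun j hj => by
    induction j with
    | zero => simp
    | succ j ih =>
      have le : (Om B (p ^ (j + 1))).map (powMonoidHom (p ^ j) : B →* B) ≤ Om B p := by
        rintro _ ⟨x, hx, rfl⟩
        exact (pow_mul x _ _).symm.trans hx
      rw [card_map (powMonoidHom (p ^ j) : B →* B), inf_eq_right.2 fun x hx => mem_Om.2 (by
        rw [pow_succ, pow_mul, mem_Om.1 hx, one_pow]), ih (Nat.le_of_succ_le hj), pow_succ' p j,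
        mul_pow]
      congr 1
      obtain ⟨i, hi⟩ := (h.pg.to_subgroup
        ((Om B (p ^ (j + 1))).map (powMonoidHom (p ^ j) : B →* B))).exists_card_eq
      rw [← pow_succ', hi]
      congr 1
      refine le_antisymm ((pow_le_pow_iff_right₀ hp.out.one_lt).1
        (hi ▸ (card_le_of_le le).trans r)) (not_lt.1 fun c => k (h.eig r ne ?_ (hi.trans_le ?_) ?_))
      · obtain ⟨x, hx⟩ := not_forall.1 (Nat.find_min ex hj)
        obtain ⟨i, h1, h2⟩ := exists_ord h.pg hx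
        exact ne_bot_iff_exists_ne_one.2 ⟨⟨_, _, h2, rfl⟩, by simpa using h1⟩
      · simpa using pow_le_pow_right₀ hp.out.one_le (Nat.le_of_lt_succ c)
      · rintro _ ⟨x, hx, rfl⟩
        exact ⟨α x, mem_Om.2 (by rw [← map_pow, mem_Om.1 hx, map_one]), by simp⟩
  refine ⟨_, ?_, Nat.find_spec ex⟩
  rw [← key _ le_rfl, (eq_top_iff' (Om B _)).2 (Nat.find_spec ex), card_top]

theorem Co.three (h : Co p α) (r : Nat.card (Om B p) ≤ p ^ 2) {a : ℕ}
    (hc : Nat.card B = (p ^ a) ^ 2) (e : ∀ x : B, x ^ p ^ a = 1) :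
    Nat.card (dl α).ker = 1 ∨ Nat.card (dl α).ker = p ^ a ∨ Nat.card (dl α).ker = Nat.card B := by
  have h1 := (dl α).ker.card_mul_index
  rw [index_ker] at h1
  by_cases k1 : (dl α).ker = ⊥
  · exact Or.inl (card_eq_one.2 k1)
  by_cases k2 : (dl α).range = ⊥
  · exact Or.inr (Or.inr (by rw [← h1, card_eq_one.2 k2, mul_one]))
  have h2 := card_le_pow (split h.pg r h.disj k2) fun x _ => e x
  have h3 := card_le_pow (split h.pg r h.disj.symm k1) fun x _ => e x
  refine Or.inr (Or.inl (le_antisymm h2 (Nat.le_of_mul_le_mul_right ?_ (pow_pos hp.out.pos a))))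
  rw [← sq, ← hc, ← h1]
  exact Nat.mul_le_mul_left _ h3

omit hp in
theorem card_two {a b : B} (h : ∀ x, ∃ i j : ℤ, x = a ^ i * b ^ j) :
    Nat.card B ≤ orderOf a * orderOf b := by
  rw [← Nat.card_zpowers, ← Nat.card_zpowers, ← Nat.card_prod]
  refine Nat.card_le_card_of_surjective (fun g : zpowers a × zpowers b => g.1.1 * g.2.1) fun x => ?_
  obtain ⟨i, j, rfl⟩ := h x
  exact ⟨(⟨_, i, rfl⟩, ⟨_, j, rfl⟩), rfl⟩

theorem rank_two {a b : B} (h : ∀ x, ∃ i j : ℤ, x = a ^ i * b ^ j) :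
    Nat.card (Om B p) ≤ p ^ 2 := by
  have h1 := (Om B p).card_mul_index
  rw [index_ker, ← (powMonoidHom p : B →* B).range.index_mul_card] at h1
  rw [Nat.eq_of_mul_eq_mul_right Nat.card_pos h1, index, sq]
  have k : ∀ x : B, orderOf (x : B ⧸ (powMonoidHom p : B →* B).range) ≤ p := fun x =>
    orderOf_le_of_pow_eq_one hp.out.pos ((QuotientGroup.eq_one_iff (x ^ p)).2 ⟨x, rfl⟩)
  refine (card_two fun x => ?_).trans (Nat.mul_le_mul (k a) (k b))
  obtain ⟨x, rfl⟩ := QuotientGroup.mk_surjective x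
  obtain ⟨i, j, rfl⟩ := h x
  exact ⟨i, j, rfl⟩

end Pool.Agent.MP_abb977_al.H94
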