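import Mathlib

/-! Conjugacy under a subgroup, centraliser orders, and fusion lemmas. -/

namespace Pool.Agent.MP_abb977_al.H94

open Subgroup
open scoped Pointwise

variable {G : Type} [Group G]

/-- conjugate under an element of `Y` -/
def cj (Y : Subgroup G) (x y : G) : Prop := ∃ t ∈ Y, t * x * t⁻¹ = y

/-- order of the centraliser in `Y` -/
noncomputable def cz (Y : Subgroup G) (x : G) : ℕ := Nat.card (Y ⊓ centralizer {x} : Subgroup G)

theorem mem_cen {x t : G} : t ∈ centralizer {x} ↔ t * x * t⁻¹ = x := by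
  rw [mem_centralizer_singleton_iff, mul_inv_eq_iff_eq_mul]

theorem cj.rfl {Y : Subgroup G} {x : G} : cj Y x x := ⟨1, one_mem _, by simp⟩

theorem cj.symm {Y : Subgroup G} {x y : G} : cj Y x y → cj Y y x :=
  fun ⟨t, ht, e⟩ => ⟨t⁻¹, inv_mem ht, by rw [← e]; group⟩

theorem cj.trans {Y : Subgroup G} {x y z : G} : cj Y x y → cj Y y z → cj Y x z :=
  fun ⟨t, ht, e⟩ ⟨s, hs, e'⟩ => ⟨s * t, mul_mem hs ht, by rw [← e', ← e]; group⟩

theorem cj.mono {Y Y' : Subgroup G} (h : Y ≤ Y') {x y : G} : cj Y x y → cj Y' x y :=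
  fun ⟨t, ht, e⟩ => ⟨t, h ht, e⟩

theorem cj.pow {Y : Subgroup G} {x y : G} (k : ℕ) : cj Y x y → cj Y (x ^ k) (y ^ k) :=
  fun ⟨t, ht, e⟩ => ⟨t, ht, by rw [← e, conj_pow]⟩

theorem cj_top {x y : G} : cj ⊤ x y ↔ IsConj x y := by
  simp [cj, isConj_iff]

theorem card_cj (Y : Subgroup G) (x : G) : {y | cj Y x y}.ncard * cz Y x = Nat.card Y := by
  let _ : MulAction Y G := MulAction.compHom G (MulAut.conj.comp Y.subtype)
  have h1 : MulAction.orbit Y x = {y | cj Y x y} := by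
    ext y
    exact ⟨fun ⟨t, e⟩ => ⟨t, t.2, e⟩, fun ⟨t, ht, e⟩ => ⟨⟨t, ht⟩, e⟩⟩
  have h2 : MulAction.stabilizer Y x = (Y ⊓ centralizer {x}).subgroupOf Y := by
    ext t
    rw [mem_subgroupOf, mem_inf, mem_cen]
    exact ⟨fun h => ⟨t.2, h⟩, fun h => h.2⟩
  rw [← h1, ← MulAction.index_stabilizer, h2, cz,
    ← Nat.card_congr (subgroupOfEquivOfLe inf_le_left).toEquiv, index_mul_card]

variable [Finite G]

theorem cz_pos (Y : Subgroup G) (x : G) : 0 < cz Y x := Nat.card_pos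

theorem cj.cz_eq {Y : Subgroup G} {x y : G} (h : cj Y x y) : cz Y x = cz Y y := by
  have e : {z | cj Y x z} = {z | cj Y y z} :=
    Set.ext fun z => ⟨fun k => h.symm.trans k, fun k => h.trans k⟩
  have h1 := card_cj Y x
  rw [e, ← card_cj Y y] at h1
  exact Nat.eq_of_mul_eq_mul_left ((Set.ncard_pos (Set.toFinite _)).2 ⟨y, cj.rfl⟩) h1

variable {p : ℕ} [Fact p.Prime]

/-- conjugacy of two `p`-subgroups of full order inside `Y` -/
theorem syl_conj {Y A B : Subgroup G} (hA : A ≤ Y) (hB : B ≤ Y) (pA : IsPGroup p A)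
    (pB : IsPGroup p B) (iA : ¬p ∣ A.relIndex Y) :
    ∃ c ∈ Y, ∀ b ∈ B, c * b * c⁻¹ ∈ A := by
  let A' : Sylow p Y := (pA.of_equiv (subgroupOfEquivOfLe hA).symm).toSylow iA
  obtain ⟨B', hB'⟩ := (pB.of_equiv (subgroupOfEquivOfLe hB).symm).exists_le_sylow
  obtain ⟨c, hc⟩ := MulAction.exists_smul_eq Y B' A'
  refine ⟨c, c.2, fun b hb => ?_⟩
  have h1 : (⟨b, hB hb⟩ : Y) ∈ (B' : Subgroup Y) := hB' hb
  have h2 : c * ⟨b, hB hb⟩ * c⁻¹ ∈ (A' : Subgroup Y) := by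
    rw [← hc, Sylow.coe_subgroup_smul]
    exact smul_mem_pointwise_smul _ (MulAut.conj c) _ h1
  exact h2

omit [Fact p.Prime] in
theorem mem_norm {A : Subgroup G} {t : G} (h : ∀ a ∈ A, t * a * t⁻¹ ∈ A) :
    t ∈ normalizer (A : Set G) :=
  mem_normalizer_fintype h

omit [Finite G] [Fact p.Prime] in
theorem norm_mem {A : Subgroup G} {t a : G} (h : t ∈ normalizer (A : Set G)) (ha : a ∈ A) :
    t * a * t⁻¹ ∈ A :=
  (mem_normalizer_iff.1 h a).1 ha

/-- adjusting an element so that it normalises `A` -/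
theorem adjust {Y A : Subgroup G} (hA : A ≤ Y) (pA : IsPGroup p A) (iA : ¬p ∣ A.relIndex Y)
    {g : G} (hg : ∀ a ∈ A, g * a * g⁻¹ ∈ Y) : ∃ c ∈ Y, c * g ∈ normalizer (A : Set G) := by
  obtain ⟨c, hc, h⟩ := syl_conj (B := A.map (MulAut.conj g).toMonoidHom) hA
    (by rintro _ ⟨a, ha, rfl⟩; exact hg a ha) pA (pA.map _) iA
  refine ⟨c, hc, mem_norm fun a ha => ?_⟩
  have := h _ ⟨a, ha, rfl⟩
  simpa [mul_assoc] using this

omit [Finite G] [Fact p.Prime] in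
theorem not_dvd_mono {A Y X : Subgroup G} (h1 : A ≤ Y) (h2 : Y ≤ X) (h : ¬p ∣ A.relIndex X) :
    ¬p ∣ A.relIndex Y := fun k =>
  h (relIndex_mul_relIndex A Y X h1 h2 ▸ k.mul_right _)

/-- Burnside's fusion lemma -/
theorem fusion {X A : Subgroup G} (hA : A ≤ X) (pA : IsPGroup p A) (iA : ¬p ∣ A.relIndex X)
    {x y : G} (hx : A ≤ centralizer {x}) (hy : A ≤ centralizer {y}) (h : cj X x y) :
    cj (X ⊓ normalizer (A : Set G)) x y := by
  obtain ⟨g, hg, e⟩ := h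
  obtain ⟨c, hc, h⟩ := adjust (Y := X ⊓ centralizer {y}) (le_inf hA hy) pA
    (not_dvd_mono (le_inf hA hy) inf_le_left iA) (g := g) fun a ha =>
      mem_inf.2 ⟨mul_mem (mul_mem hg (hA ha)) (inv_mem hg), by
        have := mem_cen.1 (hx ha)
        rw [mem_cen, ← e]
        calc _ = g * (a * x * a⁻¹) * g⁻¹ := by group
          _ = _ := by rw [this]⟩
  refine ⟨c * g, ⟨mul_mem hc.1 hg, h⟩, ?_⟩
  calc _ = c * (g * x * g⁻¹) * c⁻¹ := by group
    _ = _ := by rw [e, mem_cen.1 hc.2]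

end Pool.Agent.MP_abb977_al.H94
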