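import Pool.Agent.MP_abb977_al.H94.Rep
import Pool.Agent.MP_abb977_al.H94.Cls

/-! Column orthogonality, character values as polynomials in a root of unity, and separation of
regular classes modulo a prime. -/

namespace Pool.Agent.MP_abb977_al.H94

open Subgroup Polynomial Finset

theorem spec {V : Type} [AddCommGroup V] [Module ℂ V] [FiniteDimensional ℂ V]
    {u e : Module.End ℂ V} {n : ℕ} (hn : n ≠ 0) (hu : u ^ n = 1) (he : IsIdempotentElem e)
    (hc : Commute u e) {ζ : ℂ} (hζ : IsPrimitiveRoot ζ n) :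
    ∃ f : ℤ[X], ∀ j : ℕ, LinearMap.trace ℂ V (u ^ j * e) = aeval (ζ ^ j) f := by
  have h0 : ζ ≠ 0 := hζ.ne_zero hn
  have hn' : (n : ℂ) ≠ 0 := Nat.cast_ne_zero.2 hn
  let E : ℕ → Module.End ℂ V := fun i => (n : ℂ)⁻¹ • ∑ k ∈ range n, ((ζ ^ i)⁻¹ • u) ^ k
  have h1 : ∀ i, ((ζ ^ i)⁻¹ • u) * E i = E i := fun i => by
    have := mul_geom_sum ((ζ ^ i)⁻¹ • u) n
    rw [_root_.smul_pow, hu, inv_pow, ← pow_mul, mul_comm i, pow_mul, hζ.pow_eq_one, one_pow,
      inv_one, one_smul, sub_self, sub_mul, one_mul, sub_eq_zero] at this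
    simp only [E, mul_smul_comm, this]
  have h2 : ∀ i k, ((ζ ^ i)⁻¹ • u) ^ k * E i = E i := fun i k => by
    induction k with
    | zero => simp
    | succ k ih => rw [pow_succ, mul_assoc, h1, ih]
  have h3 : ∀ i, IsIdempotentElem (E i * e) := fun i => by
    refine IsIdempotentElem.mul_of_commute ?_ ?_ he
    · exact (Commute.sum_left _ _ _ fun k _ => (hc.smul_left _).pow_left k).smul_left _
    · change ((n : ℂ)⁻¹ • ∑ k ∈ range n, ((ζ ^ i)⁻¹ • u) ^ k) * E i = E i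
      rw [smul_mul_assoc, sum_mul]
      simp only [h2, sum_const, card_range, ← Nat.cast_smul_eq_nsmul ℂ, smul_smul,
        inv_mul_cancel₀ hn', one_smul]
  have h4 : ∑ i ∈ range n, E i = 1 := by
    simp only [E, ← smul_sum, _root_.smul_pow]
    rw [sum_comm, sum_eq_single 0]
    · simp [← Nat.cast_smul_eq_nsmul ℂ, smul_smul, hn']
    · intro k hk hk0
      rw [← sum_smul]
      have e1 : (ζ ^ k)⁻¹ ≠ 1 := inv_ne_one.2 (hζ.pow_ne_one_of_pos_of_lt hk0 (mem_range.1 hk))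
      have e2 := geom_sum_eq e1 n
      rw [inv_pow, ← pow_mul, mul_comm k, pow_mul, hζ.pow_eq_one, one_pow, inv_one, sub_self,
        zero_div] at e2
      have e3 : ∑ i ∈ range n, (ζ ^ i)⁻¹ ^ k = 0 := by
        rw [← e2]
        exact sum_congr rfl fun i _ => by rw [inv_pow, inv_pow, ← pow_mul, ← pow_mul, mul_comm]
      rw [e3, zero_smul]
    · simp [hn]
  have h5 : ∀ i, ∃ m : ℕ, LinearMap.trace ℂ V (E i * e) = m := fun i =>
    ⟨_, (LinearMap.IsIdempotentElem.isProj_range _ (h3 i)).trace⟩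
  choose m hm using h5
  refine ⟨∑ i ∈ range n, C (m i : ℤ) * X ^ i, fun j => ?_⟩
  rw [← one_mul e, ← h4, sum_mul, mul_sum, map_sum, map_sum]
  refine sum_congr rfl fun i _ => ?_
  have : u ^ j * E i = (ζ ^ j) ^ i • E i := by
    conv_rhs => rw [← h2 i j, _root_.smul_pow, smul_mul_assoc, smul_smul, inv_pow, ← pow_mul,
      ← pow_mul, mul_comm i, mul_inv_cancel₀ (pow_ne_zero _ h0), one_smul]
  rw [← mul_assoc, this, smul_mul_assoc, map_smul, hm]
  simp [mul_comm]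

/-- `z` satisfies every integral equation satisfied by `ζ` -/
def Sp {k : Type} [CommRing k] (ζ : ℂ) (z : k) : Prop :=
  ∀ f f' : ℤ[X], aeval ζ f = aeval ζ f' → aeval z f = aeval z f'

theorem sp_of {k : Type} [CommRing k] {ζ : ℂ} {n : ℕ} (hn : n ≠ 0) (hζ : IsPrimitiveRoot ζ n)
    {z : k} (h : aeval z (minpoly ℤ ζ) = 0) : Sp ζ z := fun f f' e => by
  obtain ⟨g, hg⟩ := minpoly.isIntegrallyClosed_dvd (hζ.isIntegral (Nat.pos_of_ne_zero hn))
    (p := f - f') (by rw [map_sub, e, sub_self])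
  rw [← sub_eq_zero, ← map_sub, hg, map_mul, h, zero_mul]

theorem sp_pow {ζ : ℂ} {n s : ℕ} (hn : n ≠ 0) (hζ : IsPrimitiveRoot ζ n) (hs : s.Coprime n) :
    Sp ζ (ζ ^ s) :=
  sp_of hn hζ (by rw [hζ.minpoly_eq_pow_coprime hs]; exact minpoly.aeval ℤ _)

theorem sp_mod {ζ : ℂ} {n : ℕ} (hn : n ≠ 0) (hζ : IsPrimitiveRoot ζ n) (r : ℕ) [Fact r.Prime] :
    ∃ z : AlgebraicClosure (ZMod r), Sp ζ z := by
  have hi := hζ.isIntegral (Nat.pos_of_ne_zero hn)
  obtain ⟨z, hz⟩ := IsAlgClosed.exists_root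
    ((minpoly ℤ ζ).map (algebraMap ℤ (AlgebraicClosure (ZMod r))))
    (by rw [(minpoly.monic hi).degree_map]; exact (minpoly.degree_pos hi).ne')
  exact ⟨z, sp_of hn hζ (by rwa [IsRoot.def, eval_map_algebraMap] at hz)⟩

/-- the irreducible complex characters -/
def Irr (G : Type) [Group G] : Set (G → ℂ) :=
  {χ | ∃ V : FDRep ℂ G, CategoryTheory.Simple V ∧ V.character = χ}

variable {G : Type} [Group G]

theorem Irr.conj {χ : G → ℂ} (h : χ ∈ Irr G) {x y : G} (e : IsConj x y) : χ x = χ y := by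
  obtain ⟨V, -, rfl⟩ := h
  obtain ⟨c, rfl⟩ := isConj_iff.1 e
  rw [FDRep.char_conj]

theorem Irr.val {χ : G → ℂ} (h : χ ∈ Irr G) {n : ℕ} (hn : n ≠ 0) {g : G} (hg : g ^ n = 1) {ζ : ℂ}
    (hζ : IsPrimitiveRoot ζ n) : ∃ f : ℤ[X], ∀ j : ℕ, χ (g ^ j) = aeval (ζ ^ j) f := by
  obtain ⟨V, -, rfl⟩ := h
  obtain ⟨f, hf⟩ := spec (u := V.ρ g) hn (by rw [← map_pow, hg, map_one]) IsIdempotentElem.one
    (Commute.one_right _) hζ
  exact ⟨f, fun j => by rw [← hf, mul_one, ← map_pow]; rfl⟩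

theorem Irr.avg {χ : G → ℂ} (h : χ ∈ Irr G) {n : ℕ} (hn : n ≠ 0) {g : G} (hg : g ^ n = 1) {ζ : ℂ}
    (hζ : IsPrimitiveRoot ζ n) {S : Type} [Group S] [Fintype S] (ι : S →* G)
    (hι : ∀ s, Commute g (ι s)) :
    ∃ f : ℤ[X], ∑ s, χ (g * ι s) = Fintype.card S * aeval ζ f := by
  obtain ⟨V, -, rfl⟩ := h
  have hS : (Fintype.card S : ℂ) ≠ 0 := Nat.cast_ne_zero.2 Fintype.card_ne_zero
  have h1 : ∀ t, V.ρ (ι t) * ∑ s, V.ρ (ι s) = ∑ s, V.ρ (ι s) := fun t => by
    rw [mul_sum]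
    exact Fintype.sum_equiv (Equiv.mulLeft t) _ _ fun s => by simp
  obtain ⟨f, hf⟩ := spec (u := V.ρ g) (e := (Fintype.card S : ℂ)⁻¹ • ∑ s, V.ρ (ι s)) hn
    (by rw [← map_pow, hg, map_one])
    (by
      rw [IsIdempotentElem, smul_mul_smul_comm, sum_mul]
      simp only [h1, sum_const, card_univ, ← Nat.cast_smul_eq_nsmul ℂ, smul_smul]
      rw [mul_assoc, inv_mul_cancel₀ hS, mul_one])
    ((Commute.sum_right _ _ _ fun s _ => (hι s).map V.ρ).smul_right _) hζ
  refine ⟨f, ?_⟩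
  have := hf 1
  rw [pow_one, pow_one, mul_smul_comm, map_smul, mul_sum, map_sum, smul_eq_mul] at this
  rw [← this, mul_inv_cancel_left₀ hS]
  exact sum_congr rfl fun s _ => by rw [← map_mul]; rfl

theorem conj_inv' {x y : G} (h : IsConj x y) : IsConj x⁻¹ y⁻¹ := by
  obtain ⟨c, rfl⟩ := isConj_iff.1 h
  exact isConj_iff.2 ⟨c, by group⟩

variable [Fintype G]

open Classical in
theorem Irr.row {χ ψ : G → ℂ} (h : χ ∈ Irr G) (h' : ψ ∈ Irr G) :
    ∑ g, χ g * ψ g⁻¹ = if χ = ψ then (Nat.card G : ℂ) else 0 := by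
  obtain ⟨V, hV, rfl⟩ := h
  obtain ⟨W, hW, rfl⟩ := h'
  have hc : (Nat.card G : ℂ) ≠ 0 := Nat.cast_ne_zero.2 Nat.card_pos.ne'
  have := invertibleOfNonzero hc
  split_ifs with e
  · rw [← e]
    exact (FDRep.simple_iff_char_is_norm_one V).1 hV
  · have k := FDRep.char_orthonormal V W
    rw [if_neg fun ⟨i⟩ => e (FDRep.char_iso i)] at k
    exact (mul_eq_zero.1 k).resolve_left (inv_ne_zero hc)

theorem Irr.finite : (Irr G).Finite := by
  have hc : (Nat.card G : ℂ) ≠ 0 := Nat.cast_ne_zero.2 Nat.card_pos.ne'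
  have : LinearIndependent ℂ fun χ : Irr G => χ.1 := by
    refine LinearIndependent.of_pairwise_dual_eq_zero_one _
      (fun χ => (Nat.card G : ℂ)⁻¹ • ∑ g, χ.1 g⁻¹ • LinearMap.proj g) (fun χ ψ e => ?_) fun χ => ?_
    · have := Irr.row ψ.2 χ.2
      rw [if_neg fun k => e (Subtype.ext k.symm)] at this
      simpa [mul_comm] using this
    · have := Irr.row χ.2 χ.2
      rw [if_pos rfl] at this
      simp only [LinearMap.smul_apply, LinearMap.coe_sum, Finset.sum_apply, LinearMap.proj_apply,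
        smul_eq_mul, mul_comm (χ.1 _⁻¹), this, inv_mul_cancel₀ hc]
  exact this.finite

open Classical in
/-- column orthogonality -/
theorem col (g y : G) : ∑ χ ∈ Irr.finite.toFinset, χ g * χ y⁻¹ =
    if IsConj y g then (cz ⊤ y : ℂ) else 0 := by
  rw [← sub_eq_zero]
  refine congrFun (rp_complete (F := fun g => ∑ χ ∈ Irr.finite.toFinset, χ g * χ y⁻¹ -
    if IsConj y g then (cz ⊤ y : ℂ) else 0) fun e σ hσ => rp_zero_of_orth hσ (fun g h => ?_) ?_) g
  · have k : IsConj g (h * g * h⁻¹) := isConj_iff.2 ⟨h, rfl⟩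
    congr 1
    · exact sum_congr rfl fun χ hχ => by rw [Irr.conj (Irr.finite.mem_toFinset.1 hχ) k]
    · exact if_congr ⟨fun a => a.trans k.symm, fun a => a.trans k⟩ rfl rfl
  · have hψ : (fun g => (σ g).trace) ∈ Irr G := by
      have : (FDRep.of (rp_rep σ)).character = fun g => (σ g).trace := funext (rp_char σ)
      exact ⟨_, (FDRep.simple_iff_char_is_norm_one _).2 (by rw [this]; exact rp_self hσ), this⟩
    generalize hh : (fun g => (σ g).trace) = ψ at hψ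
    simp only [show ∀ g, (σ g).trace = ψ g from congrFun hh, sub_mul, sum_sub_distrib, sum_mul]
    rw [sum_comm, sub_eq_zero, sum_eq_single ψ]
    · simp only [mul_right_comm _ (ψ y⁻¹), ← sum_mul, Irr.row hψ hψ, if_true, ite_mul, zero_mul]
      rw [← sum_filter, sum_congr rfl fun g hg => by
        rw [← Irr.conj hψ (conj_inv' (mem_filter.1 hg).2)], sum_const, nsmul_eq_mul, ← mul_assoc,
        ← Nat.cast_mul, ← card_top, ← card_cj ⊤ y]
      congr 3
      rw [← Set.ncard_coe_finset]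
      congr 1
      ext
      simp [cj_top]
    · intro χ hχ e
      simp only [mul_right_comm _ (χ y⁻¹), ← sum_mul,
        Irr.row (Irr.finite.mem_toFinset.1 hχ) hψ, if_neg e, zero_mul]
    · simp [hψ]

end Pool.Agent.MP_abb977_al.H94
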