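import Pool.Agent.MP_abb977_al.H94.Cls

/-! The proportion of regular elements in a group with an abelian Sylow subgroup. -/

namespace Pool.Agent.MP_abb977_al.H94

open Subgroup Finset

variable {G : Type} [Group G] {p : ℕ}

/-- elements of order a power of `p` -/
def pe (p : ℕ) (x : G) : Prop := ∃ k : ℕ, x ^ p ^ k = 1

/-- number of elements of `Y` of order prime to `p` -/
noncomputable def rg (p : ℕ) (Y : Subgroup G) : ℕ := {y | y ∈ Y ∧ ¬p ∣ orderOf y}.ncard

/-- raising to the power `e` gives the `p`-part -/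
structure Pt (p : ℕ) (G : Type) [Group G] (e : ℕ) : Prop where
  fix : ∀ x : G, pe p x → x ^ e = x
  kill : ∀ y : G, ¬p ∣ orderOf y → y ^ e = 1
  pel : ∀ g : G, pe p (g ^ e)
  reg : ∀ g : G, ¬p ∣ orderOf (g * (g ^ e)⁻¹)

theorem pt_of (hp : p.Prime) {a m j : ℕ} (hm : ¬p ∣ m) (hG : ∀ g : G, g ^ (p ^ a * m) = 1)
    (hj : j ≠ 0) : Pt p G ((m ^ j) ^ (p ^ a).totient) := by
  have c : m.Coprime p := (hp.coprime_iff_not_dvd.2 hm).symm
  obtain ⟨d, hd⟩ : m ∣ (m ^ j) ^ (p ^ a).totient :=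
    dvd_pow (dvd_pow_self m hj) (Nat.totient_pos.2 (pow_pos hp.pos a)).ne'
  have fix : ∀ x : G, pe p x → x ^ (m ^ j) ^ (p ^ a).totient = x := fun x ⟨k, hk⟩ => by
    have h1 : orderOf x ∣ p ^ a := ((c.symm.pow_left k).coprime_dvd_left
      (orderOf_dvd_of_pow_eq_one hk)).dvd_of_dvd_mul_right (orderOf_dvd_of_pow_eq_one (hG x))
    conv_rhs => rw [← pow_one x]
    exact pow_eq_pow_iff_modEq.2 ((Nat.ModEq.pow_totient (c.pow j a)).of_dvd h1)
  refine ⟨fix, fun y hy => ?_, fun g => ⟨a, ?_⟩, fun g h => hm (h.trans ?_)⟩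
  · have h1 : orderOf y ∣ m := ((hp.coprime_iff_not_dvd.2 hy).symm.pow_right a).dvd_of_dvd_mul_left
      (orderOf_dvd_of_pow_eq_one (hG y))
    exact orderOf_dvd_iff_pow_eq_one.1 (h1.trans ⟨d, hd⟩)
  · rw [hd, ← pow_mul, mul_comm, ← mul_assoc, pow_mul, hG, one_pow]
  · refine orderOf_dvd_of_pow_eq_one ?_
    rw [((Commute.refl g).pow_right _).inv_right.mul_pow, inv_pow, ← pow_mul, mul_comm _ m, pow_mul,
      fix _ ⟨a, by rw [← pow_mul, mul_comm, hG]⟩, mul_inv_cancel]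

theorem exists_pt [Finite G] (hp : p.Prime) : ∃ e, Pt p G e := by
  obtain ⟨a, m, h1, h2⟩ :=
    Nat.exists_eq_pow_mul_and_not_dvd (Nat.card_pos (α := G)).ne' p hp.ne_one
  exact ⟨_, pt_of hp (a := a) h1 (fun g => by rw [← h2, pow_card_eq_one']) one_ne_zero⟩

theorem pe.cj {Y : Subgroup G} {x y : G} (h : pe p x) (c : cj Y x y) : pe p y := by
  obtain ⟨k, hk⟩ := h
  obtain ⟨t, -, e⟩ := c.pow (p ^ k)
  exact ⟨k, by rw [← e, hk]; simp⟩

theorem pe_of_mem {A : Subgroup G} (pA : IsPGroup p A) {x : G} (hx : x ∈ A) : pe p x :=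
  let ⟨k, hk⟩ := pA ⟨x, hx⟩
  ⟨k, congrArg Subtype.val hk⟩

theorem pe.pg {x : G} (h : pe p x) : IsPGroup p (zpowers x) := by
  obtain ⟨k, hk⟩ := h
  rintro ⟨_, j, rfl⟩
  refine ⟨k, Subtype.ext ?_⟩
  change (x ^ j) ^ p ^ k = 1
  rw [← zpow_natCast, ← zpow_mul, mul_comm, zpow_mul, zpow_natCast, hk, one_zpow]

theorem Pt.fib {e : ℕ} (h : Pt p G e) {X : Subgroup G} {x : G} (hx : x ∈ X) (px : pe p x) :
    {g | g ∈ X ∧ g ^ e = x}.ncard = rg p (X ⊓ centralizer {x}) := by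
  refine (Set.ncard_congr (fun y _ => y * x) ?_ (fun _ _ _ _ => mul_right_cancel) ?_).symm
  · rintro y ⟨⟨h1, h2⟩, h3⟩
    refine ⟨mul_mem h1 hx, ?_⟩
    rw [Commute.mul_pow (mem_centralizer_singleton_iff.1 h2), h.kill y h3, h.fix x px, one_mul]
  · rintro g ⟨h1, rfl⟩
    exact ⟨g * (g ^ e)⁻¹, ⟨Subgroup.mem_inf.2 ⟨mul_mem h1 (inv_mem hx), mem_cen.2 (by group)⟩,
      h.reg g⟩, by simp⟩

theorem fib_cj (e : ℕ) {X : Subgroup G} {x y : G} (c : cj X x y) :
    {g | g ∈ X ∧ g ^ e = x}.ncard = {g | g ∈ X ∧ g ^ e = y}.ncard := by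
  obtain ⟨t, ht, rfl⟩ := c
  refine Set.ncard_congr (fun g _ => t * g * t⁻¹) ?_ (fun _ _ _ _ h => by simpa using h) ?_
  · rintro g ⟨h1, rfl⟩
    exact ⟨mul_mem (mul_mem ht h1) (inv_mem ht), conj_pow⟩
  · rintro g ⟨h1, h2⟩
    refine ⟨t⁻¹ * g * t⁻¹⁻¹, ⟨mul_mem (mul_mem (inv_mem ht) h1) (by simpa), ?_⟩, by group⟩
    rw [conj_pow, h2]
    group

open Classical in
/-- indicator -/
noncomputable def ind (a : Prop) : ℚ := if a then 1 else 0

theorem ind_pos {a : Prop} (h : a) : ind a = 1 := if_pos h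

theorem ind_neg {a : Prop} (h : ¬a) : ind a = 0 := if_neg h

theorem ind_and (a b : Prop) : ind (a ∧ b) = ind a * ind b := by
  by_cases ha : a <;> by_cases hb : b <;> simp [ind, ha, hb]

theorem ind_congr {a : Prop} {x y : ℚ} (h : a → x = y) : ind a * x = ind a * y := by
  by_cases ha : a
  · rw [h ha]
  · simp [ind, ha]

theorem sum_ind {α : Type} [Fintype α] (s : α → Prop) : ∑ x, ind (s x) = {x | s x}.ncard := by
  classical
  simp only [ind, sum_boole]
  rw [← Set.ncard_coe_finset]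
  simp

variable [Fintype G]

theorem sum_mem (Y : Subgroup G) : ∑ g, ind (g ∈ Y) = Nat.card Y := sum_ind _

theorem sum_cz (Y : Subgroup G) (x : G) : ∑ t, ind (t ∈ Y) * ind (t * x = x * t) = cz Y x := by
  rw [cz, ← sum_mem]
  simp only [← ind_and, Subgroup.mem_inf, mem_centralizer_singleton_iff]

theorem sum_cj (Y : Subgroup G) (x : G) : ∑ g, ind (cj Y x g) * cz Y g = Nat.card Y := by
  rw [← card_cj Y x, Nat.cast_mul, ← sum_ind, sum_mul]
  exact sum_congr rfl fun g _ => ind_congr fun h => by rw [h.cz_eq]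

theorem Pt.sum {e : ℕ} (h : Pt p G e) (X : Subgroup G) (s : G → Prop) :
    ∑ x, ind (x ∈ X ∧ pe p x ∧ s x) * rg p (X ⊓ centralizer {x}) =
      {g | g ∈ X ∧ s (g ^ e)}.ncard := by
  classical
  rw [sum_congr rfl fun x _ => ind_congr fun hx => by rw [← h.fib hx.1 hx.2.1, ← sum_ind],
    ← sum_ind]
  simp only [mul_sum, ← ind_and]
  rw [sum_comm]
  refine sum_congr rfl fun g _ => ?_
  rw [sum_eq_single (g ^ e) (fun x _ hx => ind_neg fun k => hx k.2.2.symm) (by simp)]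
  exact congrArg ind (propext ⟨fun k => ⟨k.2.1, k.1.2.2⟩,
    fun k => ⟨⟨pow_mem k.1 e, h.pel g, k.2⟩, k.1, rfl⟩⟩)

/-- `A` is an abelian Sylow subgroup of `X` -/
structure AS (p : ℕ) (X A : Subgroup G) : Prop where
  le : A ≤ X
  pg : IsPGroup p A
  idx : ¬p ∣ A.relIndex X
  comm : ∀ x ∈ A, A ≤ centralizer {x}

variable [Fact p.Prime] {X A : Subgroup G}

theorem AS.into (h : AS p X A) {g : G} (hg : g ∈ X) (pg : pe p g) : ∃ x ∈ A, cj X g x :=
  let ⟨c, hc, k⟩ := syl_conj h.le (zpowers_le.2 hg) h.pg pg.pg h.idx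
  ⟨_, k g (mem_zpowers g), c, hc, rfl⟩

theorem AS.transfer (h : AS p X A) (W : G → ℚ) (hW : ∀ x ∈ A, ∀ y, cj X x y → W x = W y) :
    (∑ g, ind (g ∈ X ∧ pe p g) * (W g * cz X g)) * Nat.card (X ⊓ normalizer A : Subgroup G) =
      (∑ x, ind (x ∈ A) * (W x * cz (X ⊓ normalizer A) x)) * Nat.card X := by
  have e : ∀ g, g ∈ X ∧ pe p g → (Nat.card (X ⊓ normalizer A : Subgroup G) : ℚ) =
      ∑ x, ind (x ∈ A ∧ cj X x g) * cz (X ⊓ normalizer A) x := fun g hg => by
    obtain ⟨x, hx, c⟩ := h.into hg.1 hg.2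
    rw [← sum_cj _ x]
    refine sum_congr rfl fun y _ => congrArg (ind · * _) (propext ⟨fun k => ⟨?_, ?_⟩, fun k => ?_⟩)
    · obtain ⟨t, ht, rfl⟩ := k
      exact norm_mem ht.2 hx
    · exact (c.trans (k.mono inf_le_left)).symm
    · exact fusion h.le h.pg h.idx (h.comm x hx) (h.comm y k.1) (k.2.trans c).symm
  rw [sum_mul, sum_mul, sum_congr rfl fun g _ => by
    rw [mul_assoc, ind_congr fun hg => by rw [e g hg]]]
  simp only [mul_sum]
  rw [sum_comm]
  refine sum_congr rfl fun x _ => ?_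
  rw [← sum_cj X x, mul_sum]
  refine sum_congr rfl fun g _ => ?_
  by_cases k : x ∈ A ∧ cj X x g
  · obtain ⟨t, ht, e⟩ := id k.2
    rw [ind_pos k, ind_pos k.1, ind_pos k.2, hW x k.1 g k.2, ind_pos
      ⟨e ▸ mul_mem (mul_mem ht (h.le k.1)) (inv_mem ht), (pe_of_mem h.pg k.1).cj k.2⟩]
    ring
  · have := ind_neg k
    rw [this, mul_mul_mul_comm (ind (x ∈ A)), ← ind_and, this]
    ring

omit [Fact p.Prime] in
theorem swap (A N : Subgroup G) (w : G → ℚ) :
    ∑ x, ind (x ∈ A) * ∑ n, ind (n ∈ N ⊓ centralizer {x}) * w n =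
      ∑ n, ind (n ∈ N) * (cz A n * w n) := by
  simp only [← sum_cz, mul_sum, sum_mul, Subgroup.mem_inf, mem_centralizer_singleton_iff, ind_and]
  rw [sum_comm]
  refine sum_congr rfl fun n _ => sum_congr rfl fun x _ => ?_
  rw [eq_comm (a := x * n)]
  ring

/-- the proportion of regular elements -/
theorem AS.rho (h : AS p X A) : (rg p X : ℚ) * Nat.card (X ⊓ normalizer A : Subgroup G) =
    Nat.card X * ∑ n, ind (n ∈ X ⊓ normalizer A) * (cz A n : ℚ)⁻¹ := by
  induction hn : Nat.card X using Nat.strong_induction_on generalizing X with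
  | _ n ih =>
  subst hn
  obtain ⟨e, he⟩ := exists_pt (G := G) (p := p) Fact.out
  have hX : (Nat.card X : ℚ) ≠ 0 := Nat.cast_ne_zero.2 Nat.card_pos.ne'
  have hc : ∀ (Y : Subgroup G) x, (cz Y x : ℚ) ≠ 0 := fun Y x => Nat.cast_ne_zero.2 (cz_pos Y x).ne'
  have h1 := h.transfer (fun g => rg p (X ⊓ centralizer {g}) / cz X g) fun x hx y c => by
    obtain ⟨t, ht, k⟩ := id c
    rw [← he.fib (h.le hx) (pe_of_mem h.pg hx), c.cz_eq, fib_cj e c,
      he.fib (k ▸ mul_mem (mul_mem ht (h.le hx)) (inv_mem ht)) ((pe_of_mem h.pg hx).cj c)]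
  have h2 := he.sum X fun _ => True
  simp only [and_true] at h2
  simp only [div_mul_cancel₀ _ (hc X _), h2] at h1
  rw [mul_comm] at h1
  replace h1 := mul_right_cancel₀ hX h1
  have h3 := swap A (X ⊓ normalizer A) fun n => (cz A n : ℚ)⁻¹
  simp only [mul_inv_cancel₀ (hc A _), mul_one, sum_mem] at h3
  rw [h1, ← sub_eq_zero, ← sum_sub_distrib] at h3
  have h4 : ∀ x, ind (x ∈ A) * ∑ n, ind (n ∈ X ⊓ normalizer A ⊓ centralizer {x}) * (cz A n : ℚ)⁻¹ -
      ind (x ∈ A) * (rg p (X ⊓ centralizer {x}) / cz X x * cz (X ⊓ normalizer A) x) =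
      ind (x ∈ A ∧ X ≤ centralizer {x}) * (∑ n, ind (n ∈ X ⊓ normalizer A) * (cz A n : ℚ)⁻¹ -
        rg p X / Nat.card X * Nat.card (X ⊓ normalizer A : Subgroup G)) := fun x => by
    rw [← mul_sub, ind_and, mul_assoc]
    refine ind_congr fun hx => ?_
    by_cases k : X ≤ centralizer {x}
    · rw [ind_pos k, one_mul, cz, cz, inf_eq_left.2 k, inf_eq_left.2 (inf_le_left.trans k)]
    · have k1 : A ≤ X ⊓ centralizer {x} := le_inf h.le (h.comm x hx)
      have := ih _ (Set.ncard_lt_ncard (SetLike.coe_ssubset_coe.2 (inf_lt_left.2 k)))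
        ⟨k1, h.pg, not_dvd_mono k1 inf_le_left h.idx, h.comm⟩ rfl
      rw [inf_right_comm] at this
      rw [ind_neg k, zero_mul, sub_eq_zero, div_mul_eq_mul_div, eq_div_iff (hc X x), mul_comm]
      exact this.symm
  simp only [h4, ← sum_mul, sum_ind] at h3
  have h5 := (mul_eq_zero.1 h3).resolve_left (Nat.cast_ne_zero.2
    (Set.ncard_ne_zero_of_mem (a := 1) ⟨one_mem A, fun t _ => mem_cen.2 (by simp)⟩))
  rw [sub_eq_zero.1 h5]
  field_simp

/-- index of the centraliser in the normaliser -/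
noncomputable def cI (X A : Subgroup G) : ℕ := (centralizer A).relIndex (X ⊓ normalizer A)

omit [Fact p.Prime] in
theorem sum_full (X A : Subgroup G) :
    (∑ n, ind (n ∈ X ⊓ normalizer A) * ind (cz A n = Nat.card A)) * cI X A =
      Nat.card (X ⊓ normalizer A : Subgroup G) := by
  have e : ∀ n, cz A n = Nat.card A ↔ n ∈ centralizer (A : Set G) := fun n => by
    refine ⟨fun k a ha => ?_, fun k => ?_⟩
    · rw [← eq_of_le_of_card_ge inf_le_left k.ge] at ha
      exact mem_centralizer_singleton_iff.1 ha.2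
    · rw [cz, inf_eq_left.2 fun a ha => mem_centralizer_singleton_iff.2 (k a ha)]
  simp only [e, ← ind_and, ← Subgroup.mem_inf, sum_mem]
  rw [← Nat.cast_mul, cI, ← inf_relIndex_left, relIndex,
    ← Nat.card_congr (subgroupOfEquivOfLe inf_le_left).toEquiv, card_mul_index]

theorem AS.two (h : AS p X A) {a : ℕ}
    (ha : ∀ n ∈ X ⊓ normalizer A, cz A n = a ∨ cz A n = Nat.card A) :
    (cI X A : ℚ) * (1 - a * (rg p X / Nat.card X)) * Nat.card A = Nat.card A - a := by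
  have hX : (Nat.card X : ℚ) ≠ 0 := Nat.cast_ne_zero.2 Nat.card_pos.ne'
  have hN : (Nat.card (X ⊓ normalizer A : Subgroup G) : ℚ) ≠ 0 :=
    Nat.cast_ne_zero.2 Nat.card_pos.ne'
  have hA : (Nat.card A : ℚ) ≠ 0 := Nat.cast_ne_zero.2 Nat.card_pos.ne'
  have e : (∑ n, ind (n ∈ X ⊓ normalizer A) * ind (cz A n = Nat.card A)) * (Nat.card A - a) =
      (Nat.card (X ⊓ normalizer A : Subgroup G) -
        a * ∑ n, ind (n ∈ X ⊓ normalizer A) * (cz A n : ℚ)⁻¹) * Nat.card A := by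
    rw [← sum_mem (X ⊓ normalizer A), mul_sum, ← sum_sub_distrib, sum_mul, sum_mul]
    refine sum_congr rfl fun n _ => ?_
    rw [mul_left_comm, ← mul_one_sub, mul_assoc, mul_assoc]
    refine ind_congr fun hn => ?_
    have : (cz A n : ℚ) ≠ 0 := Nat.cast_ne_zero.2 (cz_pos A n).ne'
    by_cases k : cz A n = Nat.card A
    · rw [ind_pos k, k]
      field_simp
    · rw [ind_neg k, ← (ha n hn).resolve_right k]
      field_simp
      ring
  have h1 := h.rho
  have h2 := sum_full X A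
  field_simp
  apply mul_left_cancel₀ hN
  linear_combination (-(cI X A : ℚ) * Nat.card X) * e - (cI X A * a * Nat.card A) * h1 +
    (Nat.card X * (Nat.card A - a)) * h2

theorem AS.three (h : AS p X A) {a : ℕ}
    (ha : ∀ n ∈ X ⊓ normalizer A, cz A n = 1 ∨ cz A n = a ∨ cz A n = Nat.card A) :
    (cI X A : ℚ) * ((∑ g, ind (g ∈ X ∧ pe p g) * cz X g) / Nat.card X - (1 + a) +
      a * (rg p X / Nat.card X)) * Nat.card A = (Nat.card A - 1) * (Nat.card A - a) := by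
  have hX : (Nat.card X : ℚ) ≠ 0 := Nat.cast_ne_zero.2 Nat.card_pos.ne'
  have hN : (Nat.card (X ⊓ normalizer A : Subgroup G) : ℚ) ≠ 0 :=
    Nat.cast_ne_zero.2 Nat.card_pos.ne'
  have hA : (Nat.card A : ℚ) ≠ 0 := Nat.cast_ne_zero.2 Nat.card_pos.ne'
  have e : (∑ n, ind (n ∈ X ⊓ normalizer A) * ind (cz A n = Nat.card A)) *
      ((Nat.card A - 1) * (Nat.card A - a)) =
      (∑ n, ind (n ∈ X ⊓ normalizer A) * cz A n - (1 + a) *
        Nat.card (X ⊓ normalizer A : Subgroup G) +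
        a * ∑ n, ind (n ∈ X ⊓ normalizer A) * (cz A n : ℚ)⁻¹) * Nat.card A := by
    rw [← sum_mem (X ⊓ normalizer A), mul_sum, mul_sum, ← sum_sub_distrib, ← sum_add_distrib,
      sum_mul, sum_mul]
    refine sum_congr rfl fun n _ => ?_
    rw [mul_left_comm (a : ℚ), mul_comm (1 + a : ℚ), ← mul_sub, ← mul_add, mul_assoc, mul_assoc]
    refine ind_congr fun hn => ?_
    have : (cz A n : ℚ) ≠ 0 := Nat.cast_ne_zero.2 (cz_pos A n).ne'
    by_cases k : cz A n = Nat.card A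
    · rw [ind_pos k, k]
      field_simp
      ring
    · rcases ha n hn with k1 | k1 | k1
      · rw [ind_neg k, k1]
        simp
      · rw [ind_neg k, ← k1]
        field_simp
        ring
      · exact absurd k1 k
  have h1 := h.rho
  have h2 := sum_full X A
  have h3 := h.transfer (fun _ => 1) fun _ _ _ _ => rfl
  have h4 := swap A (X ⊓ normalizer A) fun _ => 1
  simp only [mul_one, one_mul, sum_mem] at h3 h4
  rw [show ∑ x, ind (x ∈ A) * (cz (X ⊓ normalizer A) x : ℚ) = _ from h4] at h3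
  field_simp
  apply mul_left_cancel₀ hN
  linear_combination (-(cI X A : ℚ) * Nat.card X) * e + (cI X A * a * Nat.card A) * h1 +
    (Nat.card X * ((Nat.card A - 1) * (Nat.card A - a))) * h2 + (cI X A * Nat.card A) * h3

end Pool.Agent.MP_abb977_al.H94
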