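import Pool.Agent.MP_abb977_al.H94.Dd

/-! The centraliser of the central element of prime order. -/

namespace Pool.Agent.MP_abb977_al.H94

open Subgroup

variable {G : Type} [Group G] {p : ℕ} {z u : G} {P : Subgroup G}

theorem lf_inf (S T : Subgroup (Bar z)) : lf (S ⊓ T) = lf S ⊓ lf T := by
  rw [lf, comap_inf, map_inf _ _ _ (subtype_injective _)]
  rfl

theorem lf_rel (S T : Subgroup (Bar z)) : (lf S).relIndex (lf T) = S.relIndex T := by
  rw [lf, lf, relIndex_map_map_of_injective _ _ (subtype_injective _), relIndex_comap,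
    map_comap_eq_self_of_surjective (QuotientGroup.mk'_surjective _)]

theorem lf_top : lf (⊤ : Subgroup (Bar z)) = centralizer {z} := by
  rw [lf, comap_top, ← MonoidHom.range_eq_map, range_subtype]

theorem fix_zp {n x w : G} (h : n ∈ centralizer {x}) (hw : w ∈ zpowers x) : n * w * n⁻¹ = w :=
  mem_cen.1 (cen_zp (P := centralizer {x}) le_rfl hw h)

instance cI_normal (X A : Subgroup G) :
    ((centralizer (A : Set G)).subgroupOf (X ⊓ normalizer (A : Set G))).Normal :=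
  ⟨fun c hc g => mem_subgroupOf.2 fun a ha => by
    have := mem_subgroupOf.1 hc _ (norm_mem (inv_mem g.2.2) ha)
    calc _ = g.1 * (g.1⁻¹ * a * g.1⁻¹⁻¹ * c) * g.1⁻¹ := by simp [mul_assoc]
      _ = _ := by rw [this]; simp [mul_assoc]⟩

theorem pow_cI [Fintype G] {X A : Subgroup G} {n : G} (hn : n ∈ X ⊓ normalizer (A : Set G)) :
    n ^ cI X A ∈ centralizer (A : Set G) :=
  ((centralizer (A : Set G)).subgroupOf _).pow_index_mem ⟨n, hn⟩

theorem AS.cI_dvd [Fintype G] {X A : Subgroup G} (h : AS p X A) :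
    cI X A ∣ A.relIndex (X ⊓ normalizer (A : Set G)) :=
  relIndex_dvd_of_le_left _ fun a ha _ hb => mem_centralizer_singleton_iff.1 (h.comm a ha hb)

theorem rel_dvd {A Y : Subgroup G} (h1 : A ≤ Y) (h2 : Y ≤ normalizer (A : Set G)) :
    A.relIndex Y ∣ nI A := ⟨_, (relIndex_mul_relIndex A Y _ h1 h2).symm⟩

theorem DD.ule (h : DD p P u z) : zpowers u ≤ P := zpowers_le.2 h.mem

theorem DD.zle (h : DD p P u z) : zpowers z ≤ zpowers u := zpowers_le.2 h.zu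

theorem DD.cu (h : DD p P u z) {w : G} (hw : w ∈ zpowers u) : P ≤ centralizer {w} :=
  (h.cen w (h.ule hw)).2 hw

theorem DD.le (h : DD p P u z) : P ≤ centralizer {z} := h.cu h.zu

variable [hp : Fact p.Prime] [Fintype G]

theorem DD.mid (h : DD p P u z) {A B : Subgroup G} (h1 : zpowers u ≤ A) (h2 : A ≤ B) (h3 : B ≤ P)
    (h4 : ¬A ≤ zpowers u) (h5 : ¬P ≤ B) : B ≤ A := by
  have e := h.card
  rw [← card_rel h3, ← card_rel h2, ← card_rel h1, Nat.card_zpowers, ← mul_assoc, ← mul_assoc,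
    mul_comm, Nat.mul_right_inj (orderOf_pos u).ne'] at e
  have k : ∀ i, i ∣ p ^ 2 → i ≠ 1 → p ∣ i := fun i hi i1 => by
    obtain ⟨j, -, rfl⟩ := (Nat.dvd_prime_pow hp.out).1 hi
    exact dvd_pow_self p fun e => i1 (by simp [e])
  obtain ⟨i, hi⟩ := k _ (Dvd.intro_left _ e) (mt relIndex_eq_one.1 h4)
  obtain ⟨j, hj⟩ := k _ (Dvd.intro _ ((mul_assoc _ _ _).symm.trans e)) (mt relIndex_eq_one.1 h5)
  rw [hi, hj] at e
  refine relIndex_eq_one.1 (Nat.eq_one_of_mul_eq_one_right (n := i * j)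
    (Nat.eq_of_mul_eq_mul_left (pow_pos hp.out.pos 2) ?_))
  rw [mul_one]
  exact Eq.trans (by ring) e

omit hp [Fintype G] in
theorem DD.cju (h : DD p P u z) {n w : G} (hn : n ∈ normalizer (P : Set G)) (hw : w ∈ zpowers u) :
    n * w * n⁻¹ ∈ zpowers u :=
  (h.cen _ (norm_mem hn (h.ule hw))).1 (cen_conj hn (h.cu hw))

theorem DD.fixu (h : DD p P u z) (hP : Sy p P) {n : G} (hn : n ∈ normalizer (P : Set G))
    (hz : n ∈ centralizer {z}) : n ∈ centralizer {u} := by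
  obtain ⟨m, hm⟩ := nat_pow (h.cju hn (mem_zpowers u))
  obtain ⟨j, hj⟩ := pe_of_mem hP.pg h.mem
  obtain ⟨i, hi⟩ := nat_pow h.zu
  exact mem_cen.2 (fixc (α := (MulAut.conj n).toMonoidHom) hP.nI ((conj_it n _ u).trans
    (mem_cen.1 (h.cu (mem_zpowers u) (pow_nI hn)))) hj hm h.z1 h.zp (by
      conv_rhs => rw [← mem_cen.1 hz, hi, ← conj_pow, hm, pow_right_comm, ← hi]))

theorem DD.ufx (h : DD p P u z) (hP : Sy p P) {n : centralizer {z}}
    (hn : n.1 ∈ normalizer (P : Set G)) : zpowers u ≤ lf (centralizer {ph z n}) := fun w hw =>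
  (lf_cen (w := ⟨w, h.le (h.ule hw)⟩)).2 (by simp [fix_zp (h.fixu hP hn n.2) hw])

theorem DD.all (h : DD p P u z) (hP : Sy p P) {n x : G} (hn : n ∈ normalizer (P : Set G))
    (hz : n ∈ centralizer {z}) (hx : x ∈ P) (xu : x ∉ zpowers u)
    (e : n * x * n⁻¹ * x⁻¹ ∈ zpowers z) {y : G} (hy : y ∈ P) : n * y * n⁻¹ * y⁻¹ ∈ zpowers z := by
  have k1 : zpowers u ≤ P ⊓ centralizer {x} := le_inf h.ule fun w hw =>
    mem_centralizer_singleton_iff.2 (mem_centralizer_singleton_iff.1 (h.cu hw hx)).symm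
  have k2 := h.mid (A := P ⊓ centralizer {x} ⊓ lf (centralizer {ph z ⟨n, hz⟩}))
    (le_inf k1 (h.ufx hP hn)) inf_le_left inf_le_left
    (fun k => xu (k ⟨⟨hx, mem_cen.2 (by group)⟩, (lf_cen (w := ⟨x, h.le hx⟩)).2 e⟩))
    fun k => xu ((h.cen x hx).1 (k.trans inf_le_right))
  have hy' := norm_mem hn hy
  have hd := mul_mem (inv_mem hy) hy'
  have k3 : y⁻¹ * (n * y * n⁻¹) ∈ centralizer {x} := by
    have e1 := fix_zp hz (h.com y hy x hx)
    have e2 := mem_cen.1 (h.cu (h.zle e) hy')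
    have e3 := mem_cen.1 (h.cu (h.zle e) (h.ule (h.zle (h.com y hy x hx))))
    generalize hy1 : n * y * n⁻¹ = y' at e2
    generalize he : n * x * n⁻¹ * x⁻¹ = c at e2 e3
    have e4 : y' * (c * x) * y'⁻¹ * (c * x)⁻¹ = y * x * y⁻¹ * x⁻¹ := by
      rw [← e1, ← he, ← hy1]
      group
    rw [mem_cen]
    calc _ = y⁻¹ * (y' * c * y'⁻¹)⁻¹ * (y' * (c * x) * y'⁻¹ * (c * x)⁻¹) * c * x * y := by group
      _ = y⁻¹ * c⁻¹ * (y * x * y⁻¹ * x⁻¹ * c * (y * x * y⁻¹ * x⁻¹)⁻¹) * y * x := by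
        rw [e4, e2]
        group
      _ = _ := by
        rw [e3]
        group
  have k4 := (lf_cen (w := ⟨_, h.le hd⟩)).1 (k2 ⟨hd, k3⟩).2
  obtain ⟨j, hj⟩ := pe_of_mem hP.pg hd
  have := ctriv (n := ph z ⟨n, hz⟩) (v := ph z ⟨y, h.le hy⟩) (d := ph z ⟨_, h.le hd⟩) hP.nI
    ⟨j, by rw [← map_pow, ← map_one (ph z)]; exact congrArg _ (Subtype.ext hj)⟩
    (by rw [← map_pow, ← map_inv, ← map_mul, ← map_mul, ph_eq]; exact h.com _ (pow_nI hn) y hy)
    (by rw [← map_inv, ← map_mul, ← map_mul, ← map_mul]; exact congrArg _ (Subtype.ext (by simp)))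
    (by rw [← map_inv, ← map_mul, ← map_mul, ph_eq]; exact k4)
  have k5 : y⁻¹ * (n * y * n⁻¹) ∈ zpowers z :=
    mem_subgroupOf.1 ((QuotientGroup.eq_one_iff (⟨_, h.le hd⟩ : centralizer {z})).1 this)
  rw [← fix_zp (h.le hy) k5] at k5
  simpa [mul_assoc] using k5

omit hp in
theorem DD.as (h : DD p P u z) (hP : Sy p P) : ∃ A : Subgroup (Bar z), lf A = P ∧ AS p ⊤ A := by
  obtain ⟨A, hA⟩ := exists_lf (h.ule h.zu) h.le
  have : Fintype (Bar z) := Fintype.ofFinite _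
  refine ⟨A, hA, le_top, fun ⟨a, ha⟩ => ?_, ?_, fun a ha b hb => ?_⟩
  · obtain ⟨a, rfl⟩ := QuotientGroup.mk'_surjective _ a
    obtain ⟨j, hj⟩ := pe_of_mem hP.pg (hA ▸ mem_lf.2 ha)
    exact ⟨j, Subtype.ext (congrArg (ph z) (Subtype.ext hj : a ^ p ^ j = 1))⟩
  · rw [← lf_rel, hA, lf_top]
    exact hP.rel h.le
  · obtain ⟨a, rfl⟩ := QuotientGroup.mk'_surjective _ a
    obtain ⟨b, rfl⟩ := QuotientGroup.mk'_surjective _ b
    exact mem_lf.1 (lf_cen.2 (h.com _ (hA ▸ mem_lf.2 ha) _ (hA ▸ mem_lf.2 hb)))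

theorem DD.fus (h : DD p P u z) (hP : Sy p P) {x w : G} (hx : x ∈ P) (hw : w ∈ zpowers u)
    (c : cj (centralizer {z}) w x) : x ∈ zpowers u := by
  obtain ⟨A, hA, as⟩ := h.as hP
  obtain ⟨t, ht, e⟩ := c
  have hw' := h.ule hw
  obtain ⟨s, hs, e⟩ := fusion le_top as.pg as.idx
    (as.comm (ph z ⟨w, h.le hw'⟩) (mem_lf.1 (hA ▸ hw'))) (as.comm (ph z ⟨x, h.le hx⟩)
      (mem_lf.1 (hA ▸ hx))) ⟨ph z ⟨t, ht⟩, mem_top _, congrArg (ph z) (Subtype.ext e :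
        (⟨t, ht⟩ * ⟨w, _⟩ * ⟨t, ht⟩⁻¹ : centralizer {z}) = ⟨x, _⟩)⟩
  obtain ⟨s, rfl⟩ := QuotientGroup.mk'_surjective _ s
  exact inv_mem_iff.1 ((mul_mem_cancel_left (h.cju (hA ▸ lf_norm.1 hs.2) hw)).1
    (h.zle (ph_eq.1 (e : ph z (s * _ * s⁻¹) = _))))

theorem DD.num (h : DD p P u z) (hP : Sy p P) : ∃ n : ℕ, (n : ℚ) * (1 - orderOf u *
    (rg p (centralizer {z}) / Nat.card (centralizer {z}))) * p ^ 2 = p ^ 2 - 1 ∧ n ∣ nI P ∧
    ∀ y ∈ normalizer (P : Set G), y ∈ centralizer {z} → ∀ x ∈ P,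
      y ^ n * x * (y ^ n)⁻¹ * x⁻¹ ∈ zpowers z := by
  obtain ⟨A, hA, as⟩ := h.as hP
  obtain ⟨T, hT⟩ := exists_lf h.zu (h.ule.trans h.le)
  have : Fintype (Bar z) := Fintype.ofFinite _
  have c : ∀ S : Subgroup (Bar z), Nat.card (lf S) = Nat.card S * p := fun S => by
    rw [card_lf, orderOf_eq_prime h.zp h.z1]
  have c' : ∀ S S' : Subgroup (Bar z), lf S = lf S' → Nat.card S = Nat.card S' := fun S S' e =>
    Nat.eq_of_mul_eq_mul_right hp.out.pos (by rw [← c, ← c, e])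
  refine ⟨cI ⊤ A, ?_, as.cI_dvd.trans ?_, fun y hy hz x hx => ?_⟩
  · have e := as.two (a := Nat.card T) fun n hn => by
      obtain ⟨n, rfl⟩ := QuotientGroup.mk'_surjective _ n
      have hn' : n.1 ∈ normalizer (P : Set G) := hA ▸ lf_norm.1 hn.2
      by_cases k : P ⊓ lf (centralizer {ph z n}) ≤ zpowers u
      · exact Or.inl (c' _ _ (by
          rw [lf_inf, hA, hT]
          exact le_antisymm k (le_inf h.ule (h.ufx hP hn'))))
      · obtain ⟨x, hx, xu⟩ := SetLike.not_le_iff_exists.1 k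
        exact Or.inr (c' _ _ (by
          rw [lf_inf, hA]
          exact inf_eq_left.2 fun y hy => (lf_cen (w := ⟨y, h.le hy⟩)).2
            (h.all hP hn' n.2 hx.1 xu ((lf_cen (w := ⟨x, h.le hx.1⟩)).1 hx.2) hy)))
    have c1 := c T
    have c2 := c A
    rw [hT, Nat.card_zpowers] at c1
    rw [hA, h.card, c1, mul_right_comm, Nat.mul_left_inj hp.out.ne_zero] at c2
    rw [rg_bar h.zp, ← c2] at e
    have c3 := c ⊤
    rw [lf_top] at c3
    rw [c1, c3]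
    have : (Nat.card T : ℚ) ≠ 0 := Nat.cast_ne_zero.2 Nat.card_pos.ne'
    have : (p : ℚ) ≠ 0 := Nat.cast_ne_zero.2 hp.out.ne_zero
    apply mul_left_cancel₀ ‹(Nat.card T : ℚ) ≠ 0›
    push_cast at e ⊢
    rw [mul_assoc (Nat.card T : ℚ) p, ← mul_div_assoc, mul_comm (p : ℚ), mul_div_mul_right _ _ this]
    linear_combination e
  · rw [← lf_rel, hA]
    refine rel_dvd (hA ▸ map_mono (comap_mono (le_inf le_top le_normalizer))) ?_
    rintro _ ⟨n, hn, rfl⟩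
    exact hA ▸ lf_norm.1 hn.2
  · have := pow_cI (X := ⊤) (n := ph z ⟨y, hz⟩) ⟨mem_top _, lf_norm.2 (hA ▸ hy)⟩
      (ph z ⟨x, h.le hx⟩) (mem_lf.1 (hA ▸ hx))
    exact (lf_cen (n := ⟨y, hz⟩ ^ cI ⊤ A) (w := ⟨x, h.le hx⟩)).1
      (mem_lf.2 (mem_centralizer_singleton_iff.2 this))

end Pool.Agent.MP_abb977_al.H94
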