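import Pool.Agent.MP_abb977_al.H94.Mix

/-! Sylow subgroups of order at most the cube of the prime. -/

namespace Pool.Agent.MP_abb977_al.H94

open Subgroup

variable {G H : Type} [Group G] [Group H] {F : G ≃ H} {p q : ℕ} {P : Subgroup G} {Q : Subgroup H}
  [hp : Fact p.Prime]

theorem G2.small [Finite G] (pG : IsPGroup p G) {u : G} (hu : ∀ x, Commute u x)
    (hi : (zpowers u).index ≤ p) : ∃ a b : G, (zpowers a).Normal ∧ G2 a b := by
  have : (zpowers u).Normal := normal_zp fun g => by simp [← (hu g).eq]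
  obtain ⟨k, hk⟩ := (pG.to_quotient (zpowers u)).exists_card_eq
  have : IsCyclic (G ⧸ zpowers u) := isCyclic_of_card_dvd_prime (p := p) (hk ▸ (pow_dvd_pow p
    ((pow_le_pow_iff_right₀ hp.out.one_lt).1 (hk.ge.trans (hi.trans (pow_one p).ge)))).trans
      (pow_one p).dvd)
  exact G2.of (zpowers u)

theorem idx_le [Finite G] (pG : IsPGroup p G) {i j : ℕ} (hc : Nat.card G ≤ p ^ (i + 1 + j)) {u : G}
    (hu : u ^ p ^ i ≠ 1) : (zpowers u).index ≤ p ^ j := by
  obtain ⟨k, hk⟩ := pG u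
  obtain ⟨l, -, e⟩ := (Nat.dvd_prime_pow hp.out).1 (orderOf_dvd_of_pow_eq_one hk)
  rw [← card_mul_index (zpowers u), Nat.card_zpowers, e, pow_add] at hc
  exact Nat.le_of_mul_le_mul_left ((Nat.mul_le_mul_right _ (Nat.pow_le_pow_right hp.out.pos
    (not_lt.1 fun c => hu (orderOf_dvd_iff_pow_eq_one.1
      (e ▸ pow_dvd_pow p (Nat.le_of_lt_succ c)))))).trans hc) (pow_pos hp.out.pos _)

variable [Fintype G] [Fintype H]

theorem Mt.cube (h : Mt F) (hP : Sy p P) (hQ : Sy p Q) (hq : q.Prime) (hc : Nat.card P ≤ p ^ 3)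
    (ne : Nat.card P = p ^ 3 → (∀ a b : P, a * b = b * a) → ∃ x : P, x ^ p ≠ 1) :
    q ∣ nI P ↔ q ∣ nI Q := by
  by_cases c : ∀ a b : P, a * b = b * a
  · obtain ⟨u, hu⟩ : ∃ u : P, (zpowers u).index ≤ p := by
      by_cases e : Nat.card P = p ^ 3
      · obtain ⟨x, hx⟩ := ne e c
        exact ⟨x, (idx_le hP.pg (i := 1) (j := 1) hc (by simpa)).trans (pow_one p).le⟩
      obtain ⟨k, hk⟩ := hP.pg.exists_card_eq
      by_cases k : ∃ x : P, x ≠ 1
      · obtain ⟨x, hx⟩ := k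
        rw [hk] at hc e
        exact ⟨x, (idx_le hP.pg (i := 0) (j := 1) (hk ▸ Nat.pow_le_pow_right hp.out.pos
          (Nat.le_of_lt_succ ((pow_lt_pow_iff_right₀ hp.out.one_lt).1 (lt_of_le_of_ne hc e))))
            (by simpa)).trans (pow_one p).le⟩
      · push Not at k
        exact ⟨1, (index_eq_one.2 ((eq_top_iff' _).2 fun x => by simp [k x])).le.trans hp.out.pos⟩
    obtain ⟨u', h1, -, h3, h4⟩ := h.cp hP hQ u.2 (cen_iff.2 (c u))
    obtain ⟨a, b, n, g⟩ := G2.small hP.pg (c u) hu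
    obtain ⟨a', b', n', g'⟩ := G2.small hQ.pg (u := ⟨u', h1⟩) (cen_iff.1 h3)
      ((Nat.eq_of_mul_eq_mul_left (orderOf_pos u) (by
        conv_rhs => rw [← Nat.card_zpowers, card_mul_index, ← Sy.card F hP hQ]
        rw [← orderOf_coe, ← h4, ← orderOf_mk u' h1, ← Nat.card_zpowers,
          card_mul_index])).le.trans hu)
    exact ⟨h.mc hP hQ hq n g g', h.symm.mc hQ hP hq n' g' g⟩
  push Not at c
  obtain ⟨a, b, nab⟩ := c
  have : Nontrivial P := ⟨_, _, nab⟩
  have := hP.pg.center_nontrivial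
  obtain ⟨⟨u, hu⟩, u1⟩ := exists_ne (1 : center P)
  obtain ⟨z, d⟩ := DD.of hP.pg (fun x => (mem_center_iff.1 hu x).symm)
    (idx_le hP.pg (i := 0) hc (by simpa using u1)) nab
  exact h.cyc hP hQ hq d

end Pool.Agent.MP_abb977_al.H94
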