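import Pool.Agent.MP_abb977_al.H94.Tr

/-! Passage to the statements in standard terms. -/

namespace Pool.Agent.MP_abb977_al.H94

open Subgroup

variable {G H : Type} [Group G] [Group H] {p : ℕ}

theorem sy_of [Finite G] [Fact p.Prime] (P : Sylow p G) : Sy p (P : Subgroup G) :=
  ⟨P.isPGroup', P.not_dvd_index⟩

theorem pf_eq [Finite G] [Finite H] {P : Subgroup G} {Q : Subgroup H}
    (h : ∀ q : ℕ, q.Prime → (q ∣ nI P ↔ q ∣ nI Q)) :
    (Nat.card (normalizer (P : Set G) ⧸ P.subgroupOf (normalizer (P : Set G)))).primeFactors =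
      (Nat.card (normalizer (Q : Set H) ⧸ Q.subgroupOf (normalizer (Q : Set H)))).primeFactors :=
  Finset.ext fun q => by
    rw [Nat.mem_primeFactors_of_ne_zero Nat.card_pos.ne',
      Nat.mem_primeFactors_of_ne_zero Nat.card_pos.ne']
    exact and_congr_right (h q)

end Pool.Agent.MP_abb977_al.H94
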