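import Pool.Agent.MP_abb977_al.H94.Tr

/-! Consequences of the fusion of all elements into the centre. -/

namespace Pool.Agent.MP_abb977_al.H94

open Subgroup

variable {G : Type} [Group G] {p : ℕ} {z u : G} {P : Subgroup G}

theorem conj_zp {t w : G} (h : t * z * t⁻¹ = z⁻¹) (hw : w ∈ zpowers z) :
    t * w * t⁻¹ ∈ zpowers z := by
  obtain ⟨i, rfl⟩ := hw
  rw [← conj_zpow, h]
  exact zpow_mem (inv_mem (mem_zpowers z)) i

variable [hp : Fact p.Prime] [Fintype G]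

theorem DD.inz (h : DD p P u z) (hP : Sy p P) {x w : G} (hx : x ∈ P) (hw : w ∈ zpowers u)
    (c : IsConj w x) (hz : z ∈ zpowers x) : x ∈ zpowers u := by
  obtain ⟨g, rfl⟩ := isConj_iff.1 c
  obtain ⟨i, hi⟩ := hz
  simp only [conj_zpow] at hi
  obtain ⟨n, hn, e⟩ := hP.fusion (h.cu (zpow_mem hw i)) h.le (isConj_iff.2 ⟨g, hi⟩)
  refine h.fus hP hx (h.cju hn hw) ⟨g * n⁻¹, mem_cen.2 ?_, by group⟩
  conv_lhs => rw [← e]
  rw [← hi]
  group

theorem DD.exx (h : DD p P u z) : ∃ x ∈ P, x ∉ zpowers u :=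
  SetLike.not_le_iff_exists.1 fun k => by
    have := card_le_of_le k
    rw [h.card, Nat.card_zpowers] at this
    exact absurd (Nat.one_lt_pow two_ne_zero hp.out.one_lt)
      (not_lt.2 ((mul_le_iff_le_one_right (orderOf_pos u)).1 this))

theorem DD.expo (h : DD p P u z) (hP : Sy p P)
    (c : ∀ x ∈ P, ∃ w, IsConj w x ∧ P ≤ centralizer {w}) :
    DD p P z z ∧ (∀ x ∈ P, x ^ p = 1) ∧ p ≠ 2 := by
  have k1 : ∀ x ∈ P, x ∉ zpowers u → x ^ p = 1 := fun x hx xu => by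
    by_contra k
    obtain ⟨i, i1, ip⟩ := exists_ord hP.pg (x := ⟨x ^ p, pow_mem hx p⟩) (j := 0)
      (by simpa [Subtype.ext_iff])
    obtain ⟨w, h1, h2⟩ := c x hx
    exact xu (h.inz hP hx ((h.cen w (hP.mem ((pe_of_mem hP.pg hx).cj (cj_top.2 h1.symm)) h2)).1 h2)
      h1 (zpowers_le.2 (pow_mem (pow_mem (mem_zpowers x) p) (p ^ i)) (cyc_uniq
        (pow_mem (h.pw x hx) _) h.zu (by simpa [Subtype.ext_iff] using ip)
        (by simpa [Subtype.ext_iff] using i1) h.zp)))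
  obtain ⟨x, hx, xu⟩ := h.exx
  have up : u ^ p = 1 := by
    have := k1 _ (mul_mem hx h.mem) fun k => xu ((mul_mem_cancel_right (mem_zpowers u)).1 k)
    rwa [Commute.mul_pow (mem_centralizer_singleton_iff.1 (h.cu (mem_zpowers u) hx)), k1 x hx xu,
      one_mul] at this
  have e : zpowers u = zpowers z :=
    le_antisymm (zpowers_le.2 (cyc_uniq h.zu (mem_zpowers u) h.zp h.z1 up)) h.zle
  have k2 : ∀ x ∈ P, x ^ p = 1 := fun x hx => by
    by_cases k : x ∈ zpowers u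
    · exact orderOf_dvd_iff_pow_eq_one.1 ((orderOf_dvd_of_mem_zpowers k).trans
        (orderOf_dvd_of_pow_eq_one up))
    · exact k1 x hx k
  refine ⟨⟨h.ule h.zu, e ▸ h.cen, by rw [← Nat.card_zpowers, ← e, Nat.card_zpowers, h.card],
    e ▸ h.pw, mem_zpowers z, h.z1, h.zp, h.com⟩, k2, ?_⟩
  rintro rfl
  refine xu ((h.cen x hx).1 fun y hy => mem_centralizer_singleton_iff.2 ?_)
  have i : ∀ x ∈ P, x⁻¹ = x := fun x hx => inv_eq_of_mul_eq_one_right (sq x ▸ k2 x hx)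
  rw [← i _ (mul_mem hy hx), mul_inv_rev, i x hx, i y hy]

theorem DD.shift (h : DD p P z z) {x c : G} (hx : x ∈ P) (xz : x ∉ zpowers z)
    (hc : c ∈ zpowers z) : ∃ π ∈ P, π * x * π⁻¹ = x * c := by
  obtain ⟨y, hy, k⟩ := SetLike.not_le_iff_exists.1 (mt (h.cen x hx).1 xz)
  have h1 := h.com y hy x hx
  obtain ⟨i, rfl⟩ := nat_pow (zpowers_le.2 (cyc_uniq h1 h.zu (orderOf_dvd_iff_pow_eq_one.1
    ((orderOf_dvd_of_mem_zpowers h1).trans (orderOf_dvd_of_pow_eq_one h.zp)))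
      (fun e => k (mem_cen.2 (mul_inv_eq_one.1 e))) h.zp) hc)
  refine ⟨y ^ i, pow_mem hy i, ?_⟩
  have e1 : y * x * y⁻¹ = x * (y * x * y⁻¹ * x⁻¹) := by
    rw [mem_centralizer_singleton_iff.1 (h.cu h1 hx)]
    simp
  have e2 := mem_cen.1 (h.cu h1 hy)
  generalize y * x * y⁻¹ * x⁻¹ = d at e1 e2
  clear hc
  induction i with
  | zero => simp
  | succ i ih =>
    calc _ = y * (y ^ i * x * (y ^ i)⁻¹) * y⁻¹ := by group
      _ = y * x * y⁻¹ * (y * d ^ i * y⁻¹) := by rw [ih]; group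
      _ = _ := by rw [e1, ← conj_pow, e2, mul_assoc, pow_succ']

theorem DD.refl (h : DD p P z z) (hP : Sy p P) (e : ∀ x ∈ P, x ^ p = 1) {x w : G} (hx : x ∈ P)
    (xz : x ∉ zpowers z) (c : IsConj w x) (hw : w ∈ zpowers z) :
    ∃ t ∈ normalizer (P : Set G), t * z * t⁻¹ = z⁻¹ ∧ t * x * t⁻¹ * x ∈ zpowers z := by
  obtain ⟨g, hg⟩ := isConj_iff.1 c.symm
  have cx : x * z = z * x := mem_centralizer_singleton_iff.1 (h.le hx)
  obtain ⟨c, hc, k⟩ := syl_conj (B := zpowers (g * z * g⁻¹)) (h.cu hw) (zpowers_le.2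
    (mem_centralizer_singleton_iff.2 (by
      rw [← hg, conj_mul, conj_mul, cx]))) hP.pg
      (pe.pg ⟨1, by rw [pow_one, conj_pow, h.zp]; simp⟩) (hP.rel (h.cu hw))
  have k1 := k _ (mem_zpowers _)
  have k2 : c * g * x * (c * g)⁻¹ = w := by
    rw [← mem_cen.1 hc, ← hg]
    group
  replace k1 : c * g * z * (c * g)⁻¹ ∈ P := by simpa [mul_assoc] using k1
  generalize c * g = s at k1 k2
  obtain ⟨a, ha, e1⟩ := h.shift hx xz (mem_zpowers z)
  obtain ⟨b, hb, e2⟩ := h.shift k1 (fun k => xz (by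
    obtain ⟨i, hi⟩ := cyc_uniq k hw (e _ k1) (by simpa using h.z1) (e _ (h.ule hw))
    exact ⟨i, by simpa [← k2] using hi⟩)) (inv_mem hw)
  have e3 := mem_cen.1 (h.cu hw hb)
  have e4 := mem_cen.1 (h.le ha)
  rw [← k2] at e2 e3
  replace e2 : s⁻¹ * b * s * z * (s⁻¹ * b * s)⁻¹ = z * x⁻¹ := by
    calc _ = s⁻¹ * (b * (s * z * s⁻¹) * b⁻¹) * s := by group
      _ = _ := by rw [e2]; group
  replace e3 : s⁻¹ * b * s * x * (s⁻¹ * b * s)⁻¹ = x := by
    calc _ = s⁻¹ * (b * (s * x * s⁻¹) * b⁻¹) * s := by group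
      _ = _ := by rw [e3]; group
  generalize s⁻¹ * b * s = d at e2 e3
  have f1 : a * d * a * x * (a * d * a)⁻¹ = z := by
    calc _ = a * (d * (a * x * a⁻¹) * d⁻¹) * a⁻¹ := by group
      _ = a * (x * z * x⁻¹) * a⁻¹ := by rw [e1, ← conj_mul (b := d), e3, e2, mul_assoc x]
      _ = _ := by rw [cx, mul_inv_cancel_right, e4]
  have f2 : a * d * a * z * (a * d * a)⁻¹ = x⁻¹ := by
    calc _ = a * (d * (a * z * a⁻¹) * d⁻¹) * a⁻¹ := by group
      _ = _ := by rw [e4, e2, ← conj_mul, ← conj_inv, e4, e1]; group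
  generalize a * d * a = r at f1 f2
  have f3 : r * r * x * (r * r)⁻¹ = x⁻¹ := by rw [← f2, ← f1]; group
  have f4 : r * r * z * (r * r)⁻¹ = z⁻¹ := by
    calc _ = r * (r * z * r⁻¹) * r⁻¹ := by group
      _ = _ := by rw [f2, ← conj_inv, f1]
  generalize r * r = t at f3 f4
  have le : P ≤ lf (centralizer {ph z ⟨x, h.le hx⟩}) := fun y hy =>
    (lf_cen (w := ⟨y, h.le hy⟩)).2 (h.com x hx y hy)
  obtain ⟨_, ⟨m, hm, rfl⟩, k⟩ := adjust le hP.pg (hP.rel le) (g := t) fun y hy =>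
    (lf_cen (w := ⟨t * y * t⁻¹, mem_centralizer_singleton_iff.2 (by
      rw [← inv_inv z, ← f4, conj_inv, conj_mul, conj_mul,
        mem_centralizer_singleton_iff.1 (h.cu (inv_mem h.zu) hy)])⟩)).2 (by
      have := conj_zp f4 (h.com _ (inv_mem hx) y hy)
      rwa [← conj_mul, ← conj_mul, ← conj_mul, ← conj_inv, ← conj_inv, ← conj_inv, ← conj_inv, f3,
        inv_inv] at this)
  refine ⟨_, k, ?_, ?_⟩
  · calc _ = m.1 * (t * z * t⁻¹) * m.1⁻¹ := by simp [mul_assoc]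
      _ = _ := by rw [f4, ← conj_inv, mem_cen.1 m.2]
  · have h1 := lf_cen.1 (mem_lf.2 hm)
    rw [← fix_zp (inv_mem (h.le hx)) h1] at h1
    convert h1 using 1
    calc _ = m.1 * (t * x * t⁻¹) * m.1⁻¹ * x := by simp [mul_assoc]
      _ = _ := by rw [f3]; simp [mul_assoc]

theorem DD.even (h : DD p P z z) (hP : Sy p P) (e : ∀ x ∈ P, x ^ p = 1) (p2 : p ≠ 2)
    (c : ∀ x ∈ P, ∃ w, IsConj w x ∧ w ∈ zpowers z) {n : ℕ}
    (hn : ∀ y ∈ normalizer (P : Set G), y ∈ centralizer {z} → ∀ x ∈ P,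
      y ^ n * x * (y ^ n)⁻¹ * x⁻¹ ∈ zpowers z) : 2 ∣ n := by
  have two : ¬p ∣ 2 := fun k => p2 ((Nat.prime_dvd_prime_iff_eq hp.out Nat.prime_two).1 k)
  have nz : ∀ y ∈ centralizer {z}, ∀ w ∈ zpowers z, y * w * y⁻¹ ∈ zpowers z :=
    fun y hy w hw => by rwa [fix_zp hy hw]
  have zz : ∀ s t : G, s * z * s⁻¹ = z⁻¹ → t * z * t⁻¹ = z⁻¹ → s * t ∈ centralizer {z} :=
    fun s t hs ht => mem_cen.2 (by
      calc _ = s * (t * z * t⁻¹) * s⁻¹ := by group
        _ = _ := by rw [ht, ← conj_inv, hs, inv_inv])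
  obtain ⟨x, hx, xz⟩ := h.exx
  obtain ⟨w, h1, h2⟩ := c x hx
  obtain ⟨t, ht, t1, t2⟩ := h.refl hP e hx xz h1 h2
  have t3 : ∀ y ∈ P, t * t * y * (t * t)⁻¹ * y⁻¹ ∈ zpowers z := fun y hy =>
    h.all hP (mul_mem ht ht) (zz t t t1 t1) hx xz (by
      convert mul_mem (conj_zp t1 t2) (nz x (h.le hx) _ (inv_mem t2)) using 1
      group) hy
  obtain ⟨y, hy, yz⟩ : ∃ y ∈ P, y * (t * y * t⁻¹) ∉ zpowers z := by
    by_contra! k
    obtain ⟨a, ha, e1⟩ := h.shift hx xz (mem_zpowers z)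
    have hX := norm_mem ht hx
    have e2 := mem_centralizer_singleton_iff.1 (h.cu (k a ha) hX)
    have e3 := fix_zp (h.le ha) (k x hx)
    have e4 := mem_cen.1 (h.le ha)
    have e5 := mem_centralizer_singleton_iff.1 (h.le hX)
    have e6 : t * a * t⁻¹ * (t * x * t⁻¹) * (t * a * t⁻¹)⁻¹ = t * x * t⁻¹ * z⁻¹ := by
      rw [← t1, conj_mul (a := x), ← e1]
      group
    generalize t * x * t⁻¹ = X at e2 e3 e5 e6
    generalize t * a * t⁻¹ = A at e2 e6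
    have e7 : z * z * X = X := by
      calc _ = z * (z * X * z⁻¹) * z := by rw [mul_assoc, ← e5]; group
        _ = z * (a * A * X * (a * A)⁻¹) * z := by
          rw [← e5, ← e2, mul_inv_cancel_right, mul_inv_cancel_right]
        _ = z * (a * (A * X * A⁻¹) * a⁻¹) * z := by group
        _ = z * (a * x * a⁻¹)⁻¹ * (a * (x * X) * a⁻¹) * (a * z * a⁻¹)⁻¹ * z := by rw [e6]; group
        _ = _ := by rw [e1, e3, e4]; group
    exact h.z1 (mem_bot.1 (by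
      simpa [sq, mul_eq_right.1 e7] using mem_zp_pow hp.out h.zp two))
  have hv := mul_mem hy (norm_mem ht hy)
  have v1 : t * (y * (t * y * t⁻¹)) * t⁻¹ * (y * (t * y * t⁻¹))⁻¹ ∈ zpowers z := by
    convert mul_mem (nz _ (h.le (norm_mem ht hy)) _ (t3 y hy)) (h.com _ (norm_mem ht hy) y hy)
      using 1
    group
  generalize y * (t * y * t⁻¹) = v at yz hv v1
  obtain ⟨w, h1, h2⟩ := c v hv
  obtain ⟨s, hs, s1, s2⟩ := h.refl hP e hv yz h1 h2
  have g1 : s * t * v * (s * t)⁻¹ * v ∈ zpowers z := by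
    convert mul_mem (conj_zp s1 v1) s2 using 1
    group
  have g2 := zz s t s1 t1
  have g3 := hn _ (mul_mem hs ht) g2 v hv
  generalize s * t = g at g1 g2 g3
  obtain ⟨k, rfl | rfl⟩ := Nat.even_or_odd' n
  · exact dvd_mul_right 2 k
  have g4 : g ^ (2 * k + 1) ∈ lf (centralizer {ph z ⟨v, h.le hv⟩}) :=
    (lf_cen (w := ⟨_, pow_mem g2 _⟩)).2 (by simpa [mul_assoc] using inv_mem g3)
  rw [pow_succ, pow_mul, mul_mem_cancel_left (pow_mem ((lf_cen (w := ⟨_, pow_mem g2 2⟩)).2 (by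
    convert inv_mem (mul_mem (nz g g2 _ g1) (nz v (h.le hv) _ (inv_mem g1))) using 1
    simp [sq, mul_assoc])) k)] at g4
  refine absurd (zpowers_le.2 ?_ (mem_zp_pow hp.out (e v hv) two)) yz
  convert mul_mem ((lf_cen (w := ⟨g, g2⟩)).1 g4) g1 using 1
  simp [sq, mul_assoc]

end Pool.Agent.MP_abb977_al.H94
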