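import Pool.Agent.MP_abb977_al.H94.Aut

/-! Coprime automorphisms of metacyclic groups of prime power order. -/

namespace Pool.Agent.MP_abb977_al.H94

open Subgroup

variable {p : ℕ} {K : Type} [Group K]

/-- generated by `a` and `b` in product form -/
def G2 (a b : K) : Prop := ∀ x, ∃ i j : ℤ, x = a ^ i * b ^ j

theorem G2.of (A : Subgroup K) [A.Normal] [IsCyclic A] [IsCyclic (K ⧸ A)] :
    ∃ a b : K, (zpowers a).Normal ∧ G2 a b := by
  obtain ⟨a, rfl⟩ := (Subgroup.isCyclic_iff_exists_zpowers_eq_top A).1 inferInstance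
  obtain ⟨b, hb⟩ := IsCyclic.exists_generator (α := K ⧸ zpowers a)
  obtain ⟨b, rfl⟩ := QuotientGroup.mk_surjective b
  refine ⟨a, b, inferInstance, fun x => ?_⟩
  obtain ⟨j, hj⟩ := hb x
  obtain ⟨i, hi⟩ : x * (b ^ j)⁻¹ ∈ zpowers a := by
    rw [← QuotientGroup.eq_one_iff, QuotientGroup.mk_mul, ← hj]
    simp
  exact ⟨i, j, by simp [show a ^ i = _ from hi]⟩

theorem G2.map {L : Type} [Group L] {a b : K} (h : G2 a b) (f : K →* L)
    (hf : Function.Surjective f) : G2 (f a) (f b) := fun x => by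
  obtain ⟨x, rfl⟩ := hf x
  obtain ⟨i, j, rfl⟩ := h x
  exact ⟨i, j, by simp⟩

theorem G2.cen {a b c : K} (h : G2 a b) (ha : Commute c a) (hb : Commute c b) (x : K) :
    Commute c x := by
  obtain ⟨i, j, rfl⟩ := h x
  exact (ha.zpow_right i).mul_right (hb.zpow_right j)

theorem G2.comm {a b : K} (h : G2 a b) (c : Commute a b) (x y : K) : Commute x y :=
  h.cen (h.cen (Commute.refl a) c x).symm (h.cen c.symm (Commute.refl b) x).symm y

theorem comm_zp {c x y : K} (h : Commute c x) (hy : y ∈ zpowers c) : Commute y x := by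
  obtain ⟨i, rfl⟩ := hy
  exact h.zpow_left i

theorem normal_zp {c : K} (h : ∀ g, g * c * g⁻¹ ∈ zpowers c) : (zpowers c).Normal :=
  ⟨by
    rintro _ ⟨i, rfl⟩ g
    rw [← conj_zpow]
    exact zpow_mem (h g) i⟩

theorem pow_two_class {x y w : K} (h : y * x = x * y * w) (hx : Commute w x) (hy : Commute w y)
    (n : ℕ) : (x * y) ^ n = x ^ n * y ^ n * w ^ n.choose 2 := by
  have e : ∀ n, y ^ n * x = x * y ^ n * w ^ n := fun n => by
    induction n with
    | zero => simp
    | succ n ih =>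
      rw [pow_succ', mul_assoc, ih, ← mul_assoc, ← mul_assoc, h, mul_assoc (x * y),
        (hy.pow_right n).eq, pow_succ' w]
      group
  induction n with
  | zero => simp
  | succ n ih =>
    rw [pow_succ, ih, Nat.choose_succ_succ, Nat.choose_one_right, mul_assoc,
      ((hx.mul_right hy).pow_left _).eq, ← mul_assoc, ← mul_assoc, mul_assoc _ _ x, e,
      ← mul_assoc, mul_assoc _ (w ^ n), (hy.pow_left n).eq, pow_add, pow_succ, pow_succ]
    group

variable [hp : Fact p.Prime]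

theorem mem_zp (pK : IsPGroup p K) (a : K) {i : ℤ} (hi : ¬(p : ℤ) ∣ i) : a ∈ zpowers (a ^ i) := by
  obtain ⟨k, hk⟩ := pK a
  exact mem_zpowers_zpow_iff.2 (((hp.out.coprime_iff_not_dvd.2
    (mt Int.natCast_dvd.2 hi)).symm.pow_right k).coprime_dvd_right (orderOf_dvd_of_pow_eq_one hk))

theorem G2.ab (pK : IsPGroup p K) {a b u : K} (h : G2 a b) (hu : ∀ x, Commute u x)
    (e : ∀ (x : K) j, u ^ p ^ j = 1 → x ^ p ^ j = 1) : Commute a b := by
  obtain ⟨k, hk⟩ := pK u
  obtain ⟨i, j, rfl⟩ := h u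
  have c : Commute (a ^ i) (b ^ j) := by
    simpa using (hu (b ^ j)).mul_left (Commute.refl (b ^ j)).inv_left
  by_cases hi : (p : ℤ) ∣ i
  · by_cases hj : (p : ℤ) ∣ j
    · obtain ⟨i, rfl⟩ := hi
      obtain ⟨j, rfl⟩ := hj
      induction k with
      | zero => rw [show a = 1 by simpa using e a 0 hk]; exact Commute.one_left b
      | succ k ih =>
        refine ih ?_
        rw [c.mul_pow, mul_comm _ i, mul_comm _ j, zpow_mul, zpow_mul, zpow_natCast, zpow_natCast,
          ← pow_mul, ← pow_mul, ← pow_succ', e _ _ hk, e _ _ hk, mul_one]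
    · refine (comm_zp ?_ (mem_zp pK b hj)).symm
      simpa using ((Commute.refl a).zpow_left i).inv_left.mul_left (hu a)
  · refine comm_zp ?_ (mem_zp pK a hi)
    simpa using (hu b).mul_left ((Commute.refl b).zpow_left j).inv_left

variable [Finite K]

theorem cyc_uniq {a c d : K} (hc : c ∈ zpowers a) (hd : d ∈ zpowers a) (cp : c ^ p = 1)
    (c1 : c ≠ 1) (dp : d ^ p = 1) : d ∈ zpowers c := by
  let _ : CommGroup (zpowers a) := IsCyclic.commGroup
  have h := zp_eq (S := Om (zpowers a) p) ((IsCyclic.card_powMonoidHom_ker _ p).trans_le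
    (Nat.gcd_le_right _ hp.out.pos)) (u := ⟨c, hc⟩) (Subtype.ext cp) (by simpa) (Subtype.ext cp)
  obtain ⟨i, hi⟩ : (⟨d, hd⟩ : zpowers a) ∈ zpowers ⟨c, hc⟩ := h ▸ Subtype.ext dp
  exact ⟨i, congrArg Subtype.val hi⟩

omit [Finite K] in
theorem mod_one {u : K} {m : ℕ} (u1 : u ≠ 1) (up : u ^ p = 1) (h : u ^ m = u) :
    ∃ k, m = p * k + 1 := by
  rw [fix_iff, orderOf_eq_prime up u1, ← Nat.cast_one, ZMod.natCast_eq_natCast_iff',
    Nat.mod_eq_of_lt hp.out.one_lt] at h
  exact ⟨m / p, by rw [← h, Nat.div_add_mod]⟩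

theorem cen_p (pK : IsPGroup p K) {u g : K} (up : u ^ p = 1) (h : g * u * g⁻¹ ∈ zpowers u) :
    g * u * g⁻¹ = u := by
  by_cases u1 : u = 1
  · simp [u1]
  obtain ⟨m, hm⟩ := nat_pow h
  obtain ⟨j, hj⟩ := pK g
  have := conj_iter hm (p ^ j)
  rw [hj, one_mul, inv_one, mul_one, eq_comm, fix_iff, orderOf_eq_prime up u1, Nat.cast_pow,
    ZMod.pow_card_pow] at this
  rwa [hm, fix_iff, orderOf_eq_prime up u1]

theorem met2 {α : K →* K} (h : Co p α) {a b c : K} (g : G2 a b) (cc : ∀ x, Commute c x)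
    (cp : c ^ p = 1) (c1 : c ≠ 1) (der : ∀ x y, x * y * x⁻¹ * y⁻¹ ∈ zpowers c)
    (nab : ¬Commute a b) (ca : c ∈ zpowers a) (αc : α c = c) : (∀ x, α x / x ∈ zpowers c) ∨
      (p = 2 ∧ a ^ 2 ∈ zpowers c ∧ ∀ x, α x / x ∈ zpowers c → x ∈ zpowers c) := by
  have : (zpowers c).Normal := normal_zp fun g => by simp [← (cc g).eq]
  have fix : ∀ w ∈ zpowers c, α w = w := by
    rintro _ ⟨i, rfl⟩
    simp [αc]
  let _ : CommGroup (K ⧸ zpowers c) := { (inferInstance : Group _) with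
    mul_comm := fun x y => by
      obtain ⟨x, rfl⟩ := QuotientGroup.mk_surjective x
      obtain ⟨y, rfl⟩ := QuotientGroup.mk_surjective y
      exact QuotientGroup.eq_iff_div_mem.2 (by simpa [div_eq_mul_inv, mul_assoc] using der x y) }
  have hD : zpowers c ≤ (zpowers c).comap α := fun w hw => mem_comap.2 (by rwa [fix w hw])
  have h' := h.quot _ hD
  have r := rank_two (p := p) (g.map _ (QuotientGroup.mk'_surjective (zpowers c)))
  have e : ∀ x : K, dl (QuotientGroup.map _ _ α hD) x = (α x / x : K) := fun _ => rfl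
  by_cases k1 : (dl (QuotientGroup.map _ _ α hD)).range = ⊥
  · exact Or.inl fun x => (QuotientGroup.eq_one_iff _).1 (mem_bot.1 (k1 ▸ ⟨x, e x⟩))
  have k2 : (dl (QuotientGroup.map _ _ α hD)).ker = ⊥ := by
    by_contra k2
    obtain ⟨u, hu⟩ := cyc h'.pg (split h'.pg r h'.disj k1)
    obtain ⟨v, hv⟩ := cyc h'.pg (split h'.pg r h'.disj.symm k2)
    obtain ⟨u, rfl⟩ := QuotientGroup.mk_surjective u
    obtain ⟨y, rfl⟩ : v ∈ _ := hv ▸ mem_zpowers v
    obtain ⟨y, rfl⟩ := QuotientGroup.mk_surjective y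
    have hu' : α u / u ∈ zpowers c :=
      (QuotientGroup.eq_one_iff _).1 (show _ ∈ MonoidHom.ker _ from hu ▸ mem_zpowers _)
    have gen : ∀ x : K, ∃ (i j : ℤ), ∃ w ∈ zpowers c, x = w * (u ^ i * (α y / y) ^ j) := fun x => by
      have k := isComplement'_of_card_mul_and_disjoint
        (by rw [← index_ker, card_mul_index]) h'.disj
      rw [← hu, ← hv] at k
      obtain ⟨⟨⟨_, i, rfl⟩, ⟨_, j, rfl⟩⟩, hx⟩ := k.2 x
      exact ⟨i, j, _, QuotientGroup.eq_iff_div_mem.1 (hx.symm.trans rfl), by simp⟩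
    have c1 : Commute u (α y / y) := by
      have e1 := fix _ (der u y)
      have e2 := (comm_zp (cc (u * α y * u⁻¹)) hu').mul_inv_cancel
      have e3 := (comm_zp (cc (α y / y)) (der u y)).mul_inv_cancel
      rw [map_mul, map_mul, map_mul, map_inv, map_inv] at e1
      have e4 : u * α y * u⁻¹ = u * y * u⁻¹ * y⁻¹ * α y := by
        rw [← e1, ← e2, div_eq_mul_inv]
        group
      rw [Commute, SemiconjBy, ← mul_inv_eq_iff_eq_mul]
      conv_rhs => rw [← e3]
      rw [div_eq_mul_inv]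
      calc _ = u * α y * u⁻¹ * (u * y⁻¹ * u⁻¹) := by group
        _ = _ := by
          rw [e4]
          group
    have cen : ∀ z, Commute z u → Commute z (α y / y) → ∀ x, Commute z x := fun z h1 h2 x => by
      obtain ⟨i, j, w, hw, rfl⟩ := gen x
      exact (comm_zp (cc z) hw).symm.mul_right ((h1.zpow_right i).mul_right (h2.zpow_right j))
    exact nab (cen a (cen u (Commute.refl u) c1 a).symm (cen _ c1.symm (Commute.refl _) a).symm b)
  obtain ⟨i, i1, ip⟩ := exists_ord h.pg (x := a) (j := 0) (by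
    rw [pow_zero, pow_one]
    rintro rfl
    exact nab (Commute.one_left b))
  rw [pow_zero, pow_one] at i1
  rw [zero_add, pow_one] at ip
  have hd := cyc_uniq ca (pow_mem (mem_zpowers a) _) cp c1 ip
  by_cases ex : 2 = p ^ i
  · refine Or.inr ⟨(Nat.prime_dvd_prime_iff_eq hp.out Nat.prime_two).1 (ex ▸ dvd_pow_self p ?_),
      ex ▸ hd, fun x hx => (QuotientGroup.eq_one_iff _).1 (mem_bot.1 (k2 ▸ ?_))⟩
    · rintro rfl
      simp at ex
    · exact (QuotientGroup.eq_one_iff _).2 hx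
  exfalso
  obtain ⟨x, hx⟩ := Finite.injective_iff_surjective.1 ((MonoidHom.ker_eq_bot_iff _).1 k2) a
  obtain ⟨x, rfl⟩ := QuotientGroup.mk_surjective x
  have h1 := QuotientGroup.eq.1 ((e x).symm.trans hx)
  have kill : ∀ w ∈ zpowers c, ∀ n, p ∣ n → w ^ n = 1 := by
    rintro _ ⟨j, rfl⟩ _ ⟨n, rfl⟩
    rw [pow_mul, ← zpow_natCast _ p, ← zpow_mul, mul_comm, zpow_mul, zpow_natCast, cp, one_zpow,
      one_pow]
  have i0 : i ≠ 0 := by
    rintro rfl
    exact nab (comm_zp (cc b) (by simpa using hd))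
  have h2 : a ^ p ^ i = α (x ^ p ^ i) * (x ^ p ^ i)⁻¹ := by
    have h3 := der x (α x)⁻¹
    conv_lhs => rw [← mul_inv_cancel_left (α x / x) a]
    rw [(comm_zp (cc _) h1).symm.mul_pow, kill _ h1 _ (dvd_pow_self p i0), mul_one, div_eq_mul_inv,
      pow_two_class (w := x * (α x)⁻¹ * x⁻¹ * (α x)⁻¹⁻¹) (by group) (comm_zp (cc _) h3)
        (comm_zp (cc _) h3), kill _ h3 _ (hp.out.dvd_choose_pow two_ne_zero ex), mul_one, map_pow,
      inv_pow]
  refine i1 (h.triv (v := x ^ p ^ i) ?_ (fix _ hd))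
  rw [← (comm_zp (cc _) hd).eq, h2, inv_mul_cancel_right]

end Pool.Agent.MP_abb977_al.H94
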