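import Pool.Agent.MP_abb977_al.H94.Met

/-! A coprime group that is transitive on the lines of a space of dimension three contains no
homology: the axes would give a polarity without absolute points. -/

namespace Pool.Agent.MP_abb977_al.H94

open Subgroup Finset

variable {p : ℕ} [hp : Fact p.Prime] {B : Type} [CommGroup B] [Fintype B]

open Classical in
theorem cnt (S : Subgroup B) (h : p ∣ Nat.card S) :
    ∑ k : {x : B // x ≠ 1}, (if k.1 ∈ S then 1 else 0 : ZMod p) = -1 := by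
  rw [← sum_subtype (univ.erase 1) (by simp) fun x => if x ∈ S then (1 : ZMod p) else 0,
    sum_erase_eq_sub (mem_univ _), if_pos S.one_mem, sum_boole, ← Fintype.card_subtype,
    ← Nat.card_eq_fintype_card, (ZMod.natCast_eq_zero_iff _ _).2 h, zero_sub]

theorem no_pol (hc : Nat.card B = p ^ 3) (W : {x : B // x ≠ 1} → Subgroup B)
    (c : ∀ x, Nat.card (W x) = p ^ 2) (ir : ∀ x, x.1 ∉ W x)
    (sy : ∀ x y, y.1 ∈ W x → x.1 ∈ W y) : False := by
  classical
  let M : Matrix {x : B // x ≠ 1} {x : B // x ≠ 1} (ZMod p) :=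
    Matrix.of fun x y => if y.1 ∈ W x then 1 else 0
  have pB : IsPGroup p B := IsPGroup.of_card hc
  have key : ∀ k x y, (M ^ (k + 2)) x y = (-1) ^ (k + 1) := fun k => by
    induction k with
    | zero =>
      intro x y
      rw [zero_add, sq, Matrix.mul_apply, zero_add, pow_one, ← cnt (W x ⊓ W y)]
      · refine sum_congr rfl fun z _ => ?_
        simp only [M, Matrix.of_apply, Subgroup.mem_inf, (Iff.intro (sy z y) (sy y z))]
        by_cases h1 : z.1 ∈ W x <;> simp [h1]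
      · obtain ⟨u, hu, u1, up⟩ := exists_p pB (S := W x ⊓ W y) fun e => by
          have := Nat.card_le_card_of_injective _ (mul_injective_of_disjoint (disjoint_iff.2 e))
          rw [Nat.card_prod, c, c, hc, ← pow_add] at this
          exact absurd ((pow_le_pow_iff_right₀ hp.out.one_lt).1 this) (by norm_num)
        exact orderOf_eq_prime up u1 ▸ orderOf_dvd_natCard _ hu
    | succ k ih =>
      intro x y
      rw [← add_right_comm, pow_succ' M, Matrix.mul_apply, pow_succ' (-1 : ZMod p)]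
      simp only [ih, ← sum_mul]
      exact congrArg (· * _) (cnt (W x) (c x ▸ dvd_pow_self p two_ne_zero))
  have t := ZMod.trace_pow_card M
  obtain ⟨k, hk⟩ := Nat.exists_eq_add_of_le' hp.out.two_le
  have t0 : M.trace = 0 := sum_eq_zero fun x _ => if_neg (ir x)
  have t1 := cnt (p := p) (⊤ : Subgroup B) (by rw [card_top, hc]; exact dvd_pow_self p three_ne_zero)
  rw [t0, zero_pow hp.out.ne_zero, Matrix.trace, congrArg (M ^ ·) hk] at t
  simp only [Matrix.diag, key] at t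
  simp only [Subgroup.mem_top, if_true] at t1
  rw [← one_mul ((-1 : ZMod p) ^ _), ← sum_mul, t1] at t
  simp at t

/-- automorphisms that act trivially modulo `x` -/
def Dl (x : B) : Subgroup (MulAut B) where
  carrier := {γ | ∀ y, γ y / y ∈ zpowers x}
  mul_mem' := fun {γ δ} h k y => by simpa using mul_mem (h (δ y)) (k y)
  one_mem' := fun y => by simp
  inv_mem' := fun {γ} h y => by simpa using inv_mem (h (γ⁻¹ y))

/-- `W` is the axis of a homology with centre `x` -/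
def Hm (p : ℕ) (Γ : Subgroup (MulAut B)) (x : B) (W : Subgroup B) : Prop :=
  Nat.card W = p ^ 2 ∧ ∃ γ ∈ Γ, γ ∈ Dl x ∧ ∀ y, y ∈ W ↔ γ y = y

theorem polar (hc : Nat.card B = p ^ 3) (he : ∀ x : B, x ^ p = 1) {Γ : Subgroup (MulAut B)}
    (co : ∀ γ ∈ Γ, Co p γ.toMonoidHom) {e : B} (tr : ∀ x, ∃ γ ∈ Γ, γ x ∈ zpowers e)
    {γ : MulAut B} (hγ : γ ∈ Γ) : Nat.card (dl γ.toMonoidHom).ker ≠ p ^ 2 := fun h0 => by
  have gen : ∀ {x d : B}, d ∈ zpowers x → d ≠ 1 → x ∈ zpowers d := fun h d1 =>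
    cyc_uniq h (mem_zpowers _) (he _) d1 (he _)
  have triv : ∀ {x}, ∀ δ ∈ Γ, δ ∈ Dl x → δ x = x → ∀ y, δ y = y := fun δ h1 h2 h3 y =>
    div_eq_one.1 ((co δ h1).triv (v := y) (by simp) (by
      obtain ⟨i, hi⟩ := h2 y
      simp [← show _ = δ y / y from hi, h3]))
  have dis : ∀ {x W}, Hm p Γ x W → ∀ d ∈ zpowers x, d ∈ W → d = 1 :=
    fun ⟨c, δ, h1, h2, h3⟩ d hd hW => by
      by_contra d1
      rw [(eq_top_iff' _).2 fun y => (h3 y).2 (triv δ h1 h2 ((h3 _).1
        (zpowers_le.2 hW (gen hd d1))) y), card_top, hc] at c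
      exact absurd (Nat.pow_right_injective hp.out.two_le c) (by norm_num)
  have cj : ∀ {x W}, Hm p Γ x W → ∀ δ ∈ Γ, Hm p Γ (δ x) (W.map δ.toMonoidHom) :=
    fun {x W} ⟨c, ε, h1, h2, h3⟩ δ hδ => by
      refine ⟨(card_map_of_injective δ.injective).trans c, δ * ε * δ⁻¹,
        mul_mem (mul_mem hδ h1) (inv_mem hδ), fun y => ?_, fun y => ?_⟩
      · obtain ⟨i, hi⟩ := h2 (δ⁻¹ y)
        exact ⟨i, by simpa using congrArg δ hi⟩
      · rw [Subgroup.mem_map_equiv, h3]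
        exact δ.eq_symm_apply
  have un : ∀ {x W V}, Hm p Γ x W → Hm p Γ x V → W ≤ V := fun {x W V} hW hV w hw => by
    obtain ⟨-, δ, h1, h2, h3⟩ := id hW
    obtain ⟨-, ε, k1, k2, k3⟩ := hV
    obtain ⟨a, ha⟩ := mul_mem (h2 x) (mem_zpowers x)
    obtain ⟨b, hb⟩ := mul_mem (k2 x) (mem_zpowers x)
    simp only [div_mul_cancel] at ha hb
    have := triv ((ε * δ)⁻¹ * (δ * ε)) (mul_mem (inv_mem (mul_mem k1 h1)) (mul_mem h1 k1))
      (mul_mem (inv_mem (mul_mem k2 h2)) (mul_mem h2 k2)) ((ε * δ).symm_apply_eq.2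
        (show δ (ε x) = ε (δ x) by
        simp only [← ha, ← hb, map_zpow, ← zpow_mul, mul_comm a])) w
    have e1 : δ (ε w) = ε (δ w) := (ε * δ).symm_apply_eq.1 this
    rw [(h3 w).1 hw] at e1
    exact (k3 w).2 (div_eq_one.1 (dis hW _ (k2 w) (div_mem ((h3 _).2 e1) hw)))
  have c1 := (dl γ.toMonoidHom).ker.card_mul_index
  rw [index_ker, h0, hc, pow_succ _ 2, Nat.mul_right_inj (pow_pos hp.out.pos 2).ne'] at c1
  obtain ⟨x, hx, x1, xp⟩ := exists_p (IsPGroup.of_card hc) (S := (dl γ.toMonoidHom).range)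
    fun k => hp.out.ne_one (by rw [← c1, k, card_bot])
  have h1 : Hm p Γ x _ := ⟨h0, γ, hγ, fun y => zp_eq c1.le hx x1 xp ▸ ⟨y, rfl⟩, fun y => mem_fx⟩
  have ex : ∀ y : {x : B // x ≠ 1}, ∃ W, Hm p Γ y.1 W := fun y => by
    obtain ⟨δ, h2, h3⟩ := tr x
    obtain ⟨ε, h4, h5⟩ := tr y
    obtain ⟨c, η, k1, k2, k3⟩ := cj (cj h1 δ h2) ε⁻¹ (inv_mem h4)
    obtain ⟨i, hi⟩ := zpowers_le.2 (gen h5 (by simpa using y.2)) h3
    exact ⟨_, c, η, k1, fun w => zpowers_le.2 (⟨i, by simp [← show _ = δ x from hi]⟩ :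
      ε⁻¹ (δ x) ∈ zpowers y.1) (k2 w), k3⟩
  choose W hW using ex
  have ir : ∀ x, x.1 ∉ W x := fun x k => x.2 (dis (hW x) _ (mem_zpowers _) k)
  refine no_pol hc W (fun x => (hW x).1) ir fun x y hy => ?_
  obtain ⟨c, δ, k1, k2, k3⟩ := hW x
  have k4 := cj (hW y) δ k1
  rw [(k3 _).1 hy] at k4
  obtain ⟨v, hv, hv'⟩ := SetLike.not_le_iff_exists.1 fun k : W y ≤ W x =>
    ir y (eq_of_le_of_card_ge k (c.trans (hW y).1.symm).le ▸ hy)
  exact zpowers_le.2 (div_mem (un k4 (hW y) ⟨v, hv, rfl⟩) hv)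
    (gen (k2 v) fun k => hv' ((k3 v).2 (div_eq_one.1 k)))

end Pool.Agent.MP_abb977_al.H94
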