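import Pool.Agent.MP_abb977_al.H94.Gp
import Pool.Agent.MP_abb977_al.H94.Pol

/-! The partner of a group with cyclic centre of index the square of the prime is not abelian. -/

namespace Pool.Agent.MP_abb977_al.H94

open Subgroup

variable {G H : Type} [Group G] [Group H] {F : G ≃ H} {p q : ℕ} {P : Subgroup G} {Q : Subgroup H}

theorem co_of (pG : IsPGroup p G) {γ : MulAut G} {t : ℕ} (ht : ¬p ∣ t) (h : γ ^ t = 1) :
    Co p γ.toMonoidHom := by
  have : ∀ t x, γ^[t] x = (γ ^ t) x := fun t => by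
    induction t with
    | zero => simp
    | succ t ih => intro x; rw [Function.iterate_succ_apply, ih, pow_succ, MulAut.mul_apply]
  exact ⟨pG, t, ht, fun x => (this t x).trans (by simp [h])⟩

variable [hp : Fact p.Prime] [Fintype G] [Fintype H]

theorem Mt.mix (h : Mt F) (hP : Sy p P) (hQ : Sy p Q) {u z : G} (d : DD p P u z)
    (c : ∀ x ∈ Q, Q ≤ centralizer {x}) : False := by
  have c1 : ∀ x ∈ P, ∃ w, IsConj w x ∧ P ≤ centralizer {w} := fun x hx =>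
    let ⟨_, _, _, k⟩ := h.symm.ab hQ hP c hx
    k
  obtain ⟨d, e, p2⟩ := d.expo hP c1
  have two : ¬p ∣ 2 := fun k => p2 ((Nat.prime_dvd_prime_iff_eq hp.out Nat.prime_two).1 k)
  have c2 : ∀ x ∈ P, ∃ w, IsConj w x ∧ w ∈ zpowers z := fun x hx =>
    let ⟨w, h1, h2⟩ := c1 x hx
    ⟨w, h1, (d.cen w (hP.mem ((pe_of_mem hP.pg hx).cj (cj_top.2 h1.symm)) h2)).1 h2⟩
  obtain ⟨n, e1, -, k⟩ := d.num hP
  have ev := d.even hP e p2 c2 k
  obtain ⟨w, h1, h2, h3, h4, h5⟩ := h.dz hP hQ d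
  let _ : CommGroup Q := { (inferInstance : Group Q) with
    mul_comm := fun x y => cen_iff.1 (c x x.2) y }
  have := Fintype.ofFinite Q
  have oz := orderOf_eq_prime d.zp d.z1
  have cQ : Nat.card Q = p ^ 3 := by rw [Sy.card F hP hQ, d.card, oz, ← pow_succ']
  have eQ : ∀ x : Q, x ^ p = 1 := fun x => by
    obtain ⟨y, hy, -, -, k⟩ := h.symm.cp hQ hP x.2 (c x x.2)
    rw [← orderOf_dvd_iff_pow_eq_one, ← orderOf_coe, ← k, orderOf_dvd_iff_pow_eq_one, e y hy]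
  let ι : MulAut Q := MulEquiv.inv Q
  have cι : ∀ γ, Commute γ ι := fun γ => MulEquiv.ext fun x => map_inv γ x
  let ρ := Q.normalizerMonoidHom.noncommCoprod (zpowersHom _ ι) fun _ _ => (cι _).zpow_right _
  have pol := fun γ => polar (γ := γ) cQ eQ (Γ := ρ.range) (e := ⟨w, h1⟩) (by
    rintro _ ⟨⟨n, k⟩, rfl⟩
    refine co_of hQ.pg (t := nI Q * 2) (fun k => (hp.out.dvd_mul.1 k).elim hQ.nI two) ?_
    change (Q.normalizerMonoidHom n * ι ^ k.toAdd) ^ _ = 1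
    rw [((cι _).zpow_right _).mul_pow, pow_mul, ← map_pow, mul_comm (nI Q), pow_mul,
      ← zpow_natCast (ι ^ _), ← zpow_mul, mul_comm k.toAdd, zpow_mul, zpow_natCast,
      show ι ^ 2 = 1 from MulEquiv.ext inv_inv, show Q.normalizerMonoidHom (n ^ nI Q) = 1 from
        MulEquiv.ext fun x => (act_fix (n ^ nI Q).2).2 (c _ (pow_nI n.2) x.2)]
    simp) fun x => by
      obtain ⟨y, hy, k1⟩ := h.pull hP (pe_of_mem hQ.pg x.2)
      obtain ⟨v, k2, k3⟩ := c2 y hy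
      obtain ⟨s, rfl⟩ := nat_pow k3
      by_cases hs : p ∣ s
      · obtain ⟨s, rfl⟩ := hs
        rw [pow_mul, d.zp, one_pow, isConj_one_right] at k2
        rw [k2, h.one, isConj_one_right] at k1
        exact ⟨1, one_mem _, mem_zp_sub.2 (k1 ▸ one_mem _ : x.1 ∈ _)⟩
      obtain ⟨m, hm, k4⟩ := hQ.fusion (c _ x.2) (c _ (pow_mem h1 s)) (k1.symm.trans
        (((h.conj _ _).2 k2.symm).trans (h.galp hp.out ⟨1, by simpa using d.zp⟩ h2 hs)))
      exact ⟨_, ⟨(⟨m, hm⟩, 1), mul_one _⟩, mem_zp_sub.2 ⟨s, (zpow_natCast w s).trans k4.symm⟩⟩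
  have pw : ∀ S : Subgroup Q, ∃ j ≤ 3, Nat.card S = p ^ j := fun S =>
    (Nat.dvd_prime_pow hp.out).1 (cQ ▸ S.card_subgroup_dvd_card)
  have ck : ∀ n (hn : n ∈ centralizer {w} ⊓ normalizer (Q : Set H)),
      Nat.card (dl (act hn.2)).ker = p ∨ (dl (act hn.2)).ker = ⊤ := fun n hn => by
    obtain ⟨j, hj, k⟩ := pw (dl (act hn.2)).ker
    have := pol _ ⟨(⟨n, hn.2⟩, 1), mul_one _⟩
    interval_cases j
    · have k1 : (⟨w, h1⟩ : Q) ∈ (dl (act hn.2)).ker := mem_fx.2 (Subtype.ext (mem_cen.1 hn.1))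
      rw [card_eq_one.1 k, mem_bot, Subtype.ext_iff] at k1
      exact absurd k1 h4
    · exact Or.inl (k.trans (pow_one p))
    · exact absurd k this
    · exact Or.inr (eq_top_of_card_eq _ (k.trans cQ.symm))
  have e2 := AS.two (p := p) (a := p) ⟨h3, hQ.pg, hQ.rel h3, c⟩ fun n hn => by
    rw [H94.cz, ← Nat.card_congr (subgroupOfEquivOfLe inf_le_left).toEquiv,
      show (Q ⊓ centralizer {n}).subgroupOf Q = (dl (act hn.2)).ker from Subgroup.ext fun x => by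
        rw [mem_fx, act_fix, mem_subgroupOf, mem_inf, and_iff_right x.2]]
    exact (ck n hn).imp_right fun k => by rw [k, card_top]
  rw [cQ, h.cc h2, ← h.rg_cen hp.out ⟨1, by simpa using d.zp⟩ h2] at e2
  rw [oz, mul_assoc] at e1
  have p0 : (p : ℚ) ≠ 0 := Nat.cast_ne_zero.2 hp.out.ne_zero
  have ne : (p : ℚ) ^ 2 - 1 ≠ 0 := sub_ne_zero.2 (by
    exact_mod_cast (Nat.one_lt_pow two_ne_zero hp.out.one_lt).ne')
  obtain rfl : n = cI (centralizer {w}) Q := Nat.cast_injective (R := ℚ) (mul_right_cancel₀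
    (right_ne_zero_of_mul (e1 ▸ ne)) (e1.trans (mul_left_cancel₀ p0 (by
      push_cast at e2
      linear_combination -e2))))
  obtain ⟨τ, hτ⟩ := exists_prime_orderOf_dvd_card' (G := _ ⧸ (centralizer (Q : Set H)).subgroupOf
    (centralizer {w} ⊓ normalizer (Q : Set H))) 2 ev
  obtain ⟨τ, rfl⟩ := QuotientGroup.mk_surjective τ
  have t2 := mem_subgroupOf.1 ((QuotientGroup.eq_one_iff (τ ^ 2)).1 (hτ ▸ pow_orderOf_eq_one _))
  have t1 := (ck τ τ.2).resolve_right fun k => by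
    have k1 : τ.1 ∈ centralizer (Q : Set H) := fun x hx => mem_centralizer_singleton_iff.1
      ((act_fix τ.2.2 (x := ⟨x, hx⟩)).1 (mem_fx.1 (k ▸ mem_top _)))
    rw [(QuotientGroup.eq_one_iff τ).2 (mem_subgroupOf.2 k1)] at hτ
    simp at hτ
  have t3 := (dl (act τ.2.2)).ker.card_mul_index
  rw [index_ker, t1, cQ, pow_succ' p 2, Nat.mul_right_inj hp.out.ne_zero] at t3
  have t4 := pol _ ⟨(⟨τ, τ.2.2⟩, Multiplicative.ofAdd 1), rfl⟩
  obtain ⟨j, hj, k⟩ := pw (dl (ρ (⟨τ, τ.2.2⟩, Multiplicative.ofAdd 1)).toMonoidHom).ker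
  have t5 : ∀ x, ρ (⟨τ, τ.2.2⟩, Multiplicative.ofAdd 1) x = act τ.2.2 x⁻¹ := fun x => by
    simp [ρ, ι, act]
  have t6 : Nat.card (dl (act τ.2.2)).range ≤ _ := card_le_of_le (K := (dl (ρ (⟨τ, τ.2.2⟩,
    Multiplicative.ofAdd 1)).toMonoidHom).ker) (by
      rintro _ ⟨x, rfl⟩
      have : act τ.2.2 (act τ.2.2 x) = x := Subtype.ext (by
        simpa [act_coe, sq, mul_assoc] using mul_inv_eq_iff_eq_mul.2 (t2 x x.2).symm)
      exact mem_fx.2 ((t5 _).trans (by simp [this])))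
  rw [t3, k, pow_le_pow_iff_right₀ hp.out.one_lt] at t6
  interval_cases j
  · exact t4 k
  have t7 := (t5 ⟨w, h1⟩).symm.trans (mem_fx.1 (eq_top_of_card_eq _ (k.trans cQ.symm) ▸ mem_top _))
  rw [map_inv, show act τ.2.2 ⟨w, h1⟩ = ⟨w, h1⟩ from Subtype.ext (mem_cen.1 τ.2.1),
    inv_eq_iff_mul_eq_one, Subtype.ext_iff] at t7
  exact h4 (mem_bot.1 (by simpa [sq, show w * w = 1 from t7] using mem_zp_pow hp.out h5 two))

theorem Mt.cyc (h : Mt F) (hP : Sy p P) (hQ : Sy p Q) (hq : q.Prime) {u z : G} (d : DD p P u z) :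
    q ∣ nI P ↔ q ∣ nI Q := by
  obtain ⟨a, b, nab⟩ : ∃ a b : Q, ¬Commute a b := by
    by_contra! k
    exact h.mix hP hQ d fun x hx => (cen_iff (x := ⟨x, hx⟩)).2 (k _)
  obtain ⟨u', z', d'⟩ := h.dq hP hQ d nab
  exact ⟨h.dd hP hQ hq d d', h.symm.dd hQ hP hq d' d⟩

end Pool.Agent.MP_abb977_al.H94
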