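import Mathlib

/-! Completeness of irreducible characters, for matrix representations. -/

namespace Pool.Agent.MP_abb977_al.H94

open scoped MonoidAlgebra

/-- A matrix representation is irreducible: nonzero, with no proper nonzero invariant subspace. -/
def Irred {Γ : Type} [Group Γ] {d : ℕ} (ρ : Γ →* Matrix (Fin d) (Fin d) ℂ) : Prop :=
  d ≠ 0 ∧ ∀ W : Submodule ℂ (Fin d → ℂ),
    (∀ g, ∀ w ∈ W, (ρ g).mulVec w ∈ W) → W = ⊥ ∨ W = ⊤

/-- Schur's lemma (any group). -/
theorem schur {Γ : Type} [Group Γ] {d : ℕ} {ρ : Γ →* Matrix (Fin d) (Fin d) ℂ} (h : Irred ρ)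
    {T : Matrix (Fin d) (Fin d) ℂ} (hT : ∀ g, T * ρ g = ρ g * T) :
    ∃ c : ℂ, T = c • (1 : Matrix (Fin d) (Fin d) ℂ) := by
  have : NeZero d := ⟨h.1⟩
  obtain ⟨c, hc⟩ := Module.End.exists_eigenvalue (Matrix.toLin' T)
  refine ⟨c, ?_⟩
  have hW := h.2 (Module.End.eigenspace (Matrix.toLin' T) c) (fun g w hw => by
    rw [Module.End.mem_eigenspace_iff, Matrix.toLin'_apply] at hw ⊢
    rw [Matrix.mulVec_mulVec, hT, ← Matrix.mulVec_mulVec, hw, Matrix.mulVec_smul])
  rcases hW with hW | hW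
  · exact absurd hW hc
  · apply Matrix.toLin'.injective
    refine LinearMap.ext fun w => ?_
    have hw : w ∈ Module.End.eigenspace (Matrix.toLin' T) c := hW ▸ Submodule.mem_top
    rw [Module.End.mem_eigenspace_iff] at hw
    rw [hw]
    simp

/-- The linear representation attached to a matrix representation. -/
noncomputable def rp_rep {Γ : Type} [Group Γ] {d : ℕ} (ρ : Γ →* Matrix (Fin d) (Fin d) ℂ) :
    Representation ℂ Γ (Fin d → ℂ) :=
  (Matrix.toLinAlgEquiv' (R := ℂ) (n := Fin d)).toMulEquiv.toMonoidHom.comp ρ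

theorem rp_rep_apply {Γ : Type} [Group Γ] {d : ℕ} (ρ : Γ →* Matrix (Fin d) (Fin d) ℂ) (g : Γ) :
    rp_rep ρ g = Matrix.toLin' (ρ g) := rfl

theorem rp_char {Γ : Type} [Group Γ] {d : ℕ} (ρ : Γ →* Matrix (Fin d) (Fin d) ℂ) (g : Γ) :
    (rp_rep ρ).character g = (ρ g).trace := by
  rw [Representation.character, rp_rep_apply, Matrix.trace_toLin'_eq]

theorem rp_irr {Γ : Type} [Group Γ] {d : ℕ} {ρ : Γ →* Matrix (Fin d) (Fin d) ℂ} (h : Irred ρ) :
    (rp_rep ρ).IsIrreducible := by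
  have : NeZero d := ⟨h.1⟩
  have hnt : Nontrivial (Subrepresentation (rp_rep ρ)) := ⟨⊥, ⊤, fun he => by
    have h1 : (⊥ : Submodule ℂ (Fin d → ℂ)) = ⊤ := congrArg Subrepresentation.toSubmodule he
    exact bot_ne_top h1⟩
  refine ⟨fun W => ?_⟩
  rcases h.2 W.toSubmodule (fun g w hw => W.apply_mem_toSubmodule g hw) with h1 | h1
  · exact Or.inl (Subrepresentation.toSubmodule_injective h1)
  · exact Or.inr (Subrepresentation.toSubmodule_injective h1)

theorem rp_orth {Q : Type} [Group Q] [Fintype Q] {d e : ℕ} {ρ : Q →* Matrix (Fin d) (Fin d) ℂ}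
    {σ : Q →* Matrix (Fin e) (Fin e) ℂ} (hρ : Irred ρ) (hσ : Irred σ) :
    (∑ g, (ρ g).trace * (σ g⁻¹).trace = 0 ∧ IsEmpty ((rp_rep σ).Equiv (rp_rep ρ))) ∨
      (∑ g, (ρ g).trace * (σ g⁻¹).trace = Nat.card Q ∧
        Nonempty ((rp_rep σ).Equiv (rp_rep ρ))) := by
  have hc : (Nat.card Q : ℂ) ≠ 0 := Nat.cast_ne_zero.2 Nat.card_pos.ne'
  have := invertibleOfNonzero hc
  have := rp_irr hρ
  have := rp_irr hσ
  have h := Representation.char_orthonormal (rp_rep ρ) (rp_rep σ)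
  simp only [rp_char] at h
  rcases isEmpty_or_nonempty ((rp_rep σ).Equiv (rp_rep ρ)) with h1 | h1
  · rw [if_neg (not_nonempty_iff.2 h1)] at h
    exact Or.inl ⟨(mul_eq_zero.1 h).resolve_left (inv_ne_zero hc), h1⟩
  · rw [if_pos h1, inv_mul_eq_one₀ hc] at h
    exact Or.inr ⟨h.symm, h1⟩

theorem rp_self {Q : Type} [Group Q] [Fintype Q] {d : ℕ} {ρ : Q →* Matrix (Fin d) (Fin d) ℂ}
    (hρ : Irred ρ) : ∑ g, (ρ g).trace * (ρ g⁻¹).trace = Nat.card Q := by
  rcases rp_orth hρ hρ with h | h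
  · exact (h.2.false (Representation.Equiv.refl _)).elim
  · exact h.1

/-- A class function orthogonal to an irreducible character acts as zero. -/
theorem rp_zero_of_orth {Q : Type} [Group Q] [Fintype Q] {e : ℕ}
    {σ : Q →* Matrix (Fin e) (Fin e) ℂ} (hσ : Irred σ) {F : Q → ℂ}
    (hF : ∀ g h, F (h * g * h⁻¹) = F g) (h0 : ∑ g, F g * (σ g⁻¹).trace = 0) :
    ∑ g, F g • σ g⁻¹ = 0 := by
  obtain ⟨c, hc⟩ := schur hσ (T := ∑ g, F g • σ g⁻¹) (fun h => by
    rw [Finset.sum_mul, Finset.mul_sum]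
    refine (Equiv.sum_comp (MulAut.conj h).toEquiv fun g => F g • σ g⁻¹ * σ h).symm.trans ?_
    refine Finset.sum_congr rfl fun g _ => ?_
    change F (h * g * h⁻¹) • σ (h * g * h⁻¹)⁻¹ * σ h = σ h * F g • σ g⁻¹
    rw [hF, smul_mul_assoc, mul_smul_comm, ← map_mul, ← map_mul]
    have : (h * g * h⁻¹)⁻¹ * h = h * g⁻¹ := by group
    rw [this])
  have h1 := congrArg Matrix.trace hc
  rw [Matrix.trace_sum] at h1
  simp only [Matrix.trace_smul, smul_eq_mul, Matrix.trace_one, Fintype.card_fin] at h1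
  rw [h0] at h1
  have h2 : c = 0 := (mul_eq_zero.1 h1.symm).resolve_right (Nat.cast_ne_zero.2 hσ.1)
  rw [hc, h2, zero_smul]

theorem rp_simple {Q : Type} [Group Q] (M : Type) [AddCommGroup M] [Module ℂ M] [Module ℂ[Q] M]
    [IsScalarTower ℂ ℂ[Q] M] [FiniteDimensional ℂ M] [IsSimpleModule ℂ[Q] M] :
    ∃ (e : ℕ) (σ : Q →* Matrix (Fin e) (Fin e) ℂ)
      (φ : Module.End ℂ M ≃ₐ[ℂ] Matrix (Fin e) (Fin e) ℂ), Irred σ ∧
        ∀ g, σ g = φ (Algebra.lsmul ℂ ℂ M (MonoidAlgebra.of ℂ Q g)) := by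
  have := IsSimpleModule.nontrivial ℂ[Q] M
  let b := Module.finBasis ℂ M
  let φ := LinearMap.toMatrixAlgEquiv b
  let σ : Q →* Matrix (Fin (Module.finrank ℂ M)) (Fin (Module.finrank ℂ M)) ℂ :=
    (φ.toMulEquiv.toMonoidHom.comp
      (Algebra.lsmul ℂ ℂ M : ℂ[Q] →ₐ[ℂ] Module.End ℂ M).toRingHom.toMonoidHom).comp
      (MonoidAlgebra.of ℂ Q)
  refine ⟨_, σ, φ, ⟨Module.finrank_pos.ne', fun W hW => ?_⟩, fun g => rfl⟩
  let N : Submodule ℂ[Q] M :=
    { carrier := {v | b.equivFun v ∈ W}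
      add_mem' := fun {x y} hx hy => by
        change b.equivFun (x + y) ∈ W
        rw [map_add]
        exact W.add_mem hx hy
      zero_mem' := by
        change b.equivFun 0 ∈ W
        rw [map_zero]
        exact W.zero_mem
      smul_mem' := fun a v hv => by
        change b.equivFun (a • v) ∈ W
        induction a using MonoidAlgebra.induction_on with
        | of g =>
          have h1 := hW g _ hv
          have h2 : (σ g).mulVec (b.equivFun v) =
              b.equivFun (MonoidAlgebra.of ℂ Q g • v) :=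
            LinearMap.toMatrix_mulVec_repr b b
              (Algebra.lsmul ℂ ℂ M (MonoidAlgebra.of ℂ Q g)) v
          rwa [h2] at h1
        | add x y hx hy =>
          rw [add_smul, map_add]
          exact W.add_mem hx hy
        | smul r x hx =>
          rw [smul_assoc, map_smul]
          exact W.smul_mem r hx }
  have hN : ∀ w, w ∈ W ↔ b.equivFun.symm w ∈ N := fun w => by
    change _ ↔ b.equivFun (b.equivFun.symm w) ∈ W
    rw [LinearEquiv.apply_symm_apply]
  rcases eq_bot_or_eq_top N with h | h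
  · refine Or.inl (eq_bot_iff.2 fun w hw => ?_)
    rw [hN, h, Submodule.mem_bot] at hw
    exact (Submodule.mem_bot ℂ).2 (b.equivFun.symm.map_eq_zero_iff.1 hw)
  · refine Or.inr (eq_top_iff.2 fun w _ => ?_)
    rw [hN, h]
    exact Submodule.mem_top

/-- A function whose convolution operator vanishes in all irreducible representations is zero. -/
theorem rp_complete {Q : Type} [Group Q] [Fintype Q] {F : Q → ℂ}
    (h : ∀ (e : ℕ) (σ : Q →* Matrix (Fin e) (Fin e) ℂ), Irred σ → ∑ g, F g • σ g⁻¹ = 0) :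
    F = 0 := by
  classical
  have : NeZero (Nat.card Q : ℂ) := ⟨Nat.cast_ne_zero.2 Nat.card_pos.ne'⟩
  let a : ℂ[Q] := ∑ g, F g • MonoidAlgebra.of ℂ Q g⁻¹
  have key : ∀ v : ℂ[Q], v ∈ sSup {m : Submodule ℂ[Q] ℂ[Q] | IsSimpleModule ℂ[Q] m} →
      a * v = 0 := by
    intro v hv
    rw [sSup_eq_iSup'] at hv
    refine Submodule.iSup_induction _ (motive := fun v => a * v = 0) hv ?_ (mul_zero a)
      fun x y hx hy => by rw [mul_add, hx, hy, add_zero]
    rintro ⟨m, hm⟩ v hv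
    have : IsSimpleModule ℂ[Q] m := hm
    have : FiniteDimensional ℂ m :=
      Module.Finite.of_injective (m.subtype.restrictScalars ℂ) m.injective_subtype
    obtain ⟨e, σ, φ, hσ, hφ⟩ := rp_simple (Q := Q) m
    have h1 := h e σ hσ
    have h2 : φ (Algebra.lsmul ℂ ℂ m a) = 0 := by
      rw [← h1]
      simp only [a, map_sum, map_smul, hφ]
    have h3 : Algebra.lsmul ℂ ℂ m a = 0 := φ.injective (by rw [h2, map_zero])
    have h4 := congrArg (fun f : Module.End ℂ m => ((f ⟨v, hv⟩ : m) : ℂ[Q])) h3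
    exact h4
  have ha : a = 0 := by
    have := key 1 (by rw [IsSemisimpleModule.sSup_simples_eq_top]; exact Submodule.mem_top)
    rwa [mul_one] at this
  funext g
  have h5 := congrArg (fun x : ℂ[Q] => x.coeff g⁻¹) ha
  simpa [a, Finsupp.single_apply] using h5

end Pool.Agent.MP_abb977_al.H94
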