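import Pool.Agent.MP_abb977_al.H94.Char

/-! What two groups with the same character table have in common. -/

namespace Pool.Agent.MP_abb977_al.H94

open Subgroup Polynomial Finset

/-- congruence of two values -/
def Cg {k : Type} [CommRing k] (ζ : ℂ) (z : k) (a b : ℂ) : Prop :=
  ∃ f f' : ℤ[X], a = aeval ζ f ∧ b = aeval ζ f' ∧ aeval z f = aeval z f'

theorem cg_iff {k : Type} [CommRing k] {ζ : ℂ} {z : k} (hz : Sp ζ z) (f f' : ℤ[X]) :
    Cg ζ z (aeval ζ f) (aeval ζ f') ↔ aeval z f = aeval z f' :=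
  ⟨fun ⟨_, _, h1, h2, h3⟩ => (hz _ _ h1).trans (h3.trans (hz _ _ h2).symm),
    fun h => ⟨f, f', rfl, rfl, h⟩⟩

variable {G H : Type} [Group G] [Group H]

theorem cg_pow {r : ℕ} [Fact r.Prime] {k : Type} [Field k] [CharP k r] {ζ : ℂ} {z : k}
    (hz : Sp ζ z) {n : ℕ} (hn : n ≠ 0) (hζ : IsPrimitiveRoot ζ n) (hG : ∀ g : G, g ^ n = 1)
    {χ : G → ℂ} (h : χ ∈ Irr G) (g g' : G) (N : ℕ) :
    Cg ζ z (χ (g ^ r ^ N)) (χ (g' ^ r ^ N)) ↔ Cg ζ z (χ g) (χ g') := by
  obtain ⟨f, hf⟩ := Irr.val h hn (hG g) hζ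
  obtain ⟨f', hf'⟩ := Irr.val h hn (hG g') hζ
  have k1 : ∀ f : ℤ[X], aeval (z ^ r ^ N) f = iterateFrobenius k r N (aeval z f) := fun f =>
    aeval_algHom_apply (iterateFrobenius k r N).toIntAlgHom z f
  have e := hf 1
  have e' := hf' 1
  rw [pow_one, pow_one] at e e'
  rw [hf, hf', e, e', ← expand_aeval, ← expand_aeval _ f', cg_iff hz, cg_iff hz, expand_aeval,
    expand_aeval, k1, k1]
  exact (iterateFrobenius k r N).injective.eq_iff

variable [Fintype G]

open Classical in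
theorem col' [Fintype (Irr G)] (g y : G) : ∑ χ : Irr G, χ.1 g * χ.1 y⁻¹ =
    if IsConj y g then (cz ⊤ y : ℂ) else 0 := by
  rw [← col g y]
  exact (sum_subtype _ (fun _ => Irr.finite.mem_toFinset) fun χ : G → ℂ => χ g * χ y⁻¹).symm

theorem sepc {x y : G} (h : ∀ χ ∈ Irr G, χ x = χ y) : IsConj x y := by
  by_contra k
  have h1 := col x x
  rw [sum_congr rfl fun χ hχ => by rw [h χ (Irr.finite.mem_toFinset.1 hχ)], col y x, if_neg k,
    if_pos (IsConj.refl x)] at h1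
  exact Nat.cast_ne_zero.2 (cz_pos ⊤ x).ne' h1.symm

theorem sep {r : ℕ} [Fact r.Prime] {k : Type} [Field k] [CharP k r] {ζ : ℂ} {z : k}
    (hz : Sp ζ z) {n : ℕ} (hn : n ≠ 0) (hζ : IsPrimitiveRoot ζ n) (hG : ∀ g : G, g ^ n = 1)
    {m : ℕ} (hm : m.Coprime r) {x y : G} (hx : x ^ m = 1) (hy : y ^ m = 1)
    (h : ∀ χ ∈ Irr G, Cg ζ z (χ x) (χ y)) : IsConj x y := by
  classical
  by_contra hxy
  have := Irr.finite (G := G).fintype
  obtain ⟨S⟩ : Nonempty (Sylow r (centralizer {x})) := inferInstance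
  have := Fintype.ofFinite S
  let ι : S →* G := (centralizer {x}).subtype.comp S.1.subtype
  have hι : ∀ s, Commute x (ι s) := fun s => (mem_centralizer_singleton_iff.1 s.1.2).symm
  choose a ha using fun χ : Irr G => Irr.avg χ.2 hn (hG x⁻¹) hζ ι fun s => (hι s).inv_left
  choose f f' hf hf' hff using fun χ : Irr G => h χ.1 χ.2
  have key : ∀ (w : G) (g : Irr G → ℤ[X]), w ^ m = 1 → (∀ χ : Irr G, χ.1 w = aeval ζ (g χ)) →
      Fintype.card S * aeval ζ (∑ χ, g χ * a χ) = if IsConj x w then (cz ⊤ x : ℂ) else 0 := by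
    intro w g hw hg
    have e : ∀ s : S, x⁻¹ * ι s = (ι s⁻¹ * x)⁻¹ := fun s => by simp
    simp only [map_sum, map_mul, mul_sum, mul_left_comm (Fintype.card S : ℂ), ← ha, ← hg, e]
    rw [sum_comm, sum_eq_single 1]
    · simpa using col' w x
    · intro s _ hs
      rw [col', if_neg fun c => hs ?_]
      have c1 := c.pow m
      rw [hw, isConj_one_left, (hι s⁻¹).symm.mul_pow, hx, mul_one, ← map_pow,
        map_eq_one_iff ι fun _ _ h => Subtype.ext (Subtype.ext h), inv_pow,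
        inv_eq_one] at c1
      obtain ⟨j, hj⟩ := S.isPGroup' s
      exact (pow_eq_one_iff_of_coprime (hm.pow_right j)).1 ⟨c1, hj⟩
    · simp
  have hS : (Fintype.card S : ℂ) ≠ 0 := Nat.cast_ne_zero.2 Fintype.card_ne_zero
  have k1 := key x f hx hf
  have k2 := key y f' hy hf'
  rw [if_pos (IsConj.refl x), cz, top_inf_eq, ← S.1.card_mul_index, Nat.cast_mul,
    Nat.card_eq_fintype_card] at k1
  rw [if_neg hxy] at k2
  have k3 := hz _ (S.1.index : ℕ) ((mul_left_cancel₀ hS k1).trans (map_natCast _ _).symm)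
  have k4 := hz _ 0 (((mul_eq_zero.1 k2).resolve_left hS).trans (map_zero _).symm)
  simp only [map_sum, map_mul, hff, map_natCast, map_zero] at k3 k4
  exact S.not_dvd_index ((CharP.cast_eq_zero_iff k r _).1 (k3.symm.trans k4))

omit [Fintype G] in
theorem reg_pow {r n : ℕ} (hr : r.Prime) (hn : n ≠ 0) (hG : ∀ g : G, g ^ n = 1) :
    ∃ m : ℕ, m.Coprime r ∧ ∀ g : G, (g ^ r ^ n) ^ m = 1 := by
  obtain ⟨a, m, h1, h2⟩ := Nat.exists_eq_pow_mul_and_not_dvd hn r hr.ne_one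
  have : a ≤ n := (Nat.lt_pow_self hr.one_lt).le.trans (Nat.le_of_dvd (Nat.pos_of_ne_zero hn)
    ⟨m, h2⟩)
  refine ⟨m, (hr.coprime_iff_not_dvd.2 h1).symm, fun g => ?_⟩
  obtain ⟨c, hc⟩ := pow_dvd_pow r this
  rw [← pow_mul, hc, mul_right_comm, ← h2, pow_mul, hG, one_pow]

theorem sec_iff {r : ℕ} [Fact r.Prime] {k : Type} [Field k] [CharP k r] {ζ : ℂ} {z : k}
    (hz : Sp ζ z) {n : ℕ} (hn : n ≠ 0) (hζ : IsPrimitiveRoot ζ n) (hG : ∀ g : G, g ^ n = 1)
    (g g' : G) : IsConj (g ^ r ^ n) (g' ^ r ^ n) ↔ ∀ χ : Irr G, Cg ζ z (χ.1 g) (χ.1 g') := by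
  obtain ⟨m, hm, h⟩ := reg_pow (r := r) Fact.out hn hG
  refine ⟨fun c χ => (cg_pow hz hn hζ hG χ.2 g g' n).1 ?_, fun c =>
    sep hz hn hζ hG hm (h g) (h g') fun χ hχ => (cg_pow hz hn hζ hG hχ g g' n).2 (c ⟨χ, hχ⟩)⟩
  obtain ⟨f, hf⟩ := Irr.val χ.2 hn (hG (g' ^ r ^ n)) hζ
  exact ⟨f, f, by simpa [Irr.conj χ.2 c] using hf 1, by simpa using hf 1, rfl⟩

/-- a bijection that matches classes, Galois conjugates and sections -/
structure Mt (F : G ≃ H) : Prop where
  conj : ∀ g g', IsConj (F g) (F g') ↔ IsConj g g'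
  one : F 1 = 1
  gal : ∀ g s, s.Coprime (Nat.card G) → IsConj (F (g ^ s)) (F g ^ s)
  sec : ∀ r : ℕ, r.Prime → ∀ g g', IsConj (F g ^ r ^ Nat.card G) (F g' ^ r ^ Nat.card G) ↔
    IsConj (g ^ r ^ Nat.card G) (g' ^ r ^ Nat.card G)

theorem exists_mt [Fintype H] (e : ConjClasses G ≃ ConjClasses H) (f : Irr G ≃ Irr H)
    (h : ∀ χ g y, e (ConjClasses.mk g) = ConjClasses.mk y → (f χ).1 y = χ.1 g) :
    ∃ F : G ≃ H, Mt F := by
  classical
  have := Irr.finite (G := G).fintype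
  have := Irr.finite (G := H).fintype
  have gal : ∀ n s, n ≠ 0 → s.Coprime n → ∀ χ g y, g ^ n = 1 → y ^ n = 1 →
      e (ConjClasses.mk g) = ConjClasses.mk y → (f χ).1 (y ^ s) = χ.1 (g ^ s) := by
    intro n s hn hs χ g y hg hy k
    have hζ := Complex.isPrimitiveRoot_exp n hn
    obtain ⟨a, ha⟩ := Irr.val χ.2 hn hg hζ
    obtain ⟨b, hb⟩ := Irr.val (f χ).2 hn hy hζ
    rw [ha, hb]
    exact sp_pow hn hζ hs _ _ (by simpa [← h χ g y k] using (hb 1).symm.trans (by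
      simpa [h χ g y k] using ha 1))
  have cen : ∀ g y, e (ConjClasses.mk g) = ConjClasses.mk y → cz ⊤ g = cz ⊤ y := by
    intro g y k
    obtain ⟨s, hs⟩ := Nat.exists_eq_succ_of_ne_zero
      (mul_ne_zero (Nat.card_pos (α := G)).ne' (Nat.card_pos (α := H)).ne')
    have hg : g ^ (s + 1) = 1 := by
      rw [← Nat.succ_eq_add_one, ← hs, pow_mul, pow_card_eq_one', one_pow]
    have hy : y ^ (s + 1) = 1 := by
      rw [← Nat.succ_eq_add_one, ← hs, pow_mul', pow_card_eq_one', one_pow]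
    have h1 := col' g g
    have h2 := col' y y
    rw [if_pos (IsConj.refl _)] at h1 h2
    rw [← Nat.cast_inj (R := ℂ), ← h1, ← h2, ← f.sum_comp]
    refine sum_congr rfl fun χ _ => ?_
    rw [h χ g y k, inv_eq_of_mul_eq_one_left ((pow_succ g s).symm.trans hg),
      inv_eq_of_mul_eq_one_left ((pow_succ y s).symm.trans hy),
      gal (s + 1) s s.succ_ne_zero (by simp) χ g y hg hy k]
  have one : e (ConjClasses.mk 1) = ConjClasses.mk 1 := by
    obtain ⟨y, hy⟩ := ConjClasses.mk_surjective (e (ConjClasses.mk 1))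
    rw [← hy, ConjClasses.mk_eq_mk_iff_isConj]
    by_contra k
    have h1 := col' y 1
    have d : ∀ {K : Type} [Group K] (χ : Irr K), ∃ d : ℕ, 0 < d ∧ χ.1 1 = d := fun χ => by
      obtain ⟨V, hV, e⟩ := χ.2
      refine ⟨Module.finrank ℂ V, Nat.pos_of_ne_zero fun z => ?_, by rw [← e, FDRep.char_one]⟩
      have : Subsingleton V := Module.finrank_zero_iff.1 z
      exact CategoryTheory.id_nonzero V (by ext; exact Subsingleton.elim _ _)
    choose a ha ha' using d (K := G)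
    choose b hb hb' using d (K := H)
    rw [if_neg fun c => k c.symm, ← f.sum_comp] at h1
    simp only [h _ 1 y hy.symm, inv_one, ha', hb', ← Nat.cast_mul, ← Nat.cast_sum,
      Nat.cast_eq_zero, sum_eq_zero_iff] at h1
    have h2 := col' (1 : G) 1
    rw [if_pos (IsConj.refl _), sum_eq_zero fun χ _ =>
      absurd (h1 χ (mem_univ _)) (mul_pos (ha _) (hb _)).ne'] at h2
    exact Nat.cast_ne_zero.2 (cz_pos ⊤ _).ne' h2.symm
  have hc : Nat.card G = Nat.card H := by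
    simpa [cz, centralizer_eq_top_iff_subset.2] using cen 1 1 one
  have fib : ∀ c, Nonempty ({a // e (ConjClasses.mk a) = c} ≃ {b // ConjClasses.mk b = c}) := by
    intro c
    obtain ⟨y, rfl⟩ := ConjClasses.mk_surjective c
    obtain ⟨g, hg⟩ := ConjClasses.mk_surjective (e.symm (ConjClasses.mk y))
    have k : e (ConjClasses.mk g) = ConjClasses.mk y := by rw [hg, e.apply_symm_apply]
    have h1 := card_cj ⊤ g
    rw [card_top, hc, ← card_top, ← card_cj ⊤ y, cen g y k] at h1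
    refine Finite.card_eq.1 (Eq.trans ?_ ((Nat.eq_of_mul_eq_mul_right (cz_pos _ _) h1).trans ?_))
    · refine Nat.card_congr (Equiv.subtypeEquivRight fun a => ?_)
      rw [← k, e.apply_eq_iff_eq, eq_comm, ConjClasses.mk_eq_mk_iff_isConj]
      exact cj_top.symm
    · refine Nat.card_congr (Equiv.subtypeEquivRight fun a => ?_)
      rw [eq_comm, ConjClasses.mk_eq_mk_iff_isConj]
      exact cj_top
  let F := Equiv.ofFiberEquiv fun c => (fib c).some
  have hF : ∀ g, e (ConjClasses.mk g) = ConjClasses.mk (F g) := fun g =>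
    (Equiv.ofFiberEquiv_map (fun c => (fib c).some) g).symm
  have hn : Nat.card G ≠ 0 := Nat.card_pos.ne'
  have hH : ∀ y : H, y ^ Nat.card G = 1 := fun y => by rw [hc, pow_card_eq_one']
  refine ⟨F, fun g g' => ?_, ?_, fun g s hs => sepc fun ψ hψ => ?_, fun r hr g g' => ?_⟩
  · rw [← ConjClasses.mk_eq_mk_iff_isConj, ← hF, ← hF, e.apply_eq_iff_eq,
      ConjClasses.mk_eq_mk_iff_isConj]
  · exact isConj_one_left.1 (ConjClasses.mk_eq_mk_iff_isConj.1 ((hF 1).symm.trans one))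
  · obtain ⟨χ, hχ⟩ := f.surjective ⟨ψ, hψ⟩
    have h1 := gal _ s hn hs χ g (F g) pow_card_eq_one' (hH _) (hF g)
    rw [← h χ _ _ (hF _), hχ] at h1
    exact h1.symm
  · have := Fact.mk hr
    have hζ := Complex.isPrimitiveRoot_exp _ hn
    obtain ⟨z, hz⟩ := sp_mod hn hζ r
    rw [sec_iff hz hn hζ hH, sec_iff hz hn hζ fun _ => pow_card_eq_one', f.surjective.forall]
    simp only [h _ _ _ (hF _)]

end Pool.Agent.MP_abb977_al.H94
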