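import Pool.Agent.MP_abb977_al.H94.Core

/-! Transfer of the primes of the normaliser quotient. -/

namespace Pool.Agent.MP_abb977_al.H94

open Subgroup

variable {G H : Type} [Group G] [Group H] {F : G ≃ H} {p q : ℕ} {P : Subgroup G} {Q : Subgroup H}

/-- conjugation by an element of the normaliser -/
def act {n : G} (hn : n ∈ normalizer (P : Set G)) : P →* P :=
  (P.normalizerMonoidHom ⟨n, hn⟩).toMonoidHom

theorem act_coe {n : G} (hn : n ∈ normalizer (P : Set G)) (x : P) :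
    (act hn x).1 = n * x * n⁻¹ := rfl

theorem act_co (pP : IsPGroup p P) {n : G} (hn : n ∈ normalizer (P : Set G)) {t : ℕ} (ht : ¬p ∣ t)
    (h : P ≤ centralizer {n ^ t}) : Co p (act hn) :=
  ⟨pP, t, ht, fun x => Subtype.ext ((Function.Semiconj.iterate_right (f := Subtype.val)
    (ga := act hn) (gb := (MulAut.conj n).toMonoidHom) (fun _ => rfl) t x).trans
      ((conj_it n t _).trans (mul_inv_eq_iff_eq_mul.2
        (mem_centralizer_singleton_iff.1 (h x.2)).symm)))⟩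

theorem act_fix {n : G} (hn : n ∈ normalizer (P : Set G)) {x : P} :
    act hn x = x ↔ x.1 ∈ centralizer {n} := by
  rw [Subtype.ext_iff, act_coe, mul_inv_eq_iff_eq_mul, mem_centralizer_singleton_iff, eq_comm]

theorem mem_zp_pow (hq : q.Prime) {y : G} (hy : y ^ q = 1) {n : ℕ} (hn : ¬q ∣ n) :
    y ∈ zpowers (y ^ n) :=
  mem_zpowers_pow_iff.2 ((hq.coprime_iff_not_dvd.2 hn).symm.coprime_dvd_right
    (orderOf_dvd_of_pow_eq_one hy))

variable [hp : Fact p.Prime] [Fintype G] [Fintype H]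

omit [Fintype H] in
theorem DD.chg {u z w : G} (h : DD p P u z) (hw : w ∈ zpowers u) (w1 : w ≠ 1) (wp : w ^ p = 1) :
    DD p P u w :=
  { h with
    zu := hw
    z1 := w1
    zp := wp
    com := fun x hx y hy => zpowers_le.2 (cyc_uniq hw h.zu wp w1 h.zp) (h.com x hx y hy) }

theorem Mt.cc (h : Mt F) {z : G} {z' : H} (c : IsConj (F z) z') :
    Nat.card (centralizer {z'}) = Nat.card (centralizer {z}) := by
  have := (cj_top.2 c).cz_eq.symm.trans (h.cz z)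
  rwa [H94.cz, H94.cz, top_inf_eq, top_inf_eq] at this

omit hp [Fintype G] [Fintype H] in
theorem Mt.back (h : Mt F) {x : G} {y : H} (c : IsConj (F x) y) : IsConj (F.symm y) x := by
  rw [← h.conj]
  simpa using c.symm

theorem Mt.cp (h : Mt F) (hP : Sy p P) (hQ : Sy p Q) {u : G} (hu : u ∈ P)
    (c : P ≤ centralizer {u}) :
    ∃ u' ∈ Q, IsConj (F u) u' ∧ Q ≤ centralizer {u'} ∧ orderOf u' = orderOf u := by
  obtain ⟨u', h1, h2⟩ := h.central hP hQ c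
  have pu := pe_of_mem hP.pg hu
  have pu' := (h.pe hp.out.ne_zero pu).cj (cj_top.2 h1)
  refine ⟨u', hQ.mem pu' h2, h1, h2, Nat.dvd_antisymm ?_ ?_⟩
  · obtain ⟨k, hk⟩ := pu
    obtain ⟨j, -, e⟩ := (Nat.dvd_prime_pow hp.out).1 (orderOf_dvd_of_pow_eq_one hk)
    exact e ▸ orderOf_dvd_of_pow_eq_one (h.order hQ h1 h2 (e ▸ pow_orderOf_eq_one u))
  · obtain ⟨k, hk⟩ := pu'
    obtain ⟨j, -, e⟩ := (Nat.dvd_prime_pow hp.out).1 (orderOf_dvd_of_pow_eq_one hk)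
    exact e ▸ orderOf_dvd_of_pow_eq_one (h.symm.order hP (h.back h1) c (e ▸ pow_orderOf_eq_one u'))

theorem Mt.pull (h : Mt F) (hP : Sy p P) {x : H} (hx : H94.pe p x) : ∃ y ∈ P, IsConj (F y) x := by
  obtain ⟨c, -, hc⟩ := syl_conj (Y := ⊤) le_top le_top hP.pg (h.symm.pe hp.out.ne_zero hx).pg
    (hP.rel le_top)
  exact ⟨_, hc _ (mem_zpowers _), h.symm.back (isConj_iff.2 ⟨c, rfl⟩)⟩

/-- if `P` is abelian, every element of `Q` has a partner of the same order -/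
theorem Mt.ab (h : Mt F) (hP : Sy p P) (hQ : Sy p Q) (c : ∀ x ∈ P, P ≤ centralizer {x}) {x : H}
    (hx : x ∈ Q) : ∃ y ∈ P, orderOf x = orderOf y ∧ ∃ w, IsConj w x ∧ Q ≤ centralizer {w} := by
  obtain ⟨y, hy, e⟩ := h.pull hP (pe_of_mem hQ.pg hx)
  obtain ⟨w, -, h1, h2, h3⟩ := h.cp hP hQ hy (c y hy)
  obtain ⟨t, rfl⟩ := isConj_iff.1 (h1.symm.trans e)
  exact ⟨y, hy, h3 ▸ MulEquiv.orderOf_eq (MulAut.conj t) w, w, isConj_iff.2 ⟨t, rfl⟩, h2⟩

theorem Mt.red (h : Mt F) (hP : Sy p P) (hQ : Sy p Q) (hq : q.Prime) (d : q ∣ nI P)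
    (k : ¬p ∣ q → ∀ y ∈ normalizer (P : Set G), y ^ q = 1 → ¬P ≤ centralizer {y} → q ∣ nI Q) :
    q ∣ nI Q := by
  have := Fact.mk hq
  have qp : q ≠ p := fun e => hP.nI (e ▸ d)
  obtain ⟨y, hy⟩ := exists_prime_orderOf_dvd_card' (G := normalizer (P : Set G)) q
    (d.trans (Dvd.intro _ (card_rel le_normalizer)))
  rw [← orderOf_coe] at hy
  by_cases c : P ≤ centralizer {y.1}
  · exact h.cent hP hQ hq qp (hy ▸ pow_orderOf_eq_one _) (fun e => hq.ne_one (by simp [← hy, e])) c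
  · exact k (fun e => qp ((Nat.prime_dvd_prime_iff_eq hp.out hq).1 e).symm) y y.2
      (hy ▸ pow_orderOf_eq_one _) c

theorem Mt.dz (h : Mt F) (hP : Sy p P) (hQ : Sy p Q) {u z : G} (d : DD p P u z) :
    ∃ z' ∈ Q, IsConj (F z) z' ∧ Q ≤ centralizer {z'} ∧ z' ≠ 1 ∧ z' ^ p = 1 :=
  let ⟨z', h1, h2, h3, _⟩ := h.cp hP hQ (d.ule d.zu) d.le
  ⟨z', h1, h2, h3, h.ne_one d.z1 h2, by simpa using h.order hQ h2 h3 (k := 1) (by simpa using d.zp)⟩

theorem Mt.dd (h : Mt F) (hP : Sy p P) (hQ : Sy p Q) (hq : q.Prime) {u z : G} (dP : DD p P u z)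
    {u' z' : H} (dQ : DD p Q u' z') (d : q ∣ nI P) : q ∣ nI Q := by
  refine h.red hP hQ hq d fun qp y hy yq ny => ?_
  obtain ⟨s, hs⟩ := nat_pow (cyc_uniq dP.zu (dP.cju hy dP.zu) dP.zp dP.z1
    (by rw [conj_pow, dP.zp]; simp))
  by_cases e : z ^ s = z
  swap
  · exact h.eig hP hQ hq dP.le dP.zp yq hs e
  have hz : y ∈ centralizer {z} := mem_cen.2 (hs.trans e)
  obtain ⟨w, h1, h2, h3, h4, h5⟩ := h.dz hP hQ dP
  obtain ⟨n, e1, -, k⟩ := dP.num hP
  obtain ⟨n', e2, k', -⟩ := (dQ.chg ((dQ.cen w h1).1 h3) h4 h5).num hQ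
  have o : orderOf u' = orderOf u := Nat.eq_of_mul_eq_mul_right (pow_pos hp.out.pos 2)
    (by rw [← dP.card, ← dQ.card, Sy.card F hP hQ])
  rw [o, h.cc h2, ← h.rg_cen hp.out ⟨1, by simpa using dP.zp⟩ h2, mul_assoc] at e2
  rw [mul_assoc] at e1
  have ne : (p : ℚ) ^ 2 - 1 ≠ 0 := sub_ne_zero.2 (by
    exact_mod_cast (Nat.one_lt_pow two_ne_zero hp.out.one_lt).ne')
  refine Dvd.dvd.trans ?_ k'
  rw [Nat.cast_injective (mul_right_cancel₀ (right_ne_zero_of_mul (e1 ▸ ne)) (e2.trans e1.symm))]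
  by_contra c
  refine ny (cen_zp (fun x hx => mem_centralizer_singleton_iff.2 ?_) (mem_zp_pow hq yq c))
  have k1 := k y hy hz x hx
  have := ctriv (n := y ^ n) (v := x) qp (pe_of_mem hP.pg (dP.ule (dP.zle k1)))
    (by rw [pow_right_comm, yq]; simp)
    (by rw [mem_centralizer_singleton_iff.1 (dP.cu (dP.zle k1) hx)]; simp)
    (fix_zp (pow_mem hz n) k1)
  rw [mul_inv_eq_one, mul_inv_eq_iff_eq_mul] at this
  exact this.symm

theorem Mt.dq (h : Mt F) (hP : Sy p P) (hQ : Sy p Q) {u z : G} (d : DD p P u z) {a b : Q}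
    (nab : ¬Commute a b) : ∃ u' z', DD p Q u' z' := by
  obtain ⟨u', h1, -, h3, h4⟩ := h.cp hP hQ d.mem (d.cu (mem_zpowers u))
  refine ⟨u', DD.of (u := ⟨u', h1⟩) hQ.pg (cen_iff.1 h3) (Nat.eq_of_mul_eq_mul_left
    (orderOf_pos u) ?_).le nab⟩
  rw [← d.card, ← Sy.card F hP hQ, ← h4, ← orderOf_mk u' h1, ← Nat.card_zpowers, card_mul_index]

omit [Fintype H] in
theorem three (hP : Sy p P) (c : ∀ x ∈ P, P ≤ centralizer {x}) {a b : P} (g : G2 a b) {k : ℕ}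
    (hc : Nat.card P = (p ^ k) ^ 2) (e : ∀ x : P, x ^ p ^ k = 1) :
    ∀ n ∈ ⊤ ⊓ normalizer (P : Set G), cz P n = 1 ∨ cz P n = p ^ k ∨ cz P n = Nat.card P := by
  intro n hn
  let _ : CommGroup P := { (inferInstance : Group P) with
    mul_comm := fun x y => cen_iff.1 (c x x.2) y }
  have := (act_co hP.pg hn.2 hP.nI (c _ (pow_nI hn.2))).three (rank_two g) hc e
  rwa [show (dl (act hn.2)).ker = (P ⊓ centralizer {n}).subgroupOf P from Subgroup.ext fun x => by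
    rw [mem_fx, act_fix, mem_subgroupOf, mem_inf, and_iff_right x.2],
    Nat.card_congr (subgroupOfEquivOfLe inf_le_left).toEquiv] at this

theorem Mt.abel (h : Mt F) (hP : Sy p P) (hQ : Sy p Q) (hq : q.Prime)
    (c : ∀ x ∈ P, P ≤ centralizer {x}) {a b : P} (g : G2 a b)
    (c' : ∀ x ∈ Q, Q ≤ centralizer {x}) {a' b' : Q} (g' : G2 a' b') (d : q ∣ nI P) :
    q ∣ nI Q := by
  refine h.red hP hQ hq d fun qp y hy yq ny => ?_
  let _ : CommGroup P := { (inferInstance : Group P) with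
    mul_comm := fun x y => cen_iff.1 (c x x.2) y }
  by_cases k : Eig p (act hy)
  · obtain ⟨u, s, h1, h2, h3⟩ := k
    exact h.eig hP hQ hq (c u u.2) (congrArg Subtype.val h1) yq (congrArg Subtype.val h2)
      fun e => h3 (Subtype.ext e)
  obtain ⟨k, hc, e⟩ := (act_co hP.pg hy qp (yq ▸ c 1 (one_mem P))).homo (rank_two g) (fun k => ny
    fun x hx => (act_fix hy (x := ⟨x, hx⟩)).1 (mem_fx.1 (mem_bot.1 (k ▸ ⟨_, rfl⟩)))) k
  have as : AS p ⊤ P := ⟨le_top, hP.pg, hP.rel le_top, c⟩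
  have as' : AS p ⊤ Q := ⟨le_top, hQ.pg, hQ.rel le_top, c'⟩
  have e1 := as.three (three hP c g hc e)
  have e2 := as'.three (three hQ c' g' ((Sy.card F hP hQ).trans hc) fun x => by
    obtain ⟨y, hy, k, -⟩ := h.ab hP hQ c x.2
    rw [← orderOf_dvd_iff_pow_eq_one, ← orderOf_coe, k, ← orderOf_mk y hy,
      orderOf_dvd_iff_pow_eq_one, e])
  rw [← h.kappa hp.out.ne_zero, ← h.rg_top hp.out, Sy.card F hP hQ, card_top, Mt.card F,
    mul_assoc] at e2
  rw [card_top, mul_assoc] at e1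
  have k1 : 1 < p ^ k := Nat.one_lt_pow (by
    rintro rfl
    exact ny fun x hx => by
      rw [show x = 1 by simpa using congrArg Subtype.val (e ⟨x, hx⟩)]
      exact one_mem _) hp.out.one_lt
  have ne : ((Nat.card P : ℚ) - 1) * (Nat.card P - (p ^ k : ℕ)) ≠ 0 := by
    rw [hc]
    refine mul_ne_zero (sub_ne_zero.2 ?_) (sub_ne_zero.2 ?_)
    · exact_mod_cast (Nat.one_lt_pow two_ne_zero k1).ne'
    · exact_mod_cast (lt_self_pow₀ k1 one_lt_two).ne'
  refine Dvd.dvd.trans ?_ (as'.cI_dvd.trans (rel_dvd (le_inf le_top le_normalizer) inf_le_right))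
  rw [Nat.cast_injective (mul_right_cancel₀ (right_ne_zero_of_mul (e1 ▸ ne)) (e2.trans e1.symm))]
  by_contra k
  exact ny (cen_zp (fun x hx => mem_centralizer_singleton_iff.2
    (pow_cI (X := ⊤) ⟨mem_top y, hy⟩ x hx)) (mem_zp_pow hq yq k))

theorem Mt.comm (h : Mt F) (hP : Sy p P) (hQ : Sy p Q) (c : ∀ x ∈ P, P ≤ centralizer {x})
    {a b : Q} (g : G2 a b) : Commute a b := by
  let _ : CommGroup P := { (inferInstance : Group P) with
    mul_comm := fun x y => cen_iff.1 (c x x.2) y }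
  obtain ⟨u, hu⟩ := Monoid.exists_orderOf_eq_exponent (G := P) Monoid.ExponentExists.of_finite
  obtain ⟨u', h1, -, h3, h4⟩ := h.cp hP hQ u.2 (c u u.2)
  refine g.ab hQ.pg (u := ⟨u', h1⟩) (cen_iff.1 h3) fun x j e => ?_
  obtain ⟨y, hy, k, -⟩ := h.ab hP hQ c x.2
  rw [← orderOf_dvd_iff_pow_eq_one, ← orderOf_coe] at e ⊢
  rw [h4, orderOf_coe, hu] at e
  rw [k, ← orderOf_mk y hy]
  exact (Monoid.order_dvd_exponent _).trans e

omit [Fintype G] in
theorem G2.abl {a b : P} (g : G2 a b) (c : Commute a b) : ∀ x ∈ P, P ≤ centralizer {x} :=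
  fun x hx => (cen_iff (x := ⟨x, hx⟩)).2 (g.comm c _)

theorem Mt.mc (h : Mt F) (hP : Sy p P) (hQ : Sy p Q) (hq : q.Prime) {a b : P}
    (nA : (zpowers a).Normal) (g : G2 a b) {a' b' : Q} (g' : G2 a' b') (d : q ∣ nI P) :
    q ∣ nI Q := by
  by_cases c : Commute a b
  · exact h.abel hP hQ hq (g.abl c) g (g'.abl (h.comm hP hQ (g.abl c) g')) g' d
  refine h.red hP hQ hq d fun qp y hy yq ny => ?_
  obtain ⟨u, s, h0, h1, h2, h3⟩ | ⟨u, h1, h2⟩ := met3 (act_co hP.pg hy qp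
    (yq ▸ fun x _ => mem_cen.2 (by simp))) nA g c (by
      by_contra! k
      exact ny fun x hx => (act_fix hy).1 (k ⟨x, hx⟩))
  · exact h.eig hP hQ hq (cen_iff.2 h0) (congrArg Subtype.val h1) yq (congrArg Subtype.val h2)
      fun e => h3 (Subtype.ext e)
  · obtain ⟨z, dP⟩ := DD.of hP.pg h1 h2 c
    obtain ⟨u', z', dQ⟩ := h.dq hP hQ dP fun k => c (h.symm.comm hQ hP (g'.abl k) g)
    exact h.dd hP hQ hq dP dQ d

end Pool.Agent.MP_abb977_al.H94
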