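import Pool.Agent.MP_abb977_al.H94.Tab
import Pool.Agent.MP_abb977_al.H94.Cnt
import Pool.Agent.MP_abb977_al.H94.Aut

/-! Group theoretic data that are visible in the character table. -/

namespace Pool.Agent.MP_abb977_al.H94

open Subgroup Finset

variable {G H : Type} [Group G] [Group H] {F : G ≃ H} {p q : ℕ}

omit [Group G] [Group H] in
theorem Mt.card (F : G ≃ H) : Nat.card H = Nat.card G := (Nat.card_congr F).symm

theorem Mt.symm (h : Mt F) : Mt F.symm := by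
  refine ⟨fun g g' => by rw [← h.conj]; simp, by rw [Equiv.symm_apply_eq, h.one],
    fun g s hs => ?_, fun r hr g g' => by rw [Mt.card F, ← h.sec r hr]; simp⟩
  rw [← h.conj]
  simpa using (h.gal (F.symm g) s (Mt.card F ▸ hs)).symm

theorem Mt.ne_one (h : Mt F) {g : G} {y : H} (hg : g ≠ 1) (c : IsConj (F g) y) : y ≠ 1 := by
  rintro rfl
  exact hg (F.injective ((isConj_one_left.1 c).trans h.one.symm))

omit [Group G] [Group H] in
theorem ncard_equiv (F : G ≃ H) {s : G → Prop} {t : H → Prop} (h : ∀ g, s g ↔ t (F g)) :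
    {g | s g}.ncard = {y | t y}.ncard := Nat.card_congr (F.subtypeEquiv h)

/-- order of the quotient of the normaliser -/
noncomputable def nI (A : Subgroup G) : ℕ := A.relIndex (normalizer A)

theorem pow_nI {A : Subgroup G} {n : G} (hn : n ∈ normalizer (A : Set G)) : n ^ nI A ∈ A :=
  (A.subgroupOf (normalizer A)).pow_index_mem ⟨n, hn⟩

/-- Sylow subgroups -/
structure Sy (p : ℕ) (A : Subgroup G) : Prop where
  pg : IsPGroup p A
  idx : ¬p ∣ A.index

theorem Sy.rel {A Y : Subgroup G} (h : Sy p A) (k : A ≤ Y) : ¬p ∣ A.relIndex Y :=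
  not_dvd_mono k le_top (by rw [relIndex_top_right]; exact h.idx)

theorem Sy.nI {A : Subgroup G} (h : Sy p A) : ¬p ∣ nI A := h.rel le_normalizer

variable [Fintype G] [Fintype H]

theorem Mt.cz (h : Mt F) (g : G) : cz ⊤ (F g) = cz ⊤ g := by
  have h1 := card_cj ⊤ g
  rw [ncard_equiv F (t := cj ⊤ (F g)) fun x => by rw [cj_top, cj_top, h.conj], card_top,
    ← Mt.card F, ← card_top, ← card_cj ⊤ (F g)] at h1
  exact (Nat.eq_of_mul_eq_mul_left ((Set.ncard_pos (Set.toFinite _)).2 ⟨F g, cj.rfl⟩) h1).symm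

theorem Mt.secs (h : Mt F) {t : ℕ} (ht : t ≠ 0) : ∀ g g', IsConj (g ^ t ^ Nat.card G)
    (g' ^ t ^ Nat.card G) → IsConj (F g ^ t ^ Nat.card G) (F g' ^ t ^ Nat.card G) := by
  induction t using induction_on_primes with
  | zero => exact absurd rfl ht
  | one => simpa using fun g g' => (h.conj g g').2
  | prime_mul r a hr ih =>
    intro g g' c
    obtain ⟨m, hm, k⟩ := reg_pow (G := G) hr Nat.card_pos.ne' fun _ => pow_card_eq_one'
    have m0 : m ≠ 0 := by
      rintro rfl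
      exact hr.ne_one (by simpa using hm)
    obtain ⟨j, hj⟩ := Nat.exists_eq_succ_of_ne_zero (Nat.totient_pos.2 (Nat.pos_of_ne_zero m0)).ne'
    generalize hq : r ^ Nat.card G = s at k
    have e : ∀ x : G, IsConj (F x ^ s) (F ((x ^ s) ^ s ^ j) ^ s) := fun x => by
      rw [← hq, h.sec r hr, hq, ← pow_mul (x ^ s), ← pow_succ]
      have := (Nat.ModEq.pow_totient (hq ▸ hm.symm.pow_left _ : s.Coprime m)).of_dvd
        (orderOf_dvd_of_pow_eq_one (k x))
      rw [← Nat.succ_eq_add_one, ← hj, pow_eq_pow_iff_modEq.2 this, pow_one]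
    rw [mul_pow, hq, pow_mul, pow_mul] at c ⊢
    refine ((e g).pow _).trans (IsConj.trans ?_ ((e g').pow _).symm)
    rw [pow_right_comm, pow_right_comm (F _) s]
    refine (ih (right_ne_zero_of_mul ht) _ _ ?_).pow s
    rw [pow_right_comm, pow_right_comm (g' ^ s)]
    exact c.pow _

theorem pe_iff {t : ℕ} (ht : t ≠ 0) {g : G} : pe t g ↔ g ^ t ^ Nat.card G = 1 := by
  refine ⟨fun ⟨k, hk⟩ => orderOf_dvd_iff_pow_eq_one.1 ?_, fun h => ⟨_, h⟩⟩
  have h0 := (orderOf_pos g).ne'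
  refine (Nat.factorization_prime_le_iff_dvd h0 (pow_ne_zero _ ht)).1 fun r hr => ?_
  by_cases c : r ∣ orderOf g
  · have := hr.factorization_pos_of_dvd ht
      (hr.dvd_of_dvd_pow (c.trans (orderOf_dvd_of_pow_eq_one hk)))
    rw [Nat.factorization_pow, Finsupp.smul_apply, smul_eq_mul]
    exact ((Nat.factorization_lt r h0).le.trans orderOf_le_card).trans
      (Nat.le_mul_of_pos_right _ this)
  · rw [Nat.factorization_eq_zero_of_not_dvd c]
    exact Nat.zero_le _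

theorem Mt.pe (h : Mt F) {t : ℕ} (ht : t ≠ 0) {g : G} (hg : pe t g) : pe t (F g) := by
  have := h.secs ht g 1 (by rw [(pe_iff ht).1 hg, one_pow])
  rw [h.one, one_pow, isConj_one_left] at this
  exact ⟨_, this⟩

theorem Mt.reg (h : Mt F) (hp : p.Prime) {g : G} (hg : ¬p ∣ orderOf g) : ¬p ∣ orderOf (F g) := by
  obtain ⟨k, hk⟩ := h.pe (orderOf_pos g).ne' (g := g) ⟨1, by simp⟩
  exact fun c => hg (hp.dvd_of_dvd_pow (c.trans (orderOf_dvd_of_pow_eq_one hk)))

theorem Mt.rg_top (h : Mt F) (hp : p.Prime) : rg p (⊤ : Subgroup G) = rg p (⊤ : Subgroup H) :=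
  ncard_equiv F fun g => and_congr (by simp) ⟨h.reg hp, fun k => by simpa using h.symm.reg hp k⟩

theorem Mt.kappa (h : Mt F) (hp : p ≠ 0) :
    ∑ g : G, ind (g ∈ (⊤ : Subgroup G) ∧ H94.pe p g) * H94.cz ⊤ g =
      ∑ g : H, ind (g ∈ (⊤ : Subgroup H) ∧ H94.pe p g) * H94.cz ⊤ g :=
  Fintype.sum_equiv F _ _ fun g => by
    rw [h.cz, show H94.pe p (F g) = H94.pe p g from
      propext ⟨fun k => by simpa using h.symm.pe hp k, h.pe hp⟩]
    simp

theorem Pt.sect {e : ℕ} (h : Pt p G e) {z : G} (hz : pe p z) :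
    {g | IsConj z (g ^ e)}.ncard * cz ⊤ z = rg p (centralizer {z}) * Nat.card G := by
  have h1 := h.sum ⊤ (cj ⊤ z)
  rw [sum_congr rfl fun x _ => ind_congr fun hx => by
    rw [← h.fib hx.1 hx.2.1, ← fib_cj e hx.2.2, h.fib (mem_top z) hz], ← sum_mul,
    sum_congr rfl fun x _ => congrArg ind (propext (b := cj ⊤ z x)
      ⟨fun k => k.2.2, fun k => ⟨mem_top x, hz.cj k, k⟩⟩), sum_ind, top_inf_eq] at h1
  simp only [mem_top, true_and] at h1
  rw [← card_top, ← card_cj ⊤ z]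
  simp only [← cj_top]
  rw [← Nat.cast_inj (R := ℚ), Nat.cast_mul, ← h1]
  push_cast
  ring

theorem Mt.rg_cen (h : Mt F) (hp : p.Prime) {z : G} {z' : H} (hz : H94.pe p z)
    (c : IsConj (F z) z') : rg p (centralizer {z}) = rg p (centralizer {z'}) := by
  obtain ⟨a, m, h1, h2⟩ :=
    Nat.exists_eq_pow_mul_and_not_dvd (Nat.card_pos (α := G)).ne' p hp.ne_one
  have m0 : m ≠ 0 := fun k => h1 (k ▸ dvd_zero p)
  have k : ∀ {K L : Type} [Group K] [Group L] [Fintype K] [Fintype L] {F : K ≃ L}, Mt F →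
      Nat.card K = Nat.card G → Pt p K ((m ^ Nat.card G) ^ (p ^ a).totient) ∧ ∀ g g',
      IsConj (g ^ (m ^ Nat.card G) ^ (p ^ a).totient) (g' ^ (m ^ Nat.card G) ^ (p ^ a).totient) →
      IsConj (F g ^ (m ^ Nat.card G) ^ (p ^ a).totient)
        (F g' ^ (m ^ Nat.card G) ^ (p ^ a).totient) := fun {K L} _ _ _ _ {F} h e => by
    have hK : ∀ g : K, g ^ (p ^ a * m) = 1 := fun g => by rw [← h2, ← e, pow_card_eq_one']
    have pt := pt_of hp h1 hK (Nat.card_pos (α := G)).ne'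
    refine ⟨pt, fun g g' c => ?_⟩
    have pp : ∀ g : K, H94.pe p (g ^ m ^ Nat.card G) := fun g => by
      obtain ⟨d, hd⟩ := dvd_pow_self m (Nat.card_pos (α := G)).ne'
      exact ⟨a, by rw [hd, ← pow_mul, mul_comm, ← mul_assoc, pow_mul, hK, one_pow]⟩
    have c1 := c.pow (m ^ Nat.card G)
    rw [pow_right_comm, pow_right_comm g', pt.fix _ (pp g), pt.fix _ (pp g'), ← e] at c1
    obtain ⟨j, hj⟩ := Nat.exists_eq_succ_of_ne_zero (Nat.totient_pos.2 (pow_pos hp.pos a)).ne'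
    rw [hj, pow_succ', pow_mul, pow_mul, ← e]
    exact (h.secs m0 g g' c1).pow _
  obtain ⟨p1, k1⟩ := k h rfl
  obtain ⟨p2, k2⟩ := k h.symm (Mt.card F)
  have hz1 := h.pe hp.ne_zero hz
  generalize (m ^ Nat.card G) ^ (p ^ a).totient = e at p1 k1 p2 k2
  have e1 := p1.sect hz
  rw [ncard_equiv F (t := fun y => IsConj z' (y ^ e)) fun g =>
    ⟨fun k => c.symm.trans (by simpa [p2.fix _ hz1] using k1 z g (by rwa [p1.fix _ hz])),
      fun k => by simpa [p1.fix _ hz] using k2 (F z) (F g) (by rw [p2.fix _ hz1]; exact c.trans k)⟩,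
    ← h.cz, (cj_top.2 c).cz_eq, p2.sect (hz1.cj (cj_top.2 c)), Mt.card F] at e1
  exact (Nat.eq_of_mul_eq_mul_right Nat.card_pos e1).symm

theorem Mt.galp (h : Mt F) (hp : p.Prime) {x : G} {x' : H} (hx : H94.pe p x) (c : IsConj (F x) x')
    {s : ℕ} (hs : ¬p ∣ s) : IsConj (F (x ^ s)) (x' ^ s) := by
  obtain ⟨a, m, h1, h2⟩ :=
    Nat.exists_eq_pow_mul_and_not_dvd (Nat.card_pos (α := G)).ne' p hp.ne_one
  have co := (hp.coprime_iff_not_dvd.2 h1).pow_left a
  obtain ⟨s', e1, e2⟩ := Nat.chineseRemainder co s 1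
  have k : ∀ {K : Type} [Group K] [Finite K] {x : K}, Nat.card K = Nat.card G → H94.pe p x →
      x ^ s = x ^ s' := fun {K} _ _ {x} e ⟨k, hk⟩ =>
    pow_eq_pow_iff_modEq.2 (e1.symm.of_dvd
      ((((hp.coprime_iff_not_dvd.2 h1).pow_left k).coprime_dvd_left
        (orderOf_dvd_of_pow_eq_one hk)).dvd_of_dvd_mul_right
          (by rw [← h2, ← e]; exact orderOf_dvd_natCard x)))
  refine IsConj.trans ?_ (c.pow s)
  rw [k rfl hx, k (Mt.card F) (h.pe hp.ne_zero hx)]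
  refine h.gal x s' (h2 ▸ Nat.Coprime.mul_right ?_ ?_)
  · rw [Nat.Coprime, e1.gcd_eq]
    exact (hp.coprime_iff_not_dvd.2 hs).symm.pow_right a
  · rw [Nat.Coprime, e2.gcd_eq, Nat.gcd_one_left]

variable [hp : Fact p.Prime] {P : Subgroup G} {Q : Subgroup H}

theorem Sy.mem (h : Sy p P) {x : G} (hx : pe p x) (k : P ≤ centralizer {x}) : x ∈ P := by
  obtain ⟨c, hc, e⟩ := syl_conj k (zpowers_le.2 (mem_cen.2 (by group))) h.pg hx.pg (h.rel k)
  simpa [mem_cen.1 hc] using e x (mem_zpowers x)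

theorem Sy.fusion (h : Sy p P) {x y : G} (hx : P ≤ centralizer {x}) (hy : P ≤ centralizer {y})
    (c : IsConj x y) : cj (normalizer P) x y :=
  (H94.fusion le_top h.pg (h.rel le_top) hx hy (cj_top.2 c)).mono inf_le_right

theorem Sy.card (F : G ≃ H) (hP : Sy p P) (hQ : Sy p Q) : Nat.card Q = Nat.card P := by
  rw [show Nat.card Q = _ from (hQ.pg.toSylow hQ.idx).card_eq_multiplicity,
    show Nat.card P = _ from (hP.pg.toSylow hP.idx).card_eq_multiplicity, Mt.card F]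

theorem exists_sy (Y : Subgroup G) : ∃ S ≤ Y, IsPGroup p S ∧ ¬p ∣ S.relIndex Y := by
  obtain ⟨S⟩ : Nonempty (Sylow p Y) := inferInstance
  refine ⟨S.1.map Y.subtype, map_subtype_le _, S.isPGroup'.map _, ?_⟩
  rw [relIndex, subgroupOf, comap_map_eq_self_of_injective (subtype_injective _)]
  exact S.not_dvd_index

theorem Mt.central (h : Mt F) (hP : Sy p P) (hQ : Sy p Q) {u : G} (hu : P ≤ centralizer {u}) :
    ∃ u', IsConj (F u) u' ∧ Q ≤ centralizer {u'} := by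
  have e : (centralizer {F u}).index = (centralizer {u}).index := by
    have h1 := h.cz u
    rw [H94.cz, H94.cz, top_inf_eq, top_inf_eq] at h1
    refine Nat.eq_of_mul_eq_mul_left (Nat.card_pos (α := centralizer {u})) ?_
    rw [card_mul_index, ← h1, card_mul_index, Mt.card F]
  obtain ⟨S, h1, h2, h3⟩ := exists_sy (p := p) (centralizer {F u})
  obtain ⟨c, -, hc⟩ := syl_conj (Y := ⊤) (A := S) le_top le_top h2 hQ.pg (by
    rw [relIndex_top_right, ← relIndex_mul_index h1, hp.out.dvd_mul, e]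
    exact fun k => k.elim h3 fun k => hP.idx (k.trans (index_dvd_of_le hu)))
  refine ⟨c⁻¹ * F u * c⁻¹⁻¹, isConj_iff.2 ⟨_, rfl⟩, fun b hb => mem_cen.2 ?_⟩
  have := mem_cen.1 (h1 (hc b hb))
  calc _ = c⁻¹ * (c * b * c⁻¹ * F u * (c * b * c⁻¹)⁻¹) * c⁻¹⁻¹ := by group
    _ = _ := by rw [this]

theorem Mt.power (h : Mt F) (hQ : Sy p Q) {u : G} {u' : H} (hu : H94.pe p u) (c : IsConj (F u) u')
    (hu' : Q ≤ centralizer {u'}) {s : ℕ} (hs : ¬p ∣ s) (k : IsConj u (u ^ s)) :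
    (s : ZMod (orderOf u')) ^ nI Q = 1 := by
  obtain ⟨y, hy, e⟩ := hQ.fusion hu' (y := u' ^ s) (fun b hb => mem_cen.2 (by
    rw [← conj_pow, mem_cen.1 (hu' hb)]))
    (c.symm.trans (((h.conj _ _).2 k).trans (h.galp hp.out hu c hs)))
  rw [← Nat.cast_pow, ← fix_iff, ← conj_iter e, mem_cen.1 (hu' (pow_nI hy))]

/-- orders of central elements are visible -/
theorem Mt.order (h : Mt F) (hQ : Sy p Q) {u : G} {u' : H} (c : IsConj (F u) u')
    (hu' : Q ≤ centralizer {u'}) {k : ℕ} (hk : u ^ p ^ k = 1) : u' ^ p ^ k = 1 := by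
  rcases k with _ | k
  · rw [pow_zero, pow_one] at hk ⊢
    rwa [hk, h.one, isConj_one_right] at c
  have h1 := h.power hQ ⟨_, hk⟩ c hu' (s := p ^ (k + 1) + 1)
    (by rw [Nat.dvd_add_right (dvd_pow_self p k.succ_ne_zero)]; simpa using hp.out.ne_one)
    (by rw [pow_succ, hk, one_mul])
  obtain ⟨j, hj⟩ := (h.pe hp.out.ne_zero ⟨_, hk⟩).cj (cj_top.2 c)
  have h3 := (fix_iff _ _).2 (zm_one (orderOf_dvd_of_pow_eq_one hj) ⟨p ^ k, by push_cast; ring⟩
    hQ.nI h1)
  rwa [pow_succ, mul_eq_right] at h3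

/-- a power action on a central element of order `p` is visible -/
theorem Mt.eig (h : Mt F) (hP : Sy p P) (hQ : Sy p Q) (hq : q.Prime) {u y : G} {s : ℕ}
    (hu : P ≤ centralizer {u}) (up : u ^ p = 1) (hy : y ^ q = 1) (e : y * u * y⁻¹ = u ^ s)
    (ne : u ^ s ≠ u) : q ∣ nI Q := by
  obtain ⟨u', c, hu'⟩ := h.central hP hQ hu
  have u1 : u ≠ 1 := fun k => ne (by simp [k])
  have pu : H94.pe p u := ⟨1, by simpa⟩
  have h1 := h.power hQ pu c hu' (s := s) (fun ⟨d, hd⟩ => u1 (by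
    simpa [hd, pow_mul, up] using e)) (isConj_iff.2 ⟨y, e⟩)
  have h2 := conj_iter e q
  rw [orderOf_eq_prime (by simpa using h.order hQ c hu' (k := 1) (by simpa)) (h.ne_one u1 c),
    ← orderOf_eq_prime up u1] at h1
  rw [hy, one_mul, inv_one, mul_one, eq_comm, fix_iff, Nat.cast_pow] at h2
  by_contra k
  exact ne ((fix_iff _ _).2 ((pow_eq_one_iff_of_coprime (hq.coprime_iff_not_dvd.2 k)).1 ⟨h2, h1⟩))

/-- the primes of the centraliser are visible -/
theorem Mt.cent (h : Mt F) (hP : Sy p P) (hQ : Sy p Q) (hq : q.Prime) (qp : q ≠ p) {y : G}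
    (hy : y ^ q = 1) (y1 : y ≠ 1) (k : P ≤ centralizer {y}) : q ∣ nI Q := by
  obtain ⟨y', c, hy'⟩ := h.central hP hQ k
  obtain ⟨i, hi⟩ := (h.pe hq.ne_zero (g := y) ⟨1, by simpa⟩).cj (cj_top.2 c)
  obtain ⟨j, hj⟩ := pe_of_mem hQ.pg (pow_nI (mem_norm (t := y') fun a ha => by
    rwa [← mem_centralizer_singleton_iff.1 (hy' ha), mul_inv_cancel_right]))
  by_contra k
  rw [← pow_mul] at hj
  exact h.ne_one y1 c ((pow_eq_one_iff_of_coprime (((hq.coprime_iff_not_dvd.2 k).mul_right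
    (((Nat.coprime_primes hq hp.out).2 qp).pow_right j)).pow_left i)).1 ⟨hi, hj⟩)

end Pool.Agent.MP_abb977_al.H94
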